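import Pool.Graph.R_pool_sql_team_seeded_3997aac3.Q171.ND3.B

/-!
Products of cochains: a cocycle of the cobar complex in the first slots and a cochain of a complex
with coefficients in the remaining slots.
-/

set_option autoImplicit false
set_option linter.unusedSectionVars false

namespace Pool.Agent.H92ND

open Finset MvPolynomial Pool.Agent.W624.Stz Pool.Agent.Q171.ND3

section points

variable {A : Type*} [CommRing A] [Algebra (ZMod 2) A] {K : Type}

/-- drop the first `m` slots of a point -/
def sz (m : ℕ) (z : Pt K A) : Pt K A := (fun a => z.1 (m + a), z.2)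

/-- forget the coefficients of a point -/
def fz (z : Pt K A) : Pt Empty A := (z.1, fun c => c.elim)

/-- shift of the slots -/
noncomputable def SH (K : Type) (m : ℕ) : RR K →ₐ[ZMod 2] RR K :=
  aeval (fun v => match v with
    | .x a n => X (.x (m + a) n)
    | .s a n => X (.s (m + a) n)
    | .y c n => X (.y c n))

theorem SH_x (m a n : ℕ) : SH K m (X (.x a n)) = X (.x (m + a) n) := aeval_X _ _
theorem SH_s (m a n : ℕ) : SH K m (X (.s a n)) = X (.s (m + a) n) := aeval_X _ _
theorem SH_y (m : ℕ) (c : K) (n : ℕ) : SH K m (X (.y c n)) = X (.y c n) := aeval_X _ _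

theorem ev_SH (m : ℕ) (z : Pt K A) (f : RR K) : ev z (SH K m f) = ev (sz m z) f := by
  have : (ev z).comp (SH K m) = ev (sz m z) := by
    apply algHom_ext
    intro v
    rw [AlgHom.comp_apply]
    cases v with
    | x a n => rw [SH_x, ev_X, ev_X]; rfl
    | s a n => rw [SH_s, ev_X, ev_X]; rfl
    | y c n => rw [SH_y, ev_X, ev_X]; rfl
  exact DFunLike.congr_fun this f

theorem ev_JJ (z : Pt K A) (f : RR Empty) : ev z (JJ K f) = ev (fz z) f := by
  have : (ev z).comp (JJ K) = ev (fz z) := by
    apply algHom_ext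
    intro v
    rw [AlgHom.comp_apply]
    cases v with
    | x a n => rw [JJ_x, ev_X, ev_X]; rfl
    | s a n => rw [JJ_s, ev_X, ev_X]; rfl
    | y c n => exact c.elim
  exact DFunLike.congr_fun this f

end points

section pr

variable {K : Type}

/-- the product of a cochain without coefficients in the first `m` slots and a cochain in the
following slots -/
noncomputable def pr (K : Type) (m : ℕ) (u : RR Empty) : RR K →ₗ[ZMod 2] RR K :=
  (LinearMap.mulLeft (ZMod 2) (JJ K u)).comp (SH K m).toLinearMap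

theorem pr_apply (m : ℕ) (u : RR Empty) (a : RR K) : pr K m u a = JJ K u * SH K m a := rfl

theorem ev_pr {A : Type*} [CommRing A] [Algebra (ZMod 2) A] (m : ℕ) (u : RR Empty) (a : RR K)
    (z : Pt K A) : ev z (pr K m u a) = ev (fz z) u * ev (sz m z) a := by
  rw [pr_apply, map_mul, ev_SH, ev_JJ]

theorem SH_self (m : ℕ) (f : RR K) : SH K m f = ev (sz m (uni K)) f := by
  rw [← ev_SH, ev_uni]

theorem JJ_self (f : RR Empty) : JJ K f = ev (fz (uni K)) f := by
  rw [← ev_JJ, ev_uni]

theorem mrg_shift {M : Type*} [Monoid M] (m i : ℕ) (γ : ℕ → M) :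
    (fun a => mrg (m + i) γ (m + a)) = mrg i (fun a => γ (m + a)) := by
  funext a
  rcases lt_trichotomy a i with h | h | h
  · rw [mrg_lt (by omega), mrg_lt h]
  · subst h
    rw [mrg_eq, mrg_eq]
    rfl
  · rw [mrg_gt (by omega), mrg_gt h]
    rfl

/-- the Leibniz formula -/
theorem dd_pr (κ : K → Kd) {m q : ℕ} {u : RR Empty} {a : RR K} (hu : cut Empty m u = u)
    (ha : cut K q a = a) :
    dd κ (m + q) (pr K m u a) = pr K (m + 1) (dd kun m u) a + pr K m u (dd κ q a) := by
  have hU := dep_of_cut (A := RR K) hu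
  have hA := dep_of_cut (A := RR K) ha
  rw [dd_apply, show m + q + 2 = (m + 1) + (q + 1) by omega, sum_range_add]
  have e1 : ∀ j ∈ range (m + 1), ev (fc (act κ) (m + q) j (uni K)) (pr K m u a)
      = ev (fc (act kun) m j (fz (uni K))) u * ev (sz (m + 1) (uni K)) a := by
    intro j hj
    rw [mem_range] at hj
    rw [ev_pr]
    congr 1
    · apply hU
      rcases Nat.eq_zero_or_pos j with rfl | h
      · rw [fc_zero, fc_zero]
        exact ⟨fun _ _ => rfl, funext fun c => c.elim⟩
      · obtain ⟨j, rfl⟩ : ∃ k, j = k + 1 := ⟨j - 1, by omega⟩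
        rw [fc_mid _ (by omega), fc_mid _ (by omega)]
        exact ⟨fun _ _ => rfl, funext fun c => c.elim⟩
    · apply hA
      rcases Nat.eq_zero_or_pos j with rfl | h
      · rw [fc_zero]
        refine ⟨fun b _ => ?_, rfl⟩
        change (uni K).1 (m + b + 1) = (uni K).1 (m + 1 + b)
        rw [show m + b + 1 = m + 1 + b by omega]
      · obtain ⟨j, rfl⟩ : ∃ k, j = k + 1 := ⟨j - 1, by omega⟩
        rw [fc_mid _ (by omega)]
        refine ⟨fun b _ => ?_, rfl⟩
        change mrg j (uni K).1 (m + b) = (uni K).1 (m + 1 + b)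
        rw [mrg_gt (by omega), show m + b + 1 = m + 1 + b by omega]
  have e2 : ∀ l ∈ range (q + 1), ev (fc (act κ) (m + q) (m + 1 + l) (uni K)) (pr K m u a)
      = ev (fz (uni K)) u * ev (fc (act κ) q (l + 1) (sz m (uni K))) a := by
    intro l hl
    rw [mem_range] at hl
    rw [ev_pr]
    rcases Nat.lt_or_ge l q with h | h
    · rw [show m + 1 + l = (m + l) + 1 by omega, fc_mid _ (by omega), fc_mid _ (by omega)]
      congr 1
      · apply hU
        refine ⟨fun b hb => ?_, funext fun c => c.elim⟩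
        simp only [fz]
        rw [mrg_lt (by omega)]
      · apply hA
        refine ⟨fun b _ => ?_, rfl⟩
        exact congrFun (mrg_shift m l (uni K).1) b
    · rw [fc_last _ (by omega), fc_last _ (by omega)]
      have hlq : l = q := by omega
      subst hlq
      congr 1
  rw [sum_congr rfl e1, sum_congr rfl e2, ← sum_mul, ← mul_sum]
  have e3 : pr K (m + 1) (dd kun m u) a
      = (∑ j ∈ range (m + 1), ev (fc (act kun) m j (fz (uni K))) u
        + ev (fz (uni K)) u) * ev (sz (m + 1) (uni K)) a := by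
    rw [pr_apply, JJ_self, SH_self, ev_dd, dF, sum_range_succ, fc_last _ (by omega)]
    congr 2
    congr 1
    congr 1
    exact Prod.ext rfl (funext fun c => c.elim)
  have e4 : pr K m u (dd κ q a)
      = ev (fz (uni K)) u * (∑ l ∈ range (q + 1), ev (fc (act κ) q (l + 1) (sz m (uni K))) a
        + ev (sz (m + 1) (uni K)) a) := by
    have h0 : ((fun b => (sz m (uni K)).1 (b + 1), (sz m (uni K)).2) : Pt K (RR K))
        = sz (m + 1) (uni K) := by
      refine Prod.ext (funext fun b => ?_) rfl
      change (uni K).1 (m + (b + 1)) = (uni K).1 (m + 1 + b)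
      rw [show m + (b + 1) = m + 1 + b by omega]
    rw [pr_apply, JJ_self, SH_self, ev_dd, dF, sum_range_succ' _ (q + 1), fc_zero, h0]
  rw [e3, e4]
  have h2 := p2_add_self (ev (fz (uni K)) u * ev (sz (m + 1) (uni K)) a)
  linear_combination -h2

theorem TT_pr {κ : K → Kd} {κ1 : Empty → Kd} {m q : ℕ} {N w : ℤ} {ν : K → ℕ} {j : ℕ}
    {u : RR Empty} {a : RR K} {ν1 : Empty → ℕ}
    (hu : TT κ1 m N ν1 0 u) (ha : TT κ q w ν j a) : TT κ (m + q) (N + w) ν j (pr K m u a) := by
  have h1 : TT κ m N (0 : K → ℕ) 0 (JJ K u) := TT_JJ hu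
  refine ⟨?_, ?_⟩
  · rw [pr_apply, map_mul, cut_le (by omega) h1.cu]
    congr 1
    rw [SH_self]
    apply cut_of_dep
    intro z z' hz
    simp only [← SH_self, ev_SH]
    apply dep_of_cut ha.cu
    exact ⟨fun b hb => hz.1 _ (by omega), hz.2⟩
  · have h2 : IW (wF κ) (SH K m a) (w, (ν, j)) := by
      refine IW.aeval' (AddMonoidHom.id _) (SH K m) (w := wF κ) (w' := wF κ) ?_ ha.iw
      intro v
      rw [AddMonoidHom.id_apply]
      cases v with
      | x a n => rw [SH_x]; exact isWeightedHomogeneous_X _ _ (Vr.x (m + a) n)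
      | s a n => rw [SH_s]; exact isWeightedHomogeneous_X _ _ (Vr.s (m + a) n)
      | y c n => rw [SH_y]; exact isWeightedHomogeneous_X _ _ _
    have h3 := h1.iw.mul h2
    have h4 : ((N, ((0 : K → ℕ), 0)) : ℤ × ((K → ℕ) × ℕ)) + (w, (ν, j)) = (N + w, (ν, j)) := by
      refine Prod.ext rfl (Prod.ext ?_ ?_)
      · exact zero_add ν
      · exact zero_add j
    rw [h4] at h3
    exact h3

theorem DX_SH (m : ℕ) (a : RR K) : DX K (SH K m a) = SH K m (DX K a) := by
  apply der_hom
  intro v
  cases v with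
  | x a n => rw [DX_x, SH_x, SH_s, DX_x]
  | s a n => rw [DX_s, SH_s, map_zero, DX_s]
  | y c n => rw [DX_y, SH_y, map_zero, DX_y]

theorem DX_JJ (u : RR Empty) : DX K (JJ K u) = JJ K (DX Empty u) := by
  apply der_hom
  intro v
  cases v with
  | x a n => rw [DX_x, JJ_x, JJ_s, DX_x]
  | s a n => rw [DX_s, JJ_s, map_zero, DX_s]
  | y c n => exact c.elim

theorem DX_pr {m : ℕ} {u : RR Empty} (hu : DX Empty u = 0) (a : RR K) :
    DX K (pr K m u a) = pr K m u (DX K a) := by
  rw [pr_apply, Derivation.leibniz, DX_JJ, hu, map_zero, smul_zero, add_zero, smul_eq_mul, DX_SH,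
    pr_apply]

theorem PHI_SH (m : ℕ) (a : RR K) : PHI K (SH K m a) = SH K m (PHI K a) := by
  have : (PHI K).comp (SH K m) = (SH K m).comp (PHI K) := by
    apply algHom_ext
    intro v
    rw [AlgHom.comp_apply, AlgHom.comp_apply]
    cases v with
    | x a n => rw [SH_x, PHI_x, PHI_x, map_pow, SH_x]
    | s a n => rw [SH_s, PHI_s, PHI_s, map_pow, SH_s]
    | y c n => rw [SH_y, PHI_y, SH_y]
  exact DFunLike.congr_fun this a

theorem PHI_pr (m : ℕ) (u : RR Empty) (a : RR K) :
    PHI K (pr K m u a) = pr K m (PHI Empty u) (PHI K a) := by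
  rw [pr_apply, map_mul, PHI_SH, ← JJ_PHI, pr_apply]

theorem PI_JJ (S : K → Bool) (u : RR Empty) : PI S (JJ K u) = JJ K u := by
  have : (PI S).comp (JJ K) = JJ K := by
    apply algHom_ext
    intro v
    rw [AlgHom.comp_apply]
    cases v with
    | x a n => rw [JJ_x, PI_x]
    | s a n => rw [JJ_s, PI_s]
    | y c n => exact c.elim
  exact DFunLike.congr_fun this u

theorem PI_SH (S : K → Bool) (m : ℕ) (a : RR K) : PI S (SH K m a) = SH K m (PI S a) := by
  have : (PI S).comp (SH K m) = (SH K m).comp (PI S) := by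
    apply algHom_ext
    intro v
    rw [AlgHom.comp_apply, AlgHom.comp_apply]
    cases v with
    | x a n => rw [SH_x, PI_x, PI_x, SH_x]
    | s a n => rw [SH_s, PI_s, PI_s, SH_s]
    | y c n =>
      rw [SH_y, PI_y]
      simp only [hS]
      by_cases h : S c = true
      · rw [if_pos h]
        cases n with
        | zero => simp only [sh, map_zero]
        | succ n => simp only [sh, uni_y]; rw [SH_y]
      · rw [if_neg h, uni_y, SH_y]
  exact DFunLike.congr_fun this a

theorem PI_pr (S : K → Bool) (m : ℕ) (u : RR Empty) (a : RR K) :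
    PI S (pr K m u a) = pr K m u (PI S a) := by
  rw [pr_apply, map_mul, PI_JJ, PI_SH, pr_apply]

theorem SI_JJ (S : K → Bool) (u : RR Empty) : SI S (JJ K u) = JJ K u := by
  have : (SI S).comp (JJ K) = JJ K := by
    apply algHom_ext
    intro v
    rw [AlgHom.comp_apply]
    cases v with
    | x a n => rw [JJ_x, SI_x]
    | s a n => rw [JJ_s, SI_s]
    | y c n => exact c.elim
  exact DFunLike.congr_fun this u

theorem SI_SH (S : K → Bool) (m : ℕ) (a : RR K) : SI S (SH K m a) = SH K m (SI S a) := by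
  have : (SI S).comp (SH K m) = (SH K m).comp (SI S) := by
    apply algHom_ext
    intro v
    rw [AlgHom.comp_apply, AlgHom.comp_apply]
    cases v with
    | x a n => rw [SH_x, SI_x, SI_x, SH_x]
    | s a n => rw [SH_s, SI_s, SI_s, SH_s]
    | y c n =>
      rw [SH_y, SI_y]
      simp only [hT]
      by_cases h : S c = true
      · rw [if_pos h]
        simp only [tl, uni_y]
        rw [SH_y]
      · rw [if_neg h, uni_y, SH_y]
  exact DFunLike.congr_fun this a

theorem SI_pr (S : K → Bool) (m : ℕ) (u : RR Empty) (a : RR K) :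
    SI S (pr K m u a) = pr K m u (SI S a) := by
  rw [pr_apply, map_mul, SI_JJ, SI_SH, pr_apply]

theorem Y_pr (c : K) (m : ℕ) (u : RR Empty) (a : RR K) :
    pr K m u (X (.y c 0) * a) = X (.y c 0) * pr K m u a := by
  rw [pr_apply, map_mul, SH_y, pr_apply]
  ring

theorem IN_SH (m : ℕ) (a : RR K) : IN K (SH K m a) = SH (Option K) m (IN K a) := by
  have : (IN K).comp (SH K m) = (SH (Option K) m).comp (IN K) := by
    apply algHom_ext
    intro v
    rw [AlgHom.comp_apply, AlgHom.comp_apply]
    cases v with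
    | x a n => rw [SH_x, IN_x, IN_x, SH_x]
    | s a n => rw [SH_s, IN_s, IN_s, SH_s]
    | y c n => rw [SH_y, IN_y, SH_y]
  exact DFunLike.congr_fun this a

theorem IN_JJ' (u : RR Empty) : IN K (JJ K u) = JJ (Option K) u := by
  have : (IN K).comp (JJ K) = JJ (Option K) := by
    apply algHom_ext
    intro v
    rw [AlgHom.comp_apply]
    cases v with
    | x a n => rw [JJ_x, IN_x, JJ_x]
    | s a n => rw [JJ_s, IN_s, JJ_s]
    | y c n => exact c.elim
  exact DFunLike.congr_fun this u

theorem IN_pr (m : ℕ) (u : RR Empty) (a : RR K) :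
    IN K (pr K m u a) = pr (Option K) m u (IN K a) := by
  rw [pr_apply, map_mul, IN_JJ', IN_SH, pr_apply]

theorem RE_SH (m : ℕ) (a : RR (Option K)) : RE K (SH (Option K) m a) = SH K m (RE K a) := by
  have : (RE K).comp (SH (Option K) m) = (SH K m).comp (RE K) := by
    apply algHom_ext
    intro v
    rw [AlgHom.comp_apply, AlgHom.comp_apply]
    cases v with
    | x a n => rw [SH_x, RE_x, RE_x, SH_x]
    | s a n => rw [SH_s, RE_s, RE_s, SH_s]
    | y o n =>
      rw [SH_y, RE_y]
      cases o with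
      | none => simp only [ez, Pi.zero_apply, map_zero]
      | some c => simp only [ez, uni_y]; rw [SH_y]
  exact DFunLike.congr_fun this a

theorem RE_JJ (u : RR Empty) : RE K (JJ (Option K) u) = JJ K u := by
  rw [← IN_JJ', RE_IN]

theorem RE_pr (m : ℕ) (u : RR Empty) (a : RR (Option K)) :
    RE K (pr (Option K) m u a) = pr K m u (RE K a) := by
  rw [pr_apply, map_mul, RE_JJ, RE_SH, pr_apply]

end pr

end Pool.Agent.H92ND
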