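import Pool.Agent.H92ND.A

/-!
The mapping cone of the multiplication by a finite family of cocycles.
-/

set_option autoImplicit false
set_option linter.unusedSectionVars false

namespace Pool.Agent.H92ND

open Finset MvPolynomial Pool.Agent.W624.Stz Pool.Agent.Q171.ND3

/-- a finite family of cochains of the cobar complex -/
structure Fam where
  /-- indices -/
  ι : Type
  /-- finitely many indices -/
  fin : Fintype ι
  /-- cohomological degrees -/
  dg : ι → ℕ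
  /-- positivity of the degrees -/
  pos : ∀ k, 1 ≤ dg k
  /-- the cochains -/
  el : ι → RR Empty

instance (U : Fam) : Fintype U.ι := U.fin

/-- a family of cocycles of internal degree `N` -/
structure Fam.At0 (U : Fam) (N : ℤ) : Prop where
  tt : ∀ k, TT (kun : Empty → Kd) (U.dg k) N 0 0 (U.el k)
  cy : ∀ k, dd (kun : Empty → Kd) (U.dg k) (U.el k) = 0

/-- a family of cocycles of internal degree `N` which are killed by the tangent derivation -/
structure Fam.At (U : Fam) (N : ℤ) : Prop extends Fam.At0 U N where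
  dx : ∀ k, DX Empty (U.el k) = 0

/-- elements of the mapping cone -/
abbrev CK (K : Type) (U : Fam) := RR K × (U.ι → RR K)

section cone

variable {K : Type} {U : Fam}

/-- the sum of the products -/
noncomputable def Ph (K : Type) (U : Fam) : (U.ι → RR K) →ₗ[ZMod 2] RR K :=
  ∑ k, (pr K (U.dg k) (U.el k)).comp (LinearMap.proj k)

theorem Ph_apply (a : U.ι → RR K) : Ph K U a = ∑ k, pr K (U.dg k) (U.el k) (a k) := by
  simp [Ph]

/-- the differential of the mapping cone -/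
noncomputable def cd (κ : K → Kd) (U : Fam) (p : ℕ) : CK K U →ₗ[ZMod 2] CK K U :=
  LinearMap.prod ((dd κ p).comp (LinearMap.fst _ _ _) + (Ph K U).comp (LinearMap.snd _ _ _))
    (LinearMap.pi fun k => (dd κ (p + 1 - U.dg k)).comp
      ((LinearMap.proj k).comp (LinearMap.snd _ _ _)))

theorem cd_fst (κ : K → Kd) (p : ℕ) (y : CK K U) :
    (cd κ U p y).1 = dd κ p y.1 + Ph K U y.2 := rfl

theorem cd_snd (κ : K → Kd) (p : ℕ) (y : CK K U) (k : U.ι) :
    (cd κ U p y).2 k = dd κ (p + 1 - U.dg k) (y.2 k) := rfl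

/-- the previous differential -/
noncomputable def cm' (κ : K → Kd) (U : Fam) : ℕ → (CK K U →ₗ[ZMod 2] CK K U)
  | 0 => 0
  | p + 1 => cd κ U p

variable {M : Type*} [AddCommMonoid M]

/-- homogeneous elements of the mapping cone, for arbitrary weights -/
structure SW (w' : Vr K → M) (U : Fam) (p : ℕ) (m0 m1 : M) (y : CK K U) : Prop where
  c0 : cut K p y.1 = y.1
  i0 : IW w' y.1 m0
  c1 : ∀ k, U.dg k ≤ p + 1 → cut K (p + 1 - U.dg k) (y.2 k) = y.2 k
  i1 : ∀ k, IW w' (y.2 k) m1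
  z1 : ∀ k, p + 1 < U.dg k → y.2 k = 0

theorem SW.add {w' : Vr K → M} {p : ℕ} {m0 m1 : M} {y z : CK K U} (hy : SW w' U p m0 m1 y)
    (hz : SW w' U p m0 m1 z) : SW w' U p m0 m1 (y + z) where
  c0 := by rw [Prod.fst_add, map_add, hy.c0, hz.c0]
  i0 := hy.i0.add hz.i0
  c1 k hk := by rw [Prod.snd_add, Pi.add_apply, map_add, hy.c1 k hk, hz.c1 k hk]
  i1 k := (hy.i1 k).add (hz.i1 k)
  z1 k hk := by rw [Prod.snd_add, Pi.add_apply, hy.z1 k hk, hz.z1 k hk, add_zero]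

theorem SW.zero (w' : Vr K → M) (p : ℕ) (m0 m1 : M) : SW w' U p m0 m1 (0 : CK K U) where
  c0 := map_zero _
  i0 := IW.zero' _ _
  c1 _ _ := map_zero _
  i1 _ := IW.zero' _ _
  z1 _ _ := rfl

theorem ck_add_self (y : CK K U) : y + y = 0 :=
  Prod.ext (p2_add_self _) (funext fun _ => p2_add_self _)

theorem ck_neg (y : CK K U) : -y = y := by
  rw [neg_eq_iff_add_eq_zero]; exact ck_add_self y

theorem ck_sub (y z : CK K U) : y - z = y + z := by rw [sub_eq_add_neg, ck_neg]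

theorem SW.sub {w' : Vr K → M} {p : ℕ} {m0 m1 : M} {y z : CK K U} (hy : SW w' U p m0 m1 y)
    (hz : SW w' U p m0 m1 z) : SW w' U p m0 m1 (y - z) := by
  rw [ck_sub]; exact hy.add hz

/-- elements of the mapping cone of the multiplication with a family of internal degree `N`, of
internal degrees `N + w` and `w` -/
abbrev SC (κ : K → Kd) (U : Fam) (p : ℕ) (N w : ℤ) (ν : K → ℕ) (j : ℕ) (y : CK K U) : Prop :=
  SW (wF κ) U p (N + w, (ν, j)) (w, (ν, j)) y

theorem SC.t0 {κ : K → Kd} {p : ℕ} {N w : ℤ} {ν : K → ℕ} {j : ℕ} {y : CK K U}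
    (h : SC κ U p N w ν j y) : TT κ p (N + w) ν j y.1 := ⟨h.c0, h.i0⟩

theorem SC.t1 {κ : K → Kd} {p : ℕ} {N w : ℤ} {ν : K → ℕ} {j : ℕ} {y : CK K U}
    (h : SC κ U p N w ν j y) (k : U.ι) (hk : U.dg k ≤ p + 1) :
    TT κ (p + 1 - U.dg k) w ν j (y.2 k) := ⟨h.c1 k hk, h.i1 k⟩

theorem SC.mk' {κ : K → Kd} {p : ℕ} {N w : ℤ} {ν : K → ℕ} {j : ℕ} {y : CK K U}
    (h0 : TT κ p (N + w) ν j y.1)
    (h1 : ∀ k, U.dg k ≤ p + 1 → TT κ (p + 1 - U.dg k) w ν j (y.2 k))
    (h2 : ∀ k, p + 1 < U.dg k → y.2 k = 0) : SC κ U p N w ν j y where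
  c0 := h0.cu
  i0 := h0.iw
  c1 k hk := (h1 k hk).cu
  i1 k := by
    rcases Nat.lt_or_ge (p + 1) (U.dg k) with h | h
    · rw [h2 k h]; exact IW.zero' _ _
    · exact (h1 k h).iw
  z1 := h2

/-- the sum of the products commutes with the differential -/
theorem dd_Ph {N : ℤ} (hU : U.At0 N) (κ : K → Kd) {p : ℕ} {a : U.ι → RR K}
    (hc : ∀ k, U.dg k ≤ p + 1 → cut K (p + 1 - U.dg k) (a k) = a k)
    (hz : ∀ k, p + 1 < U.dg k → a k = 0) :
    dd κ (p + 1) (Ph K U a) = Ph K U (fun k => dd κ (p + 1 - U.dg k) (a k)) := by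
  rw [Ph_apply, Ph_apply, map_sum]
  refine sum_congr rfl fun k _ => ?_
  rcases Nat.lt_or_ge (p + 1) (U.dg k) with h | h
  · rw [hz k h, map_zero, map_zero, map_zero, map_zero]
  · obtain ⟨r, hr⟩ : ∃ r, p + 1 = U.dg k + r := ⟨p + 1 - U.dg k, by omega⟩
    have hc' := hc k h
    rw [hr, Nat.add_sub_cancel_left] at hc' ⊢
    rw [dd_pr κ (hU.tt k).cu hc', hU.cy k]
    rw [pr_apply, map_zero, zero_mul, zero_add]

theorem TT_Ph {N w : ℤ} (hU : U.At0 N) {κ : K → Kd} {p : ℕ} {ν : K → ℕ} {j : ℕ}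
    {a : U.ι → RR K} (h1 : ∀ k, U.dg k ≤ p + 1 → TT κ (p + 1 - U.dg k) w ν j (a k))
    (h2 : ∀ k, p + 1 < U.dg k → a k = 0) : TT κ (p + 1) (N + w) ν j (Ph K U a) := by
  rw [Ph_apply]
  classical
  refine Finset.sum_induction _ (fun f => TT κ (p + 1) (N + w) ν j f) (fun _ _ h h' => h.add h')
    TT.zero fun k _ => ?_
  rcases Nat.lt_or_ge (p + 1) (U.dg k) with h | h
  · rw [h2 k h, map_zero]; exact TT.zero
  · have := TT_pr (hU.tt k) (h1 k h)
    rwa [show U.dg k + (p + 1 - U.dg k) = p + 1 by omega] at this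

theorem cd_SC {N w : ℤ} (hU : U.At0 N) {κ : K → Kd} (hκ : Naf κ) {p : ℕ} {ν : K → ℕ} {j : ℕ}
    {y : CK K U} (hy : SC κ U p N w ν j y) : SC κ U (p + 1) N w ν j (cd κ U p y) := by
  refine SC.mk' ?_ ?_ ?_
  · rw [cd_fst]
    exact (hy.t0.dd hκ).add (TT_Ph hU hy.t1 hy.z1)
  · intro k hk
    rw [cd_snd]
    rcases Nat.lt_or_ge (p + 1) (U.dg k) with h | h
    · rw [hy.z1 k h, map_zero]; exact TT.zero
    · have := (hy.t1 k h).dd hκ
      rwa [show p + 1 - U.dg k + 1 = p + 1 + 1 - U.dg k by omega] at this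
  · intro k hk
    rw [cd_snd, hy.z1 k (by omega), map_zero]

theorem cm_SC {N w : ℤ} (hU : U.At0 N) {κ : K → Kd} (hκ : Naf κ) {p : ℕ} {ν : K → ℕ} {j : ℕ}
    {y : CK K U} (hy : SC κ U (p - 1) N w ν j y) : SC κ U p N w ν j (cm' κ U p y) := by
  cases p with
  | zero => exact SW.zero _ _ _ _
  | succ p => exact cd_SC hU hκ hy

theorem cd_cd {N : ℤ} (hU : U.At0 N) (κ : K → Kd) {p : ℕ} {y : CK K U}
    (h0 : cut K p y.1 = y.1) (h1 : ∀ k, U.dg k ≤ p + 1 → cut K (p + 1 - U.dg k) (y.2 k) = y.2 k)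
    (h2 : ∀ k, p + 1 < U.dg k → y.2 k = 0) : cd κ U (p + 1) (cd κ U p y) = 0 := by
  refine Prod.ext ?_ (funext fun k => ?_)
  · rw [cd_fst, cd_fst, map_add, dd_dd κ h0, zero_add, dd_Ph hU κ h1 h2]
    exact p2_add_self _
  · rw [cd_snd, cd_snd]
    rcases Nat.lt_or_ge (p + 1) (U.dg k) with h | h
    · rw [h2 k h, map_zero, map_zero]; rfl
    · rw [show p + 1 + 1 - U.dg k = (p + 1 - U.dg k) + 1 by omega, dd_dd κ (h1 k h)]
      rfl

theorem cd_cm {N : ℤ} (hU : U.At0 N) (κ : K → Kd) {p : ℕ} {w' : Vr K → M} {m0 m1 : M} {y : CK K U}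
    (h : SW w' U (p - 1) m0 m1 y) : cd κ U p (cm' κ U p y) = 0 := by
  cases p with
  | zero => simp only [cm', LinearMap.zero_apply, map_zero]
  | succ p => exact cd_cd hU κ h.c0 h.c1 h.z1

/-- exactness of the mapping cone -/
def ExC (κ : K → Kd) (U : Fam) (p : ℕ) (N w : ℤ) (ν : K → ℕ) (j : ℕ) : Prop :=
  ∀ y, SC κ U p N w ν j y → cd κ U p y = 0 → ∃ h, SC κ U (p - 1) N w ν j h ∧ cm' κ U p h = y

/-! ### The tangent derivation -/

/-- the tangent derivation on the mapping cone -/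
noncomputable def DC (K : Type) (U : Fam) : CK K U →ₗ[ZMod 2] CK K U :=
  LinearMap.prod ((DX K).toLinearMap.comp (LinearMap.fst _ _ _))
    (LinearMap.pi fun k => (DX K).toLinearMap.comp
      ((LinearMap.proj k).comp (LinearMap.snd _ _ _)))

theorem DC_fst (y : CK K U) : (DC K U y).1 = DX K y.1 := rfl
theorem DC_snd (y : CK K U) (k : U.ι) : (DC K U y).2 k = DX K (y.2 k) := rfl

theorem DC_DC (y : CK K U) : DC K U (DC K U y) = 0 :=
  Prod.ext (DX_DX _) (funext fun _ => DX_DX _)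

theorem DX_Ph {N : ℤ} (hU : U.At N) (a : U.ι → RR K) :
    DX K (Ph K U a) = Ph K U (fun k => DX K (a k)) := by
  rw [Ph_apply, Ph_apply, map_sum]
  exact sum_congr rfl fun k _ => DX_pr (hU.dx k) _

theorem DC_cd {N : ℤ} (hU : U.At N) (p : ℕ) (y : CK K U) :
    DC K U (cd ktw U p y) = cd ktw U p (DC K U y) := by
  refine Prod.ext ?_ (funext fun k => ?_)
  · rw [DC_fst, cd_fst, cd_fst, map_add, DX_Ph hU]
    congr 1
    exact DX_dd p _
  · rw [DC_snd, cd_snd, cd_snd]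
    exact DX_dd _ _

theorem SC_DC {N w w2 : ℤ} {κ : K → Kd} {p : ℕ} {ν : K → ℕ} {j : ℕ}
    {y : CK K U} (hy : SC κ U p N w ν j y) (hw : w + 1 = w2) :
    SC κ U p N w2 ν (j + 1) (DC K U y) := by
  subst hw
  refine SC.mk' ?_ ?_ ?_
  · have := hy.t0.DX
    rwa [add_assoc] at this
  · intro k hk
    exact (hy.t1 k hk).DX
  · intro k hk
    rw [DC_snd, hy.z1 k hk, map_zero]

theorem DC_exact {N w w2 : ℤ} {p : ℕ} {ν : K → ℕ} {j : ℕ} {y : CK K U}
    (hy : SC ktw U p N w2 ν (j + 1) y) (hw : w + 1 = w2) (hD : DC K U y = 0) :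
    ∃ h, SC ktw U p N w ν j h ∧ DC K U h = y := by
  subst hw
  have ht := hy.t0
  rw [← add_assoc] at ht
  obtain ⟨h0, hh0, hh0'⟩ := DX_exact ht (congrArg Prod.fst hD)
  have h1 : ∀ k, ∃ h, (U.dg k ≤ p + 1 → TT ktw (p + 1 - U.dg k) w ν j h) ∧
      (p + 1 < U.dg k → h = 0) ∧ DX K h = y.2 k := by
    intro k
    rcases Nat.lt_or_ge (p + 1) (U.dg k) with h | h
    · exact ⟨0, fun h' => absurd h' (by omega), fun _ => rfl, by rw [map_zero, hy.z1 k h]⟩
    · obtain ⟨h2, hh2, hh2'⟩ := DX_exact (hy.t1 k h) (congrFun (congrArg Prod.snd hD) k)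
      exact ⟨h2, fun _ => hh2, fun h' => absurd h' (by omega), hh2'⟩
  choose a ha1 ha2 ha3 using h1
  exact ⟨(h0, a), SC.mk' hh0 ha1 ha2, Prod.ext hh0' (funext ha3)⟩

/-- the lifting lemma for the mapping cone -/
theorem liftC {N : ℤ} (hU : U.At N) {p : ℕ} {w : ℤ} {ν : K → ℕ} {y : CK K U}
    (hy : SC ktw U p N w ν 0 y) (hD : DC K U (cd ktw U p y) = 0)
    (hex : ∀ k : ℕ, k ≤ p → ExC (ktw : K → Kd) U (p - k) N (w + 1 + k) ν (1 + k)) :
    ∃ g h, SC ktw U p N w ν 0 g ∧ DC K U g = 0 ∧ cd ktw U p g = cd ktw U p y ∧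
      SC ktw U (p - 1) N w ν 0 h ∧ y = g + cm' ktw U p h := by
  have := lift_lemma (R := CK K U) (fun q j f => SC ktw U q N (w + j) ν j f)
    (fun q => (cd ktw U q).toAddMonoidHom) (fun q => (cm' ktw U q).toAddMonoidHom)
    (DC K U).toAddMonoidHom rfl (fun q => rfl) (fun q j f g hf hg => hf.sub hg)
    (fun q j f hf => cd_SC hU.toAt0 naf_tw hf)
    (fun q j f hf => SC_DC hf (by push_cast; ring))
    (fun f => DC_DC f) (fun q f => DC_cd hU q f)
    (fun q j f hf => cd_cd hU.toAt0 ktw hf.c0 hf.c1 hf.z1)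
    (fun q j f hf hD => DC_exact hf (by push_cast; ring) hD) p 0 y (by simpa using hy) hD (by
      intro k hk f hf hdf
      have h3 := hex k hk
      have h2 : w + ((0 + 1 + k : ℕ) : ℤ) = w + 1 + k := by push_cast; ring
      rw [h2, zero_add] at hf
      obtain ⟨h, hh1, hh2⟩ := h3 f hf hdf
      refine ⟨h, ?_, hh2⟩
      change SC ktw U (p - k - 1) N (w + ((0 + 1 + k : ℕ) : ℤ)) ν (0 + 1 + k) h
      rw [h2, zero_add]
      exact hh1)
  obtain ⟨g, h, h1, h2, h3, h4, h5⟩ := this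
  refine ⟨g, h, ?_, h2, h3, ?_, h5⟩
  · simpa using h1
  · simpa using h4

end cone

end Pool.Agent.H92ND
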