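import Pool.Agent.H92ND.B
import Pool.Graph.R_pool_sql_team_seeded_3997aac3.Q171.ND3.F

/-!
The Frobenius step and the passage from twisted to untwisted coefficients for the mapping cone.
-/

set_option autoImplicit false
set_option linter.unusedSectionVars false

namespace Pool.Agent.H92ND

open Finset MvPolynomial Pool.Agent.W624.Stz Pool.Agent.Q171.ND3

/-- the squares of the members of a family -/
noncomputable def Fam.sq (U : Fam) : Fam where
  ι := U.ι
  fin := U.fin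
  dg := U.dg
  pos := U.pos
  el k := PHI Empty (U.el k)

theorem Fam.At0.sq {U : Fam} {N : ℤ} (hU : U.At0 N) : U.sq.At (2 * N) where
  tt k := CC_PHI (hU.tt k)
  cy k := by
    change dd kun (U.dg k) (PHI Empty (U.el k)) = 0
    rw [← PHIe_dd]
    change PHI Empty (dd kun (U.dg k) (U.el k)) = 0
    rw [hU.cy, map_zero]
  dx k := DX_PHI _

section frob

variable {K : Type} {U : Fam}

/-- the Frobenius on the mapping cone -/
noncomputable def PC (K : Type) (U : Fam) : CK K U →ₗ[ZMod 2] CK K U.sq :=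
  LinearMap.prod ((PHI K).toLinearMap.comp (LinearMap.fst _ _ _))
    (LinearMap.pi fun k : U.ι => (PHI K).toLinearMap.comp
      ((LinearMap.proj k).comp (LinearMap.snd _ _ _)))

theorem PC_fst (y : CK K U) : (PC K U y).1 = PHI K y.1 := rfl
theorem PC_snd (y : CK K U) (k : U.ι) : (PC K U y).2 k = PHI K (y.2 k) := rfl

theorem PHI_Ph (a : U.ι → RR K) : PHI K (Ph K U a) = Ph K U.sq (fun k => PHI K (a k)) := by
  rw [Ph_apply, Ph_apply, map_sum]
  exact sum_congr rfl fun k _ => PHI_pr _ _ _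

theorem PC_cd (p : ℕ) (y : CK K U) : PC K U (cd kun U p y) = cd ktw U.sq p (PC K U y) := by
  refine Prod.ext ?_ (funext fun k => ?_)
  · rw [PC_fst, cd_fst, cd_fst, map_add, PHI_Ph, PHI_dd]
    rfl
  · exact PHI_dd _ _

theorem PC_cm (p : ℕ) (y : CK K U) : PC K U (cm' kun U p y) = cm' ktw U.sq p (PC K U y) := by
  cases p with
  | zero => simp only [cm', LinearMap.zero_apply, map_zero]
  | succ p => exact PC_cd p y

theorem PC_inj {y : CK K U} (h : PC K U y = 0) : y = 0 :=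
  Prod.ext (PHI_inj (congrArg Prod.fst h)) (funext fun k => PHI_inj (congrFun (congrArg Prod.snd h) k))

theorem TT_PHI' {q : ℕ} {t : ℤ} {ν : K → ℕ} {z : RR K} (hz : TT kun q t ν 0 z) :
    TT ktw q (2 * t) ν 0 (PHI K z) := by
  refine ⟨by rw [← PHI_cut, hz.cu], ?_⟩
  have h5 := IW_PHI hz.iw
  have h6 : dbl (K → ℕ) (t, (ν, 0)) = (2 * t, (ν, 0)) := rfl
  rwa [h6] at h5

theorem SC_PC {p : ℕ} {N w : ℤ} {ν : K → ℕ} {y : CK K U} (hy : SC kun U p N w ν 0 y) :
    SC ktw U.sq p (2 * N) (2 * w) ν 0 (PC K U y) := by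
  refine SC.mk' ?_ ?_ ?_
  · rw [← mul_add]; exact TT_PHI' hy.t0
  · intro k hk
    exact TT_PHI' (hy.t1 k hk)
  · intro k hk
    change PHI K (y.2 k) = 0
    rw [hy.z1 k hk, map_zero]

theorem rootC {p : ℕ} {N w : ℤ} {ν : K → ℕ} {y : CK K U.sq}
    (hy : SC ktw U.sq p (2 * N) w ν 0 y) (hD : DC K U.sq y = 0) :
    y = 0 ∨ ∃ w', w = 2 * w' ∧ ∃ z : CK K U, SC kun U p N w' ν 0 z ∧ PC K U z = y := by
  have hD0 := congrArg Prod.fst hD
  have hD1 : ∀ k : U.ι, DX K (y.2 k) = 0 := fun k => congrFun (congrArg Prod.snd hD) k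
  have hr0 := PHI_root hy.t0 hD0
  have hr1 : ∀ k : U.ι, y.2 k = 0 ∨ (U.dg k ≤ p + 1 ∧ ∃ t', w = 2 * t' ∧
      ∃ z, TT kun (p + 1 - U.dg k) t' ν 0 z ∧ PHI K z = y.2 k) := by
    intro k
    rcases Nat.lt_or_ge (p + 1) (U.dg k) with h | h
    · exact Or.inl (hy.z1 k h)
    · rcases PHI_root (hy.t1 k h) (hD1 k) with h1 | h1
      · exact Or.inl h1
      · exact Or.inr ⟨h, h1⟩
  rcases Int.even_or_odd' w with ⟨w', hw | hw⟩
  · right
    refine ⟨w', hw, ?_⟩
    have h0 : ∃ z0, TT kun p (N + w') ν 0 z0 ∧ PHI K z0 = y.1 := by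
      rcases hr0 with h | ⟨t', ht', z, hz, hzy⟩
      · exact ⟨0, TT.zero, by rw [map_zero, h]⟩
      · have : t' = N + w' := by linarith
        subst this
        exact ⟨z, hz, hzy⟩
    have h1 : ∀ k : U.ι, ∃ z, (U.dg k ≤ p + 1 → TT kun (p + 1 - U.dg k) w' ν 0 z) ∧
        (p + 1 < U.dg k → z = 0) ∧ PHI K z = y.2 k := by
      intro k
      rcases hr1 k with h | ⟨h, t', ht', z, hz, hzy⟩
      · exact ⟨0, fun _ => TT.zero, fun _ => rfl, by rw [map_zero, h]⟩
      · have : t' = w' := by linarith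
        subst this
        exact ⟨z, fun _ => hz, fun h' => absurd h' (by omega), hzy⟩
    obtain ⟨z0, hz0, hz0'⟩ := h0
    choose a ha1 ha2 ha3 using h1
    exact ⟨(z0, a), SC.mk' hz0 ha1 ha2, Prod.ext hz0' (funext ha3)⟩
  · left
    refine Prod.ext ?_ (funext fun k => ?_)
    · rcases hr0 with h | ⟨t', ht', _⟩
      · exact h
      · omega
    · rcases hr1 k with h | ⟨_, t', ht', _⟩
      · exact h
      · omega

/-- the Frobenius step -/
theorem stepBC {p : ℕ} {N w : ℤ} {ν : K → ℕ} (hU : U.At0 N)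
    (hQ : ∀ k : ℕ, k ≤ p → ExC (ktw : K → Kd) U.sq (p - k) (2 * N) (w + 1 + k) ν (1 + k))
    (hA : ∀ w', w = 2 * w' → ExC (kun : K → Kd) U p N w' ν 0) :
    ExC (ktw : K → Kd) U.sq p (2 * N) w ν 0 := by
  intro y hy hdy
  obtain ⟨g, h, hg, hDg, hdg, hh, hfe⟩ := liftC hU.sq hy (by rw [hdy, map_zero]) hQ
  have claim : ∃ h', SC ktw U.sq (p - 1) (2 * N) w ν 0 h' ∧ cm' ktw U.sq p h' = g := by
    rcases rootC hg hDg with h0 | ⟨w', hw', z, hz, hzg⟩
    · exact ⟨0, SW.zero _ _ _ _, by rw [map_zero, h0]⟩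
    · have hdz : cd kun U p z = 0 := by
        apply PC_inj
        rw [PC_cd, hzg, hdg, hdy]
      obtain ⟨z', hz', hdz'⟩ := hA w' hw' z hz hdz
      refine ⟨PC K U z', ?_, by rw [← PC_cm, hdz', hzg]⟩
      rw [hw']
      exact SC_PC hz'
  obtain ⟨h', hh', hdh'⟩ := claim
  exact ⟨h' + h, hh'.add hh, by rw [map_add, hdh', ← hfe]⟩

end frob

section bb

variable {K : Type} {U : Fam}

/-- reduction of coordinates on the mapping cone -/
noncomputable def PIC (S : K → Bool) (U : Fam) : CK K U →ₗ[ZMod 2] CK K U :=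
  LinearMap.prod ((PI S).toLinearMap.comp (LinearMap.fst _ _ _))
    (LinearMap.pi fun k => (PI S).toLinearMap.comp
      ((LinearMap.proj k).comp (LinearMap.snd _ _ _)))

/-- the section of the reduction -/
noncomputable def SIC (S : K → Bool) (U : Fam) : CK K U →ₗ[ZMod 2] CK K U :=
  LinearMap.prod ((SI S).toLinearMap.comp (LinearMap.fst _ _ _))
    (LinearMap.pi fun k => (SI S).toLinearMap.comp
      ((LinearMap.proj k).comp (LinearMap.snd _ _ _)))

theorem PI_Ph (S : K → Bool) (a : U.ι → RR K) :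
    PI S (Ph K U a) = Ph K U (fun k => PI S (a k)) := by
  rw [Ph_apply, Ph_apply, map_sum]
  exact sum_congr rfl fun k _ => PI_pr _ _ _ _

theorem PIC_cd {S : K → Bool} {κ1 κ2 : K → Kd} (h : Rel S κ1 κ2) (p : ℕ) (y : CK K U) :
    PIC S U (cd κ1 U p y) = cd κ2 U p (PIC S U y) := by
  refine Prod.ext ?_ (funext fun k => ?_)
  · change PI S (dd κ1 p y.1 + Ph K U y.2) = dd κ2 p (PI S y.1) + Ph K U (fun k => PI S (y.2 k))
    rw [map_add, PI_Ph, PI_dd h]
  · exact PI_dd h _ _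

theorem PIC_cm {S : K → Bool} {κ1 κ2 : K → Kd} (h : Rel S κ1 κ2) (p : ℕ) (y : CK K U) :
    PIC S U (cm' κ1 U p y) = cm' κ2 U p (PIC S U y) := by
  cases p with
  | zero => simp only [cm', LinearMap.zero_apply, map_zero]
  | succ p => exact PIC_cd h p y

theorem PIC_SIC (S : K → Bool) (y : CK K U) : PIC S U (SIC S U y) = y := by
  refine Prod.ext ?_ (funext fun k => ?_)
  · change PI S (SI S y.1) = y.1
    exact PI_SI S y.1
  · change PI S (SI S (y.2 k)) = y.2 k
    exact PI_SI S (y.2 k)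

theorem SC_PIC {S : K → Bool} {κ1 κ2 : K → Kd} (h : Rel S κ1 κ2) {p : ℕ} {N w : ℤ} {ν : K → ℕ}
    {j : ℕ} {y : CK K U} (hy : SC κ1 U p N w ν j y) : SC κ2 U p N w ν j (PIC S U y) := by
  refine SC.mk' (hy.t0.PI h) (fun k hk => (hy.t1 k hk).PI h) fun k hk => ?_
  change PI S (y.2 k) = 0
  rw [hy.z1 k hk, map_zero]

theorem SC_SIC {S : K → Bool} {κ1 κ2 : K → Kd} (h : Rel S κ1 κ2) {p : ℕ} {N w : ℤ} {ν : K → ℕ}
    {j : ℕ} {y : CK K U} (hy : SC κ2 U p N w ν j y) : SC κ1 U p N w ν j (SIC S U y) := by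
  refine SC.mk' (hy.t0.SI h) (fun k hk => (hy.t1 k hk).SI h) fun k hk => ?_
  change SI S (y.2 k) = 0
  rw [hy.z1 k hk, map_zero]

/-- multiplication by the bottom class of a coordinate -/
noncomputable def YC (c : K) (U : Fam) : CK K U →ₗ[ZMod 2] CK K U :=
  LinearMap.prod ((LinearMap.mulLeft (ZMod 2) (X (.y c 0) : RR K)).comp (LinearMap.fst _ _ _))
    (LinearMap.pi fun k => (LinearMap.mulLeft (ZMod 2) (X (.y c 0) : RR K)).comp
      ((LinearMap.proj k).comp (LinearMap.snd _ _ _)))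

theorem Y_Ph (c : K) (a : U.ι → RR K) :
    Ph K U (fun k => X (.y c 0) * a k) = X (.y c 0) * Ph K U a := by
  rw [Ph_apply, Ph_apply, mul_sum]
  exact sum_congr rfl fun k _ => Y_pr _ _ _ _

theorem YC_cd {κ : K → Kd} {c : K} (hc : κ c = .un) (p : ℕ) (y : CK K U) :
    cd κ U p (YC c U y) = YC c U (cd κ U p y) := by
  refine Prod.ext ?_ (funext fun k => ?_)
  · change dd κ p (X (.y c 0) * y.1) + Ph K U (fun k => X (.y c 0) * y.2 k)
      = X (.y c 0) * (dd κ p y.1 + Ph K U y.2)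
    rw [dd_Y hc, Y_Ph, mul_add]
  · exact dd_Y hc _ _

theorem YC_cm {κ : K → Kd} {c : K} (hc : κ c = .un) (p : ℕ) (y : CK K U) :
    cm' κ U p (YC c U y) = YC c U (cm' κ U p y) := by
  cases p with
  | zero => simp only [cm', LinearMap.zero_apply, map_zero]
  | succ p => exact YC_cd hc p y

theorem YC_inj {c : K} {y : CK K U} (h : YC c U y = 0) : y = 0 := by
  refine Prod.ext ?_ (funext fun k => ?_)
  · have h1 : X (.y c 0) * y.1 = 0 := congrArg Prod.fst h
    exact (mul_eq_zero.mp h1).resolve_left (X_ne_zero _)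
  · have h1 : X (.y c 0) * y.2 k = 0 := congrFun (congrArg Prod.snd h) k
    exact (mul_eq_zero.mp h1).resolve_left (X_ne_zero _)

theorem SC_YC {κ : K → Kd} {c : K} (hc : κ c = .un) {p : ℕ} {N w : ℤ} {ν : K → ℕ} {j : ℕ}
    (hν : 1 ≤ ν c) {y : CK K U} (hy : SC κ U p N (w - 1) (ν - ee c) j y) :
    SC κ U p N w ν j (YC c U y) := by
  refine SC.mk' ?_ ?_ ?_
  · apply TT.mulY hc hν
    have := hy.t0
    rwa [← add_sub_assoc] at this
  · intro k hk
    exact TT.mulY hc hν (hy.t1 k hk)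
  · intro k hk
    change X (.y c 0) * y.2 k = 0
    rw [hy.z1 k hk, mul_zero]

/-- division by the bottom class of a coordinate -/
theorem YC_div {κ : K → Kd} {c : K} (hc : κ c = .un) {p : ℕ} {N w : ℤ} {ν : K → ℕ} {j : ℕ}
    {y : CK K U} (hy : SC κ U p N w ν j y) (h : PIC (sg c) U y = 0) :
    y = 0 ∨ (1 ≤ ν c ∧ ∃ z, SC κ U p N (w - 1) (ν - ee c) j z ∧ y = YC c U z) := by
  have hP0 : PI (sg c) y.1 = 0 := congrArg Prod.fst h
  have hP1 : ∀ k, PI (sg c) (y.2 k) = 0 := fun k => congrFun (congrArg Prod.snd h) k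
  by_cases hν : 1 ≤ ν c
  · right
    refine ⟨hν, ?_⟩
    have h0 : ∃ z, TT κ p (N + (w - 1)) (ν - ee c) j z ∧ y.1 = X (.y c 0) * z := by
      rcases Y_div hc hy.t0 hP0 with h1 | ⟨_, z, hz1, hz2⟩
      · exact ⟨0, TT.zero, by rw [mul_zero, h1]⟩
      · refine ⟨z, ?_, hz1⟩
        rwa [← add_sub_assoc]
    have h1 : ∀ k, ∃ z, (U.dg k ≤ p + 1 → TT κ (p + 1 - U.dg k) (w - 1) (ν - ee c) j z) ∧
        (p + 1 < U.dg k → z = 0) ∧ y.2 k = X (.y c 0) * z := by
      intro k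
      rcases Nat.lt_or_ge (p + 1) (U.dg k) with h | h
      · exact ⟨0, fun _ => TT.zero, fun _ => rfl, by rw [mul_zero, hy.z1 k h]⟩
      · rcases Y_div hc (hy.t1 k h) (hP1 k) with h1 | ⟨_, z, hz1, hz2⟩
        · exact ⟨0, fun _ => TT.zero, fun _ => rfl, by rw [mul_zero, h1]⟩
        · exact ⟨z, fun _ => hz2, fun h' => absurd h' (by omega), hz1⟩
    obtain ⟨z0, hz0, hz0'⟩ := h0
    choose a ha1 ha2 ha3 using h1
    exact ⟨(z0, a), SC.mk' hz0 ha1 ha2, Prod.ext hz0' (funext ha3)⟩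
  · left
    refine Prod.ext ?_ (funext fun k => ?_)
    · rcases Y_div hc hy.t0 hP0 with h1 | ⟨h1, _⟩
      · exact h1
      · exact absurd h1 hν
    · rcases Nat.lt_or_ge (p + 1) (U.dg k) with h | h
      · exact hy.z1 k h
      · rcases Y_div hc (hy.t1 k h) (hP1 k) with h1 | ⟨h1, _⟩
        · exact h1
        · exact absurd h1 hν

variable [Fintype K]

/-- from twisted to untwisted coefficients -/
theorem BBC {N : ℤ} (hU : U.At0 N)
    (p : ℕ) : ∀ (m : ℕ) (κ : K → Kd) (_ : Naf κ) (w : ℤ) (ν : K → ℕ)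
    (_ : UU κ + ∑ c, ν c ≤ m)
    (_ : ∀ d : ℕ, d ≤ ∑ c, ν c → ∀ ν' : K → ℕ, ∑ c, ν' c + d = ∑ c, ν c →
      ExC (ktw : K → Kd) U p N (w - d) ν' 0), ExC κ U p N w ν 0 := by
  intro m
  induction m with
  | zero =>
    intro κ hκ w ν hN hP
    have hk : κ = ktw := by
      funext c
      cases hc : κ c with
      | un =>
        have h1 := UU_upd hc
        omega
      | tw => rfl
      | af => exact absurd hc (hκ c)
    subst hk
    have := hP 0 (Nat.zero_le _) ν (by omega)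
    rwa [Nat.cast_zero, sub_zero] at this
  | succ m ih =>
    intro κ hκ w ν hN hP
    by_cases hun : ∃ c, κ c = .un
    · obtain ⟨c, hc⟩ := hun
      have hrel := Rel_upd hc
      have hUU := UU_upd hc
      intro y hy hdy
      obtain ⟨h, hh1, hh2⟩ := ih (upd κ c) (naf_upd hκ c) w ν (by omega) hP (PIC (sg c) U y)
        (SC_PIC hrel hy) (by rw [← PIC_cd hrel, hdy, map_zero])
      have hSI := SC_SIC (κ1 := κ) hrel hh1
      have hT : SC κ U p N w ν 0 (cm' κ U p (SIC (sg c) U h)) := by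
        exact cm_SC hU hκ hSI
      have hf1 : SC κ U p N w ν 0 (y - cm' κ U p (SIC (sg c) U h)) := hy.sub hT
      have hf2 : PIC (sg c) U (y - cm' κ U p (SIC (sg c) U h)) = 0 := by
        rw [map_sub, PIC_cm hrel, PIC_SIC, hh2, sub_self]
      have hf3 : cd κ U p (y - cm' κ U p (SIC (sg c) U h)) = 0 := by
        rw [map_sub, hdy, cd_cm hU κ hSI, sub_zero]
      rcases YC_div hc hf1 hf2 with h0 | ⟨hν, z, hz, hzy⟩
      · exact ⟨SIC (sg c) U h, hSI, (sub_eq_zero.mp h0).symm⟩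
      · rw [hzy, YC_cd hc] at hf3
        have hdz := YC_inj hf3
        have hsum := sum_sub_ee hν
        obtain ⟨h', hh'1, hh'2⟩ := ih κ hκ (w - 1) (ν - ee c) (by omega) (by
          intro d hd2 ν' hν'
          have := hP (d + 1) (by omega) ν' (by omega)
          have h5 : w - ((d + 1 : ℕ) : ℤ) = w - 1 - d := by push_cast; ring
          rwa [h5] at this) z hz hdz
        refine ⟨SIC (sg c) U h + YC c U h', hSI.add (SC_YC hc hν hh'1), ?_⟩
        rw [map_add, YC_cm hc, hh'2, ← hzy]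
        abel
    · have hk : κ = ktw := by
        funext c
        cases hc : κ c with
        | un => exact absurd ⟨c, hc⟩ hun
        | tw => rfl
        | af => exact absurd hc (hκ c)
      subst hk
      have := hP 0 (Nat.zero_le _) ν (by omega)
      rwa [Nat.cast_zero, sub_zero] at this

end bb

end Pool.Agent.H92ND
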