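import Pool.Agent.H92ND.O

/-!
Counting the degrees with nonzero groups and the exceptional degrees.
-/

set_option autoImplicit false
set_option linter.unusedSectionVars false

namespace Pool.Agent.H92ND

open Finset

/-- the odd numbers below `2 ^ n` with a property -/
noncomputable def OD (p : ℕ → Prop) (n : ℕ) : Finset ℕ :=
  @Finset.filter ℕ (fun t => Odd t ∧ p t) (Classical.decPred _) (range (2 ^ n))

theorem mem_OD {p : ℕ → Prop} {n t : ℕ} : t ∈ OD p n ↔ t < 2 ^ n ∧ Odd t ∧ p t := by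
  refine (@Finset.mem_filter ℕ _ (Classical.decPred _) _ _).trans ?_
  rw [mem_range]

theorem hockey (k M : ℕ) : ∑ m ∈ range (M + 1), m.choose k = (M + 1).choose (k + 1) := by
  induction M with
  | zero =>
    cases k with
    | zero => simp
    | succ k => simp [Nat.choose_eq_zero_of_lt (show 1 < k + 1 + 1 by omega)]
  | succ M ih => rw [sum_range_succ, ih, Nat.choose_succ_succ (M + 1) k, add_comm]

/-- the counting lemma -/
theorem count_le (r B : ℕ) (A : ℕ → ℕ → Finset ℕ)
    (hA : ∀ j, 1 ≤ j → j ≤ r → ∃ C, ∀ n, (A j n).card ≤ C * (n + 1) ^ (j - 1)) :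
    ∃ C, ∀ n, ∀ F : Finset ℕ, (∀ t ∈ F, t < B ∨ ∃ c k t' j, c < B ∧ k ≤ n ∧ 1 ≤ j ∧ j ≤ r ∧
      t' ∈ A j n ∧ t = c + 2 ^ k * t') → F.card ≤ C * (n + 1) ^ r := by
  choose C hC using fun j : ℕ => show ∃ C, 1 ≤ j → j ≤ r → ∀ n, (A j n).card ≤
      C * (n + 1) ^ (j - 1) from by
    by_cases h : 1 ≤ j ∧ j ≤ r
    · obtain ⟨C, hC⟩ := hA j h.1 h.2
      exact ⟨C, fun _ _ => hC⟩
    · exact ⟨0, fun h1 h2 => absurd ⟨h1, h2⟩ h⟩
  refine ⟨B + B * ∑ j ∈ Ico 1 (r + 1), C j, fun n F hF => ?_⟩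
  classical
  have hsub : F ⊆ range B ∪ (range B).biUnion fun c => (range (n + 1)).biUnion fun k =>
      (Ico 1 (r + 1)).biUnion fun j => (A j n).image fun t' => c + 2 ^ k * t' := by
    intro t ht
    rw [mem_union]
    rcases hF t ht with h | ⟨c, k, t', j, hc, hk, hj1, hj2, ht', rfl⟩
    · exact Or.inl (mem_range.mpr h)
    · right
      simp only [mem_biUnion, mem_range, mem_Ico, mem_image]
      exact ⟨c, hc, k, by omega, j, ⟨hj1, by omega⟩, t', ht', rfl⟩
  have h1 : ∀ c k, ((Ico 1 (r + 1)).biUnion fun j => (A j n).image fun t' => c + 2 ^ k * t').card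
      ≤ (∑ j ∈ Ico 1 (r + 1), C j) * (n + 1) ^ (r - 1) := by
    intro c k
    refine card_biUnion_le.trans ?_
    rw [sum_mul]
    refine sum_le_sum fun j hj => ?_
    rw [mem_Ico] at hj
    refine card_image_le.trans ((hC j hj.1 (by omega) n).trans ?_)
    exact Nat.mul_le_mul_left _ (Nat.pow_le_pow_right (by omega) (by omega))
  have h2 : ∀ c, ((range (n + 1)).biUnion fun k => (Ico 1 (r + 1)).biUnion fun j =>
      (A j n).image fun t' => c + 2 ^ k * t').card
      ≤ (n + 1) * ((∑ j ∈ Ico 1 (r + 1), C j) * (n + 1) ^ (r - 1)) := by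
    intro c
    refine card_biUnion_le.trans ((sum_le_sum fun k _ => h1 c k).trans ?_)
    rw [sum_const, card_range, smul_eq_mul]
  have h3 : ((range B).biUnion fun c => (range (n + 1)).biUnion fun k =>
      (Ico 1 (r + 1)).biUnion fun j => (A j n).image fun t' => c + 2 ^ k * t').card
      ≤ B * ((n + 1) * ((∑ j ∈ Ico 1 (r + 1), C j) * (n + 1) ^ (r - 1))) := by
    refine card_biUnion_le.trans ((sum_le_sum fun c _ => h2 c).trans ?_)
    rw [sum_const, card_range, smul_eq_mul]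
  have h4 : (n + 1) * ((∑ j ∈ Ico 1 (r + 1), C j) * (n + 1) ^ (r - 1))
      ≤ (∑ j ∈ Ico 1 (r + 1), C j) * (n + 1) ^ r := by
    cases r with
    | zero => simp
    | succ r =>
      rw [Nat.add_sub_cancel, pow_succ]
      exact le_of_eq (by ring)
  have h5 : B ≤ B * (n + 1) ^ r := Nat.le_mul_of_pos_right _ (by positivity)
  calc F.card ≤ _ := card_le_card hsub
    _ ≤ _ := card_union_le _ _
    _ ≤ B + B * ((∑ j ∈ Ico 1 (r + 1), C j) * (n + 1) ^ r) := by
      rw [card_range]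
      exact Nat.add_le_add_left (h3.trans (Nat.mul_le_mul_left _ h4)) _
    _ ≤ (B + B * ∑ j ∈ Ico 1 (r + 1), C j) * (n + 1) ^ r := by
      rw [add_mul, mul_assoc]
      exact Nat.add_le_add_right h5 _

/-- positive integers are powers of two times odd numbers -/
theorem odd_part {N : ℕ} (hN : 0 < N) : ∃ k t', Odd t' ∧ N = 2 ^ k * t' := by
  obtain ⟨k, t', h1, h2⟩ := Nat.exists_eq_two_pow_mul_odd hN.ne'
  exact ⟨k, t', h1, h2⟩

theorem transfer {q m0 N k t' : ℕ} (hG : Good m0 q) (hN : N = 2 ^ k * t')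
    (h : Nz q (2 ^ m0 * N)) : Nz q (2 ^ m0 * t') := by
  rw [hN, mul_left_comm] at h
  exact Nz.down hG (dvd_mul_right _ _) k h

/-- the upper bound for the number of degrees with nonzero groups -/
theorem upper (s m0 : ℕ) (hG : ∀ q, 1 ≤ q → q ≤ s → Good m0 q) : ∀ q, 1 ≤ q → q ≤ s →
    ∃ C, ∀ n, (OD (fun t => Nz q (2 ^ m0 * t)) n).card ≤ C * (n + 1) ^ (q - 1) := by
  intro q
  induction q using Nat.strong_induction_on with
  | _ q ih =>
    intro hq1 hqs
    obtain ⟨K, hK⟩ := rec_alive q m0 hq1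
    obtain ⟨B, hB⟩ := alive_split q m0 K
    obtain ⟨C, hC⟩ := count_le (q - 1) B (fun j n => OD (fun t => Nz j (2 ^ m0 * t)) n)
      (fun j hj1 hj2 => ih j (by omega) hj1 (by omega))
    refine ⟨C, fun n => hC n _ fun t ht => ?_⟩
    rw [mem_OD] at ht
    obtain ⟨htn, hodd, hz⟩ := ht
    rcases hB t hodd hz with h | ⟨c, N, hc, hcB, hN, hd, rfl⟩
    · exact Or.inl h
    · right
      obtain ⟨i, hi1, hi2, _, hz2⟩ := hK c N hc.pos hN hd hz
      obtain ⟨k, t', ht', hNk⟩ := odd_part hN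
      have hle : 2 ^ k ≤ N := by
        rw [hNk]; exact Nat.le_mul_of_pos_right _ ht'.pos
      have hle' : t' ≤ N := by
        rw [hNk]; exact Nat.le_mul_of_pos_left _ (by positivity)
      have hk : k < n := by
        have : 2 ^ k < 2 ^ n := by omega
        exact (Nat.pow_lt_pow_iff_right (by norm_num)).mp this
      refine ⟨c, k, t', q - i, hcB, hk.le, by omega, by omega, ?_, by rw [hNk]⟩
      rw [mem_OD]
      exact ⟨by omega, ht', transfer (hG _ (by omega) (by omega)) hNk hz2⟩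

/-- the upper bound for the number of exceptional degrees -/
theorem upper_exc (s m0 : ℕ) (hs : 2 ≤ s) (hG : ∀ q, 1 ≤ q → q ≤ s → Good m0 q) :
    ∃ C, ∀ n, (OD (fun t => Exc s (2 ^ m0 * t)) n).card ≤ C * (n + 1) ^ (s - 2) := by
  obtain ⟨K, hK⟩ := rec_exc s m0 hs (hG _ (by omega) (by omega))
  obtain ⟨B, hB⟩ := alive_split s m0 K
  obtain ⟨C, hC⟩ := count_le (s - 2) B (fun j n => OD (fun t => Nz j (2 ^ m0 * t)) n)
    (fun j hj1 hj2 => upper s m0 hG j hj1 (by omega))
  refine ⟨C, fun n => hC n _ fun t ht => ?_⟩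
  rw [mem_OD] at ht
  obtain ⟨htn, hodd, hz⟩ := ht
  have hz' : Nz s (2 ^ m0 * t) := by
    obtain ⟨u, hu, huB, _⟩ := hz
    exact ⟨u, hu, huB⟩
  rcases hB t hodd hz' with h | ⟨c, N, hc, hcB, hN, hd, rfl⟩
  · exact Or.inl h
  · right
    obtain ⟨i, hi1, hi2, _, hz2⟩ := hK c N hc hN hd hz
    obtain ⟨k, t', ht', hNk⟩ := odd_part hN
    have hle : 2 ^ k ≤ N := by
      rw [hNk]; exact Nat.le_mul_of_pos_right _ ht'.pos
    have hle' : t' ≤ N := by
      rw [hNk]; exact Nat.le_mul_of_pos_left _ (by positivity)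
    have hk : k < n := by
      have : 2 ^ k < 2 ^ n := by omega
      exact (Nat.pow_lt_pow_iff_right (by norm_num)).mp this
    refine ⟨c, k, t', s - i, hcB, hk.le, by omega, by omega, ?_, by rw [hNk]⟩
    rw [mem_OD]
    exact ⟨by omega, ht', transfer (hG _ (by omega) (by omega)) hNk hz2⟩

/-- the lower bound for the number of degrees with nonzero groups -/
theorem lower (s m0 : ℕ) (hG : ∀ q, 1 ≤ q → q ≤ s → Good m0 q) : ∀ q, 1 ≤ q → q ≤ s →
    ∃ a, 1 ≤ a ∧ ∀ n, a ≤ n → (n - a).choose (q - 1) ≤ (OD (fun t => Nz q (2 ^ m0 * t)) n).card := by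
  intro q hq
  induction q, hq using Nat.le_induction with
  | base =>
    intro _
    refine ⟨1, le_rfl, fun n hn => ?_⟩
    rw [Nat.sub_self, Nat.choose_zero_right, Nat.one_le_iff_ne_zero, ← Nat.pos_iff_ne_zero,
      card_pos]
    refine ⟨1, mem_OD.mpr ⟨Nat.one_lt_two_pow (by omega), odd_one, hh' m0, ?_, h_notB m0⟩⟩
    rw [mul_one]
    exact Cy_h m0
  | succ q hq ih =>
    intro hqs
    obtain ⟨a, ha, hlow⟩ := ih (by omega)
    obtain ⟨K, hK⟩ := alive_mul_h q m0 hq
    refine ⟨a + K + 1, by omega, fun n hn => ?_⟩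
    have hinj : ((Icc (K + 1) (n - a)).sigma fun k =>
        OD (fun t => Nz q (2 ^ m0 * t)) (n - k)).card ≤
        (OD (fun t => Nz (q + 1) (2 ^ m0 * t)) n).card := by
      refine card_le_card_of_injOn (fun x : (Σ _ : ℕ, ℕ) => 1 + 2 ^ x.1 * x.2) ?_ ?_
      · rintro ⟨k, t'⟩ hx
        rw [mem_coe, mem_sigma, mem_Icc, mem_OD] at hx
        obtain ⟨⟨hk1, hk2⟩, ht', hodd, hz⟩ := hx
        simp only at hk1 hk2 ht' hodd hz
        rw [mem_coe, mem_OD]
        simp only
        refine ⟨?_, ?_, ?_⟩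
        · have h1 : 2 ^ k * (t' + 1) ≤ 2 ^ k * 2 ^ (n - k) := Nat.mul_le_mul_left _ ht'
          rw [← pow_add, show k + (n - k) = n by omega, mul_add, mul_one] at h1
          have h2 : 2 ^ 1 ≤ 2 ^ k := Nat.pow_le_pow_right (by norm_num) (by omega)
          omega
        · obtain ⟨l, rfl⟩ : ∃ l, k = l + 1 := ⟨k - 1, by omega⟩
          rw [add_comm, pow_succ', mul_assoc]
          exact (even_two_mul _).add_one
        · refine hK (2 ^ k * t') (Nat.mul_pos (by positivity) hodd.pos)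
            (Dvd.dvd.mul_right (pow_dvd_pow 2 (by omega)) _) ?_
          rw [mul_left_comm]
          exact Nz.up (hG q hq (by omega)) (dvd_mul_right _ _) k hz
      · rintro ⟨k, t'⟩ hx ⟨k2, t2⟩ hx2 he
        rw [mem_coe, mem_sigma, mem_Icc, mem_OD] at hx hx2
        obtain ⟨⟨hk1, hk2⟩, ht', hodd, hz⟩ := hx
        obtain ⟨_, _, hodd2, _⟩ := hx2
        simp only at hodd hodd2 he
        have he' : 2 ^ k * t' = 2 ^ k2 * t2 := by omega
        have key : ∀ k k2 t' t2 : ℕ, k < k2 → Odd t' → 2 ^ k * t' = 2 ^ k2 * t2 → False := by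
          intro k k2 t' t2 h hodd he
          obtain ⟨l, rfl⟩ := Nat.exists_eq_add_of_lt h
          have h1 : 2 ^ k * t' = 2 ^ k * (2 * (2 ^ l * t2)) := by
            rw [he, pow_add, pow_add]; ring
          have h2 := Nat.eq_of_mul_eq_mul_left (by positivity) h1
          rw [h2] at hodd
          exact (Nat.not_odd_iff_even.mpr (even_two_mul _)) hodd
        rcases lt_trichotomy k k2 with h | h | h
        · exact (key k k2 t' t2 h hodd he').elim
        · subst h
          have := Nat.eq_of_mul_eq_mul_left (by positivity) he'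
          rw [this]
        · exact (key k2 k t2 t' h hodd2 he'.symm).elim
    refine le_trans ?_ hinj
    rw [card_sigma, Nat.add_sub_cancel]
    have h1 : ∑ k ∈ Icc (K + 1) (n - a), (n - k - a).choose (q - 1) ≤
        ∑ k ∈ Icc (K + 1) (n - a), (OD (fun t => Nz q (2 ^ m0 * t)) (n - k)).card := by
      refine sum_le_sum fun k hk => ?_
      rw [mem_Icc] at hk
      exact hlow (n - k) (by omega)
    refine le_trans ?_ h1
    have h2 : ∑ k ∈ Icc (K + 1) (n - a), (n - k - a).choose (q - 1)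
        = ∑ m ∈ range (n - a - K), m.choose (q - 1) := by
      refine sum_bij' (fun k _ => n - k - a) (fun m _ => n - a - m) ?_ ?_ ?_ ?_ ?_
      · intro k hk; rw [mem_Icc] at hk; rw [mem_range]; omega
      · intro m hm; rw [mem_range] at hm; rw [mem_Icc]; omega
      · intro k hk; rw [mem_Icc] at hk; omega
      · intro m hm; rw [mem_range] at hm; omega
      · intro k _; rfl
    rw [h2]
    obtain ⟨M, hM⟩ : ∃ M, n - a - K = M + 1 := ⟨n - a - K - 1, by omega⟩
    rw [hM]
    rw [hockey, show q - 1 + 1 = q by omega]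
    exact Nat.choose_mono q (by omega)

end Pool.Agent.H92ND
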