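import Pool.Agent.H92ND.B

/-!
The reduction of the tangent degree for the mapping cone.
-/

set_option autoImplicit false
set_option linter.unusedSectionVars false

namespace Pool.Agent.H92ND

open Finset MvPolynomial Pool.Agent.W624.Stz Pool.Agent.Q171.ND3

section hh

variable {K : Type}

theorem ev_LL {A : Type*} [CommRing A] [Algebra (ZMod 2) A] (z : Pt (Option K) A)
    (f : RR (Option K)) : ev z (LL K f) = ev (fun a => lin (z.1 a), bs z.2) f := by
  rw [LL, ev_map]
  have h : mP (ev z) (fun a => lin ((uni (Option K)).1 a), bs (uni (Option K)).2)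
      = ((fun a => lin (z.1 a), bs z.2) : Pt (Option K) A) := by
    have h0 := mP_uni z
    refine Prod.ext ?_ ?_
    · funext a
      change mT (ev z) (lin ((uni (Option K)).1 a)) = lin (z.1 a)
      rw [mT_lin]
      congr 1
      exact congrFun (congrArg Prod.fst h0) a
    · change mY (ev z) (bs (uni (Option K)).2) = bs z.2
      rw [mY_bs]
      congr 1
      exact congrArg Prod.snd h0
  rw [h]

/-- the homotopy commutes with the multiplication by a cochain from the left -/
theorem hh_pr {m r : ℕ} {u : RR Empty} {a : RR (Option K)} (hu : cut Empty m u = u)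
    (ha : cut (Option K) (r + 1) a = a) (hL : LL K a = 0) :
    hh K (m + r) (pr (Option K) m u a) = pr (Option K) m u (hh K r a) := by
  have hU := dep_of_cut (A := RR (Option K)) hu
  have hA := dep_of_cut (A := RR (Option K)) ha
  rw [hh_apply, show m + r + 1 = m + (r + 1) by omega, sum_range_add]
  have e1 : ∀ i ∈ range m, ev (prm (act kE) lin bs tr (m + r) i (uni (Option K)))
      (pr (Option K) m u a) = 0 := by
    intro i hi
    rw [mem_range] at hi
    rw [ev_pr]
    have h1 : sz m (prm (act kE) lin bs tr (m + r) i (uni (Option K)))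
        = ((fun b => lin ((fun b => (uni (Option K)).1 (m + b - 1)) b), bs (uni (Option K)).2) :
          Pt (Option K) (RR (Option K))) := by
      refine Prod.ext (funext fun b => ?_) rfl
      exact prm_gt (bs := bs) (by omega) _
    have h2 := ev_LL ((fun b => (uni (Option K)).1 (m + b - 1), (uni (Option K)).2) :
      Pt (Option K) (RR (Option K))) a
    rw [hL, map_zero] at h2
    rw [h1, ← h2, mul_zero]
  have e2 : ∀ l ∈ range (r + 1), ev (prm (act kE) lin bs tr (m + r) (m + l) (uni (Option K)))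
      (pr (Option K) m u a)
      = ev (fz (uni (Option K))) u * ev (prm (act kE) lin bs tr r l (sz m (uni (Option K)))) a := by
    intro l hl
    rw [mem_range] at hl
    rw [ev_pr]
    congr 1
    · apply hU
      refine ⟨fun b hb => ?_, funext fun c => c.elim⟩
      exact prm_lt (bs := bs) (by omega) _
    · apply hA
      refine ⟨fun b _ => ?_, rfl⟩
      change (prm (act kE) lin bs tr (m + r) (m + l) (uni (Option K))).1 (m + b) = _
      rcases lt_trichotomy b l with h | h | h
      · rw [prm_lt (by omega), prm_lt h]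
        rfl
      · subst h
        rw [prm_eq, prm_eq, show m + r - (m + b) = r - b by omega]
        congr 1
        apply run_congr
        intro c _
        change (uni (Option K)).1 (m + b + c) = (uni (Option K)).1 (m + (b + c))
        rw [add_assoc]
      · rw [prm_gt (by omega), prm_gt h]
        change lin ((uni (Option K)).1 (m + b - 1)) = lin ((uni (Option K)).1 (m + (b - 1)))
        rw [show m + b - 1 = m + (b - 1) by omega]
  rw [sum_congr rfl e1, sum_congr rfl e2, sum_const_zero, zero_add, ← mul_sum, pr_apply,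
    JJ_self, SH_self, ev_hh, hF]

theorem LL_zero {t : ℤ} {ν : K → ℕ} {j : ℕ} (hj : 1 ≤ j) {F : RR (Option K)}
    (hFw : IW (wE K) F (t, (ν, j))) : LL K F = 0 := by
  have h3 : IW (fun v => (wE K v).2.2) F j := by
    have := hFw.coarse ((AddMonoidHom.snd (K → ℕ) ℕ).comp (AddMonoidHom.snd ℤ _))
    exact this
  have h4 : IW (fun v => (wE K v).2.2) (LL K F) 0 := by
    refine IW.aeval' (0 : ℕ →+ ℕ) (LL K) (w := fun v => (wE K v).2.2)
      (w' := fun v => (wE K v).2.2) ?_ h3
    intro v
    rw [LL, ev_X, AddMonoidHom.zero_apply]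
    cases v with
    | x a n => exact isWeightedHomogeneous_X _ (fun v => (wE K v).2.2) (Vr.x a n)
    | s a n => exact IW.zero' _ _
    | y o n =>
      cases o with
      | none => exact IW.zero' _ _
      | some c =>
        exact isWeightedHomogeneous_X _ (fun v => (wE K v).2.2) (Vr.y (some c) n)
  have h5 : IW (fun v => (wE K v).2.2) (LL K F) j := by
    refine IW.aeval' (AddMonoidHom.id ℕ) (LL K) (w := fun v => (wE K v).2.2)
      (w' := fun v => (wE K v).2.2) ?_ h3
    intro v
    rw [LL, ev_X, AddMonoidHom.id_apply]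
    cases v with
    | x a n => exact isWeightedHomogeneous_X _ (fun v => (wE K v).2.2) (Vr.x a n)
    | s a n => exact IW.zero' _ _
    | y o n =>
      cases o with
      | none => exact IW.zero' _ _
      | some c =>
        exact isWeightedHomogeneous_X _ (fun v => (wE K v).2.2) (Vr.y (some c) n)
  exact IW.uniq h4 h5 (by omega)

variable {M : Type*} [AddCommMonoid M]

/-- weights of a product -/
theorem IW_pr {L : Type} {w' : Vr L → M} (g : ℤ × ((Empty → ℕ) × ℕ) →+ M)
    (hx : ∀ a n, w' (.x a n) = g (wF kun (.x a n)))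
    (hs : ∀ a n, w' (.s a n) = g (wF kun (.s a n)))
    {m : ℕ} {u : RR Empty} {m0 : ℤ × ((Empty → ℕ) × ℕ)} (hu : IW (wF kun) u m0)
    {a : RR L} {m1 : M} (ha : IW w' a m1) : IW w' (pr L m u a) (g m0 + m1) := by
  have h1 : IW w' (JJ L u) (g m0) := by
    refine IW.aeval' g (JJ L) (w := wF kun) (w' := w') ?_ hu
    intro v
    cases v with
    | x a n => rw [JJ_x, ← hx]; exact isWeightedHomogeneous_X _ _ _
    | s a n => rw [JJ_s, ← hs]; exact isWeightedHomogeneous_X _ _ _
    | y c n => exact c.elim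
  have h2 : IW w' (SH L m a) m1 := by
    refine IW.aeval' (AddMonoidHom.id _) (SH L m) (w := w') (w' := w') ?_ ha
    intro v
    rw [AddMonoidHom.id_apply]
    cases v with
    | x a n =>
      rw [SH_x]
      have := isWeightedHomogeneous_X (ZMod 2) w' (Vr.x (m + a) n)
      have h3 : w' (Vr.x (m + a) n) = w' (Vr.x a n) := by rw [hx, hx]; rfl
      rwa [h3] at this
    | s a n =>
      rw [SH_s]
      have := isWeightedHomogeneous_X (ZMod 2) w' (Vr.s (m + a) n)
      have h3 : w' (Vr.s (m + a) n) = w' (Vr.s a n) := by rw [hs, hs]; rfl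
      rwa [h3] at this
    | y c n => rw [SH_y]; exact isWeightedHomogeneous_X _ _ _
  exact h1.mul h2

theorem IW_Ph {L : Type} {U : Fam} {N : ℤ} (hU : U.At0 N) {w' : Vr L → M}
    (g : ℤ × ((Empty → ℕ) × ℕ) →+ M)
    (hx : ∀ a n, w' (.x a n) = g (wF kun (.x a n)))
    (hs : ∀ a n, w' (.s a n) = g (wF kun (.s a n)))
    {a : U.ι → RR L} {m1 : M} (ha : ∀ k, IW w' (a k) m1) :
    IW w' (Ph L U a) (g (N, (0, 0)) + m1) := by
  rw [Ph_apply]
  exact IsWeightedHomogeneous.sum _ _ _ fun k _ => IW_pr g hx hs (hU.tt k).iw (ha k)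

/-- the weights of the complex with an affine coordinate restricted to the cobar complex -/
def gE (K : Type) : ℤ × ((Empty → ℕ) × ℕ) →+ ℤ × ((K → ℕ) × ℕ) where
  toFun m := (m.1, (0, m.2.2))
  map_zero' := rfl
  map_add' a b := by
    refine Prod.ext rfl (Prod.ext ?_ rfl)
    simp

theorem IW_Ph_E {U : Fam} {N : ℤ} (hU : U.At0 N) {w : ℤ} {ν : K → ℕ} {j : ℕ}
    {a : U.ι → RR (Option K)} (ha : ∀ k, IW (wE K) (a k) (w, (ν, j))) :
    IW (wE K) (Ph (Option K) U a) (N + w, (ν, j)) := by
  have h := IW_Ph hU (gE K) (w' := wE K) (fun _ _ => rfl) (fun _ _ => rfl) ha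
  have h2 : gE K (N, (0, 0)) + (w, (ν, j)) = (N + w, (ν, j)) := by
    refine Prod.ext rfl (Prod.ext ?_ ?_)
    · exact zero_add ν
    · exact zero_add j
  rwa [h2] at h

theorem IW_Ph_n {U : Fam} {N : ℤ} (hU : U.At0 N) {i : ℕ}
    {a : U.ι → RR (Option K)} (ha : ∀ k, IW (wn K) (a k) i) :
    IW (wn K) (Ph (Option K) U a) i := by
  have h := IW_Ph hU (0 : ℤ × ((Empty → ℕ) × ℕ) →+ ℕ) (w' := wn K) (fun _ _ => rfl)
    (fun _ _ => rfl) ha
  have h2 : (0 : ℤ × ((Empty → ℕ) × ℕ) →+ ℕ) (N, (0, 0)) + i = i := by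
    rw [AddMonoidHom.zero_apply, zero_add]
  rwa [h2] at h

theorem hafE : ∀ c : Option K, (kE : Option K → Kd) c = .af → oE K c = (0, 1) := by
  intro c hc
  cases c with
  | none => rfl
  | some c => exact absurd hc (by simp [kE])

/-- closure of the cone with an affine coordinate under the differential -/
theorem cd_SWE {U : Fam} {N : ℤ} (hU : U.At0 N) {p : ℕ} {w : ℤ} {ν : K → ℕ} {j : ℕ}
    {y : CK (Option K) U} (hy : SW (wE K) U p (N + w, (ν, j)) (w, (ν, j)) y) :
    SW (wE K) U (p + 1) (N + w, (ν, j)) (w, (ν, j)) (cd kE U p y) where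
  c0 := by
    rw [cd_fst, map_add, cut_dd _ hy.c0]
    congr 1
    rw [Ph_apply, map_sum]
    refine sum_congr rfl fun k _ => ?_
    rcases Nat.lt_or_ge (p + 1) (U.dg k) with h | h
    · rw [hy.z1 k h, map_zero, map_zero]
    · have h1 := hy.c1 k h
      have h2 : cut (Option K) (p + 1) (JJ (Option K) (U.el k)) = JJ (Option K) (U.el k) := by
        apply cut_le h
        rw [← JJ_cut, (hU.tt k).cu]
      have h3 : cut (Option K) (p + 1) (SH (Option K) (U.dg k) (y.2 k))
          = SH (Option K) (U.dg k) (y.2 k) := by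
        apply cut_of_dep
        intro z z' hz
        simp only [ev_SH]
        apply dep_of_cut h1
        exact ⟨fun b hb => hz.1 _ (by omega), hz.2⟩
      rw [pr_apply, map_mul, h2, h3]
  i0 := by
    rw [cd_fst]
    exact (IW_dd hafE hy.i0).add (IW_Ph_E hU hy.i1)
  c1 k hk := by
    rw [cd_snd]
    rcases Nat.lt_or_ge (p + 1) (U.dg k) with h | h
    · rw [hy.z1 k h, map_zero, map_zero]
    · rw [show p + 1 + 1 - U.dg k = (p + 1 - U.dg k) + 1 by omega]
      exact cut_dd _ (hy.c1 k h)
  i1 k := by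
    rw [cd_snd]
    exact IW_dd hafE (hy.i1 k)
  z1 k hk := by
    rw [cd_snd, hy.z1 k (by omega), map_zero]

theorem cm_SWE {U : Fam} {N : ℤ} (hU : U.At0 N) {p : ℕ} {w : ℤ} {ν : K → ℕ} {j : ℕ}
    {y : CK (Option K) U} (hy : SW (wE K) U (p - 1) (N + w, (ν, j)) (w, (ν, j)) y) :
    SW (wE K) U p (N + w, (ν, j)) (w, (ν, j)) (cm' kE U p y) := by
  cases p with
  | zero => exact SW.zero _ _ _ _
  | succ p => exact cd_SWE hU hy

end hh

end Pool.Agent.H92ND
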