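import Pool.Agent.H92ND.D

/-!
The reduction of the tangent degree for the mapping cone.
-/

set_option autoImplicit false
set_option linter.unusedSectionVars false

namespace Pool.Agent.H92ND

open Finset MvPolynomial Pool.Agent.W624.Stz Pool.Agent.Q171.ND3

section inc

variable {K : Type} {U : Fam}

/-- inclusion on the mapping cone -/
noncomputable def INC (K : Type) (U : Fam) : CK K U →ₗ[ZMod 2] CK (Option K) U :=
  LinearMap.prod ((IN K).toLinearMap.comp (LinearMap.fst _ _ _))
    (LinearMap.pi fun k => (IN K).toLinearMap.comp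
      ((LinearMap.proj k).comp (LinearMap.snd _ _ _)))

/-- restriction on the mapping cone -/
noncomputable def REC (K : Type) (U : Fam) : CK (Option K) U →ₗ[ZMod 2] CK K U :=
  LinearMap.prod ((RE K).toLinearMap.comp (LinearMap.fst _ _ _))
    (LinearMap.pi fun k => (RE K).toLinearMap.comp
      ((LinearMap.proj k).comp (LinearMap.snd _ _ _)))

theorem IN_Ph (a : U.ι → RR K) : IN K (Ph K U a) = Ph (Option K) U (fun k => IN K (a k)) := by
  rw [Ph_apply, Ph_apply, map_sum]
  exact sum_congr rfl fun k _ => IN_pr _ _ _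

theorem INC_cd {κ1 : K → Kd} {κ2 : Option K → Kd} (h : ∀ c, κ2 (some c) = κ1 c) (p : ℕ)
    (y : CK K U) : INC K U (cd κ1 U p y) = cd κ2 U p (INC K U y) := by
  refine Prod.ext ?_ (funext fun k => ?_)
  · change IN K (dd κ1 p y.1 + Ph K U y.2)
      = dd κ2 p (IN K y.1) + Ph (Option K) U (fun k => IN K (y.2 k))
    rw [map_add, IN_Ph, IN_dd h]
  · exact IN_dd h _ _

theorem REC_INC (y : CK K U) : REC K U (INC K U y) = y := by
  refine Prod.ext ?_ (funext fun k => ?_)
  · change RE K (IN K y.1) = y.1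
    exact RE_IN _
  · change RE K (IN K (y.2 k)) = y.2 k
    exact RE_IN _

theorem TT0_zero {κ : K → Kd} {t : ℤ} {ν : K → ℕ} {j : ℕ} (hj : 1 ≤ j) {f : RR K}
    (hf : TT κ 0 t ν j f) : f = 0 := by
  have h1 := hf.jsw
  have h2 : IW (js K) (cut K 0 f) 0 := by
    refine IW.aeval' (0 : ℕ →+ ℕ) (cut K 0) (w := js K) (w' := js K) ?_ h1
    intro v
    have : cut K 0 (X v) = co (cpt 0 (uni K)) v := ev_X _ v
    rw [this, AddMonoidHom.zero_apply]
    cases v with
    | x a n =>
      simp only [co, cpt]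
      rw [if_neg (by omega), one_g, e1, if_neg (by omega)]
      exact IW.zero' _ _
    | s a n =>
      simp only [co, cpt]
      rw [if_neg (by omega), one_s]
      exact IW.zero' _ _
    | y c n => exact isWeightedHomogeneous_X _ (js K) (Vr.y c n)
  rw [hf.cu] at h2
  exact IW.uniq h1 h2 (by omega)

theorem LemTC0 {N w : ℤ} {ν : K → ℕ} {j : ℕ} (hj : 1 ≤ j) :
    ExC (ktw : K → Kd) U 0 N w ν j := by
  intro y hy _
  refine ⟨0, SW.zero _ _ _ _, ?_⟩
  rw [map_zero]
  symm
  refine Prod.ext (TT0_zero hj hy.t0) (funext fun k => ?_)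
  have hpos := U.pos k
  rcases Nat.lt_or_ge 1 (U.dg k) with h | h
  · exact hy.z1 k (by omega)
  · have := hy.t1 k (by omega)
    rw [show 0 + 1 - U.dg k = 0 by omega] at this
    exact TT0_zero hj this

end inc

section lemTC

variable {K : Type} {U : Fam}

/-- the weights of a component of top degree -/
theorem fineW {t : ℤ} {ν : K → ℕ} {i j : ℕ} {f : RR (Option K)} (h2 : IW (wE K) f (t, (ν, j)))
    (hn : IW (wn K) f (i + 1)) :
    f = 0 ∨ (i + 1 ≤ j ∧ IW (wF (ktw : Option K → Kd)) f (t, (nx ν (i + 1), j - (i + 1)))) := by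
  by_cases hz : f = 0
  · exact Or.inl hz
  right
  have hmon : ∀ e, coeff e f ≠ 0 → i + 1 ≤ j ∧
      Finsupp.weight (wF (ktw : Option K → Kd)) e = (t, (nx ν (i + 1), j - (i + 1))) := by
    intro e he
    have a1 := h2 he
    have a2 := hn he
    rw [wE_eq, wmap] at a1
    rw [wn_eq', wmap] at a2
    have b1 := congrArg Prod.fst a1
    have b2 := congrArg (fun m => m.2.1) a1
    have b3 := congrArg (fun m => m.2.2) a1
    simp only [pE, AddMonoidHom.coe_mk, ZeroHom.coe_mk] at b1 b2 b3
    simp only [pn, AddMonoidHom.coe_mk, ZeroHom.coe_mk] at a2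
    refine ⟨by omega, Prod.ext b1 (Prod.ext ?_ ?_)⟩
    · funext o
      cases o with
      | none => exact a2
      | some c => exact congrFun b2 c
    · simp only
      omega
  obtain ⟨e, he⟩ := ne_zero_iff.mp hz
  exact ⟨(hmon e he).1, fun e he => (hmon e he).2⟩

theorem Lt_top {i : ℕ} {r : RR (Option K)} (hr : Lt (wn K) i r) : cm (wn K) i r = 0 := by
  ext e
  rw [coeff_weightedHomogeneousComponent, coeff_zero]
  split_ifs with he
  · by_contra hne
    have := hr e hne
    omega
  · rfl

theorem Lt_rest {i : ℕ} {f : RR (Option K)} (h4 : Lt (wn K) (i + 1) f) :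
    Lt (wn K) i (f + cm (wn K) i f) := by
  intro e he
  rw [coeff_add, coeff_weightedHomogeneousComponent] at he
  by_cases hc : coeff e f = 0
  · rw [hc] at he
    simp at he
  · have h7 := h4 e hc
    by_cases h8 : Finsupp.weight (wn K) e = i
    · rw [if_pos h8] at he
      exfalso
      apply he
      have := p2_add_self f
      have h9 := congrArg (coeff e) this
      rwa [coeff_add, coeff_zero] at h9
    · omega

theorem cm_dd_wn (q i : ℕ) (f : RR (Option K)) :
    cm (wn K) i (dd ktw q f) = dd ktw q (cm (wn K) i f) :=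
  cm_comm (w := wn K) (w' := wn K) (fun m => m) (fun _ _ h => h)
    (dd ktw q) (fun _ _ hf => IW_dd_wn hf) f i

theorem cm_cut_wn (q i : ℕ) (f : RR (Option K)) :
    cm (wn K) i (cut _ q f) = cut _ q (cm (wn K) i f) := by
  have h6 := cm_comm (w := wn K) (w' := wn K) (fun m => m) (fun a b h => h)
    (cut (Option K) q).toLinearMap (fun f m hf => by
      rw [wn_eq] at hf ⊢
      exact IW_cut_c (κ := (ktw : Option K → Kd)) _ hf) f i
  simpa only [AlgHom.toLinearMap_apply] using h6

theorem cm_Ph {N : ℤ} (hU : U.At0 N) (i : ℕ) (a : U.ι → RR (Option K)) :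
    cm (wn K) i (Ph (Option K) U a) = Ph (Option K) U (fun k => cm (wn K) i (a k)) := by
  rw [Ph_apply, Ph_apply, map_sum]
  refine sum_congr rfl fun k _ => ?_
  refine cm_comm (w := wn K) (w' := wn K) (fun m => m) (fun _ _ h => h)
    (pr (Option K) (U.dg k) (U.el k)) (fun f m hf => ?_) (a k) i
  have h := IW_pr (0 : ℤ × ((Empty → ℕ) × ℕ) →+ ℕ) (w' := wn K) (m := U.dg k) (fun _ _ => rfl)
    (fun _ _ => rfl) (hU.tt k).iw hf
  rwa [AddMonoidHom.zero_apply, zero_add] at h

/-- the base of the reduction: the contracting homotopy -/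
theorem baseC {N w : ℤ} (hU : U.At0 N) {p : ℕ} {ν : K → ℕ} {j : ℕ} (hj : 1 ≤ j)
    {Y : CK (Option K) U} (hY : SW (wE K) U (p + 1) (N + w, (ν, j)) (w, (ν, j)) Y)
    (hdY : cd kE U (p + 1) Y = 0) :
    ∃ H, SW (wE K) U p (N + w, (ν, j)) (w, (ν, j)) H ∧ cd kE U p H = Y := by
  have hA0 : ∀ k, p + 1 < U.dg k → Y.2 k = 0 := by
    intro k hk
    rcases Nat.lt_or_ge (p + 2) (U.dg k) with h | h
    · exact hY.z1 k (by omega)
    · have h1 := hY.c1 k (by omega)
      have h2 : dd kE (p + 1 + 1 - U.dg k) (Y.2 k) = 0 := congrFun (congrArg Prod.snd hdY) k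
      rw [show p + 1 + 1 - U.dg k = 0 by omega] at h1 h2
      have h3 := prism_poly 0 (Y.2 k) h1
      rw [h2, map_zero, LL_zero hj (hY.i1 k), zero_add, zero_add] at h3
      rw [← h3]
      rfl
  have hAk : ∀ k, dd kE (p + 1 - U.dg k) (hm K (p + 1 + 1 - U.dg k) (Y.2 k)) = Y.2 k := by
    intro k
    rcases Nat.lt_or_ge (p + 1) (U.dg k) with h | h
    · rw [hA0 k h, map_zero, map_zero]
    · have h1 := hY.c1 k (by omega)
      have h2 : dd kE (p + 1 + 1 - U.dg k) (Y.2 k) = 0 := congrFun (congrArg Prod.snd hdY) k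
      rw [show p + 1 + 1 - U.dg k = (p + 1 - U.dg k) + 1 by omega] at h1 h2 ⊢
      have h3 := prism_poly _ (Y.2 k) h1
      rw [h2, map_zero, LL_zero hj (hY.i1 k), zero_add, zero_add] at h3
      exact h3
  refine ⟨(hh K p Y.1, fun k => hm K (p + 1 + 1 - U.dg k) (Y.2 k)), ⟨?_, ?_, ?_, ?_, ?_⟩, ?_⟩
  · have := cut_hm hY.c0
    exact this
  · exact IW_hh rfl hY.i0
  · intro k hk
    have := cut_hm (hY.c1 k (by omega))
    rwa [show p + 1 + 1 - U.dg k - 1 = p + 1 - U.dg k by omega] at this
  · intro k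
    exact IW_hm rfl (hY.i1 k)
  · intro k hk
    change hm K (p + 1 + 1 - U.dg k) (Y.2 k) = 0
    rw [hA0 k hk, map_zero]
  · refine Prod.ext ?_ (funext fun k => hAk k)
    change dd kE p (hh K p Y.1)
      + Ph (Option K) U (fun k => hm K (p + 1 + 1 - U.dg k) (Y.2 k)) = Y.1
    have h1 := prism_poly (p + 1) Y.1 hY.c0
    have h2 : dd kE (p + 1) Y.1 + Ph (Option K) U Y.2 = 0 := congrArg Prod.fst hdY
    have h3 : dd kE (p + 1) Y.1 = Ph (Option K) U Y.2 := p2_eq_of_add h2
    have h4 : hh K (p + 1) (Ph (Option K) U Y.2)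
        = Ph (Option K) U (fun k => hm K (p + 1 + 1 - U.dg k) (Y.2 k)) := by
      rw [Ph_apply, Ph_apply, map_sum]
      refine sum_congr rfl fun k _ => ?_
      rcases Nat.lt_or_ge (p + 1) (U.dg k) with h | h
      · rw [hA0 k h, map_zero, map_zero, map_zero, map_zero]
      · obtain ⟨r, hr⟩ : ∃ r, p + 1 = U.dg k + r := ⟨p + 1 - U.dg k, by omega⟩
        have h5 := hY.c1 k (by omega)
        rw [show p + 1 + 1 - U.dg k = r + 1 by omega] at h5 ⊢
        rw [hr]
        exact hh_pr (hU.tt k).cu h5 (LL_zero hj (hY.i1 k))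
    rw [h3, h4, LL_zero hj hY.i0, zero_add] at h1
    rw [add_comm]
    exact h1

/-- the reduction of the tangent degree -/
theorem LemTC {N w : ℤ} (hU : U.At0 N) (p : ℕ) (ν : K → ℕ) (j : ℕ) (hj : 1 ≤ j)
    (hex : ∀ i, 1 ≤ i → i ≤ j → ExC (ktw : Option K → Kd) U p N w (nx ν i) (j - i)) :
    ExC (ktw : K → Kd) U (p + 1) N w ν j := by
  intro f hf hdf
  rw [Nat.add_sub_cancel]
  have hkE : ∀ c : K, (kE : Option K → Kd) (some c) = ktw c := fun _ => rfl
  set Y := INC K U f with hY
  have hYw : SW (wE K) U (p + 1) (N + w, (ν, j)) (w, (ν, j)) Y := by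
    refine ⟨?_, IW_IN hf.i0, ?_, fun k => IW_IN (hf.i1 k), ?_⟩
    · change cut _ (p + 1) (IN K f.1) = IN K f.1
      rw [← IN_cut, hf.c0]
    · intro k hk
      change cut _ (p + 1 + 1 - U.dg k) (IN K (f.2 k)) = IN K (f.2 k)
      rw [← IN_cut, hf.c1 k hk]
    · intro k hk
      change IN K (f.2 k) = 0
      rw [hf.z1 k hk, map_zero]
  have hYd : cd kE U (p + 1) Y = 0 := by rw [hY, ← INC_cd hkE, hdf, map_zero]
  have hYn0 : IW (wn K) Y.1 0 := IW_wn_IN f.1
  have hYn1 : ∀ k, IW (wn K) (Y.2 k) 0 := fun k => IW_wn_IN (f.2 k)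
  have hbase := baseC hU hj hYw hYd
  have hmain : ∀ (i : ℕ) (H : CK (Option K) U), SW (wE K) U p (N + w, (ν, j)) (w, (ν, j)) H →
      cd kE U p H = Y → Lt (wn K) (i + 1) H.1 → (∀ k, Lt (wn K) (i + 1) (H.2 k)) →
      ∃ H' : CK (Option K) U, SW (wE K) U p (N + w, (ν, j)) (w, (ν, j)) H' ∧
        cd kE U p H' = Y ∧ Lt (wn K) 1 H'.1 ∧ ∀ k, Lt (wn K) 1 (H'.2 k) := by
    intro i
    induction i with
    | zero => intro H h1 h2 h3 h4; exact ⟨H, h1, h2, h3, h4⟩
    | succ i ih =>
      intro H h1 h3 h4 h4'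
      set Ht : CK (Option K) U := (cm (wn K) (i + 1) H.1, fun k => cm (wn K) (i + 1) (H.2 k))
        with hHt
      have hdt : cd ktw U p Ht = 0 := by
        refine Prod.ext ?_ (funext fun k => ?_)
        · change dd ktw p (cm (wn K) (i + 1) H.1)
            + Ph (Option K) U (fun k => cm (wn K) (i + 1) (H.2 k)) = 0
          have h5 : dd kE p H.1 + Ph (Option K) U H.2 = Y.1 := congrArg Prod.fst h3
          have h6 := congrArg (cm (wn K) (i + 1)) h5
          rw [cm_ne hYn0 (by omega : i + 1 ≠ 0), dd_split, map_add, map_add,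
            Lt_top (lf_lt h4), add_zero, cm_dd_wn, cm_Ph hU] at h6
          exact h6
        · change dd ktw (p + 1 - U.dg k) (cm (wn K) (i + 1) (H.2 k)) = 0
          have h5 : dd kE (p + 1 - U.dg k) (H.2 k) = Y.2 k := congrFun (congrArg Prod.snd h3) k
          have h6 := congrArg (cm (wn K) (i + 1)) h5
          rw [cm_ne (hYn1 k) (by omega : i + 1 ≠ 0), dd_split, map_add,
            Lt_top (lf_lt (h4' k)), add_zero, cm_dd_wn] at h6
          exact h6
      have hTw0 : IW (wE K) Ht.1 (N + w, (ν, j)) := cm_other h1.i0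
      have hTw1 : ∀ k, IW (wE K) (Ht.2 k) (w, (ν, j)) := fun k => cm_other (h1.i1 k)
      have hTn0 : IW (wn K) Ht.1 (i + 1) := cm_IW _ _ _
      have hTn1 : ∀ k, IW (wn K) (Ht.2 k) (i + 1) := fun k => cm_IW _ _ _
      have hR0 : Lt (wn K) (i + 1) (H.1 + Ht.1) := Lt_rest h4
      have hR1 : ∀ k, Lt (wn K) (i + 1) (H.2 k + Ht.2 k) := fun k => Lt_rest (h4' k)
      have hf0 := fineW hTw0 hTn0
      have hf1 := fun k => fineW (hTw1 k) (hTn1 k)
      by_cases hij : i + 1 ≤ j
      · have hSC : SC (ktw : Option K → Kd) U p N w (nx ν (i + 1)) (j - (i + 1)) Ht := by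
          refine ⟨?_, ?_, ?_, ?_, ?_⟩
          · change cut _ p (cm (wn K) (i + 1) H.1) = cm (wn K) (i + 1) H.1
            rw [← cm_cut_wn, h1.c0]
          · rcases hf0 with h | h
            · rw [h]; exact IW.zero' _ _
            · exact h.2
          · intro k hk
            change cut _ (p + 1 - U.dg k) (cm (wn K) (i + 1) (H.2 k)) = cm (wn K) (i + 1) (H.2 k)
            rw [← cm_cut_wn, h1.c1 k hk]
          · intro k
            rcases hf1 k with h | h
            · rw [h]; exact IW.zero' _ _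
            · exact h.2
          · intro k hk
            change cm (wn K) (i + 1) (H.2 k) = 0
            rw [h1.z1 k hk, map_zero]
        obtain ⟨e, he1, he2⟩ := hex (i + 1) (by omega) hij Ht hSC hdt
        have h9 : ∀ t : ℤ, pE K (t, (nx ν (i + 1), j - (i + 1))) = (t, (ν, j)) := by
          intro t
          refine Prod.ext rfl (Prod.ext rfl ?_)
          simp only [pE, AddMonoidHom.coe_mk, ZeroHom.coe_mk, nx]
          omega
        have heE0 : IW (wE K) e.1 (N + w, (ν, j)) := by
          have := he1.i0.coarse (pE K)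
          rwa [← wE_eq, h9] at this
        have heE1 : ∀ k, IW (wE K) (e.2 k) (w, (ν, j)) := by
          intro k
          have := (he1.i1 k).coarse (pE K)
          rwa [← wE_eq, h9] at this
        have hen0 : IW (wn K) e.1 (i + 1) := by
          have := he1.i0.coarse (pn K)
          rw [← wn_eq'] at this
          exact this
        have hen1 : ∀ k, IW (wn K) (e.2 k) (i + 1) := by
          intro k
          have := (he1.i1 k).coarse (pn K)
          rw [← wn_eq'] at this
          exact this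
        have heS : SW (wE K) U (p - 1) (N + w, (ν, j)) (w, (ν, j)) e :=
          ⟨he1.c0, heE0, he1.c1, heE1, he1.z1⟩
        have hcmp : (∃ r, (cm' kE U p e).1 = Ht.1 + r ∧ Lt (wn K) (i + 1) r) ∧
            ∀ k, ∃ r, (cm' kE U p e).2 k = Ht.2 k + r ∧ Lt (wn K) (i + 1) r := by
          cases p with
          | zero =>
            have h0 : Ht = 0 := by rw [← he2]; rfl
            refine ⟨⟨0, ?_, Lt.zero _⟩, fun k => ⟨0, ?_, Lt.zero _⟩⟩
            · rw [h0]; exact (add_zero _).symm
            · rw [h0]; exact (add_zero _).symm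
          | succ p =>
            have e1 : dd ktw p e.1 + Ph (Option K) U e.2 = Ht.1 := congrArg Prod.fst he2
            have e2 : ∀ k, dd ktw (p + 1 - U.dg k) (e.2 k) = Ht.2 k :=
              fun k => congrFun (congrArg Prod.snd he2) k
            refine ⟨⟨_, ?_, lf_lt (q := p) (Lt.of_IW hen0)⟩,
              fun k => ⟨_, ?_, lf_lt (q := p + 1 - U.dg k) (Lt.of_IW (hen1 k))⟩⟩
            · change dd kE p e.1 + Ph (Option K) U e.2 = _
              rw [dd_split, ← e1]
              ring
            · change dd kE (p + 1 - U.dg k) (e.2 k) = _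
              rw [dd_split, e2 k]
        obtain ⟨⟨r0, hr0, hr0'⟩, hr1⟩ := hcmp
        apply ih (H + cm' kE U p e)
        · exact h1.add (cm_SWE hU heS)
        · rw [map_add, h3, cd_cm hU kE heS, add_zero]
        · change Lt (wn K) (i + 1) (H.1 + (cm' kE U p e).1)
          rw [hr0, ← add_assoc]
          exact hR0.add hr0'
        · intro k
          obtain ⟨r, hr, hr'⟩ := hr1 k
          change Lt (wn K) (i + 1) (H.2 k + (cm' kE U p e).2 k)
          rw [hr, ← add_assoc]
          exact (hR1 k).add hr'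
      · have hz0 : Ht.1 = 0 := by
          rcases hf0 with h | h
          · exact h
          · exact absurd h.1 hij
        have hz1 : ∀ k, Ht.2 k = 0 := by
          intro k
          rcases hf1 k with h | h
          · exact h
          · exact absurd h.1 hij
        rw [hz0, add_zero] at hR0
        refine ih H h1 h3 hR0 fun k => ?_
        have := hR1 k
        rwa [hz1 k, add_zero] at this
  obtain ⟨H0, hw0, hd0⟩ := hbase
  obtain ⟨i, hi, hi'⟩ : ∃ i, Lt (wn K) (i + 1) H0.1 ∧ ∀ k, Lt (wn K) (i + 1) (H0.2 k) := by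
    classical
    have h1 : ∀ g : RR (Option K), ∃ i, Lt (wn K) (i + 1) g := by
      intro g
      refine ⟨g.support.sup (Finsupp.weight (wn K)), fun e he => ?_⟩
      exact Nat.lt_succ_of_le (Finset.le_sup (f := fun e => Finsupp.weight (wn K) e)
        (mem_support_iff.mpr he))
    obtain ⟨i0, hi0⟩ := h1 H0.1
    choose b hb using fun k => h1 (H0.2 k)
    refine ⟨max i0 (univ.sup b), hi0.mono (by have := le_max_left i0 (univ.sup b); omega),
      fun k => (hb k).mono ?_⟩
    have h2 : b k ≤ univ.sup b := Finset.le_sup (mem_univ k)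
    have h3 := le_max_right i0 (univ.sup b)
    omega
  obtain ⟨H, hw, hd, hl, hl'⟩ := hmain i H0 hw0 hd0 hi hi'
  have hn : ∀ g : RR (Option K), Lt (wn K) 1 g → IW (wn K) g 0 := by
    intro g hg e he
    have := hg e he
    omega
  have hIR : INC K U (REC K U H) = H := by
    refine Prod.ext ?_ (funext fun k => ?_)
    · change IN K (RE K H.1) = H.1
      exact IN_RE (hn _ hl)
    · change IN K (RE K (H.2 k)) = H.2 k
      exact IN_RE (hn _ (hl' k))
  refine ⟨REC K U H, ⟨?_, IW_RE hw.i0, ?_, fun k => IW_RE (hw.i1 k), ?_⟩, ?_⟩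
  · change cut K p (RE K H.1) = RE K H.1
    rw [← RE_cut, hw.c0]
  · intro k hk
    change cut K (p + 1 - U.dg k) (RE K (H.2 k)) = RE K (H.2 k)
    rw [← RE_cut, hw.c1 k hk]
  · intro k hk
    change RE K (H.2 k) = 0
    rw [hw.z1 k hk, map_zero]
  · change cd ktw U p (REC K U H) = f
    have h1 : INC K U (cd ktw U p (REC K U H)) = INC K U f := by
      rw [INC_cd hkE, hIR, hd]
    have h2 := congrArg (REC K U) h1
    rwa [REC_INC, REC_INC] at h2

end lemTC

end Pool.Agent.H92ND
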