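import Pool.Agent.H92ND.C
import Pool.Agent.H92ND.E

/-!
Towers of families of cocycles, and the base of the induction.
-/

set_option autoImplicit false
set_option linter.unusedSectionVars false

namespace Pool.Agent.H92ND

open Finset MvPolynomial Pool.Agent.W624.Stz Pool.Agent.Q171.ND3

/-! ### Positivity of the weights -/

section pos

variable {K : Type} [Fintype K]

theorem wt_nonneg {σ : Type*} {w : σ → ℤ} (hw : ∀ v, 0 ≤ w v) (e : σ →₀ ℕ) :
    0 ≤ Finsupp.weight w e := by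
  rw [Finsupp.weight_apply, Finsupp.sum]
  exact Finset.sum_nonneg fun v _ => nsmul_nonneg (hw v) _

theorem wt_pos {σ : Type*} {w : σ → ℤ} (hw : ∀ v, 0 < w v) {e : σ →₀ ℕ} (he : e ≠ 0) :
    0 < Finsupp.weight w e := by
  rw [Finsupp.weight_apply, Finsupp.sum]
  obtain ⟨v, hv⟩ := Finsupp.support_nonempty_iff.mpr he
  refine Finset.sum_pos' (fun v _ => nsmul_nonneg (hw v).le _) ⟨v, hv, ?_⟩
  exact nsmul_pos (hw v) (Finsupp.mem_support_iff.mp hv)

theorem tk_pos (k : Kd) (n : ℕ) : 1 ≤ tk k n := by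
  cases k
  · exact one_le_pow₀ (by norm_num)
  · exact one_le_pow₀ (by norm_num)
  · exact one_le_pow₀ (by norm_num)

theorem x_pos (n : ℕ) : (0 : ℤ) < 2 ^ (n + 1) - 1 := by
  have : (2 : ℤ) ≤ 2 ^ (n + 1) := by
    rw [pow_succ]
    have := one_le_pow₀ (show (1 : ℤ) ≤ 2 by norm_num) (n := n)
    linarith
  linarith

/-- elements of small internal degree vanish -/
theorem TT_small {κ : K → Kd} {q : ℕ} {t : ℤ} {ν : K → ℕ} {j : ℕ} {f : RR K}
    (hf : TT κ q t ν j f) (ht : t < ((∑ c, ν c : ℕ) : ℤ)) : f = 0 := by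
  by_contra hne
  obtain ⟨e, he⟩ := ne_zero_iff.mp hne
  let g : ℤ × ((K → ℕ) × ℕ) →+ ℤ := {
    toFun := fun m => m.1 - ((∑ c, m.2.1 c : ℕ) : ℤ)
    map_zero' := by simp
    map_add' := fun a b => by
      simp only [Prod.fst_add, Prod.snd_add, Pi.add_apply, sum_add_distrib]
      push_cast
      ring }
  have h1 := wmap g (wF κ) e
  rw [hf.iw he] at h1
  have h2 : 0 ≤ Finsupp.weight (fun v => g (wF κ v)) e := by
    apply wt_nonneg
    intro v
    cases v with
    | x a n =>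
      change 0 ≤ (2 ^ (n + 1) - 1 : ℤ) - ((∑ c : K, (0 : ℕ) : ℕ) : ℤ)
      have := x_pos n
      simp only [sum_const_zero]
      push_cast
      linarith
    | s a n =>
      change 0 ≤ (2 ^ (n + 1) : ℤ) - ((∑ c : K, (0 : ℕ) : ℕ) : ℤ)
      have := x_pos n
      simp only [sum_const_zero]
      push_cast
      linarith
    | y c n =>
      change 0 ≤ tk (κ c) n - ((∑ c', ee c c' : ℕ) : ℤ)
      rw [sum_ee]
      have := tk_pos (κ c) n
      push_cast
      linarith
  rw [h1] at h2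
  change 0 ≤ t - ((∑ c, ν c : ℕ) : ℤ) at h2
  linarith

/-- elements of internal degree zero are constants -/
theorem TT_zero_C {κ : K → Kd} {q : ℕ} {ν : K → ℕ} {j : ℕ} {f : RR K}
    (hf : TT κ q 0 ν j f) : f = C (coeff 0 f) := by
  classical
  ext e
  rw [coeff_C]
  by_cases he : 0 = e
  · rw [if_pos he, he]
  · rw [if_neg he]
    by_contra hne
    have h1 := wmap (AddMonoidHom.fst ℤ ((K → ℕ) × ℕ)) (wF κ) e
    rw [hf.iw hne] at h1
    have h2 : 0 < Finsupp.weight (fun v => AddMonoidHom.fst ℤ ((K → ℕ) × ℕ) (wF κ v)) e := by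
      apply wt_pos _ (Ne.symm he)
      intro v
      cases v with
      | x a n => exact x_pos n
      | s a n => exact lt_of_lt_of_le (by norm_num) (one_le_pow₀ (show (1 : ℤ) ≤ 2 by norm_num))
      | y c n => exact lt_of_lt_of_le (by norm_num) (tk_pos (κ c) n)
    rw [h1] at h2
    exact absurd h2 (lt_irrefl _)

theorem TT_C {κ : K → Kd} (q : ℕ) {ν : K → ℕ} (hν : ∑ c, ν c = 0) (ε : ZMod 2) :
    TT κ q 0 ν 0 (C ε : RR K) := by
  refine ⟨algHom_C _ _, ?_⟩
  have h0 : ν = 0 := by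
    funext c
    have := Finset.sum_eq_zero_iff.mp hν c (mem_univ c)
    exact this
  subst h0
  exact isWeightedHomogeneous_C (wF κ) ε

theorem dd_C {κ : K → Kd} (q : ℕ) (ε : ZMod 2) :
    dd κ q (C ε : RR K) = if Even q then 0 else C ε := by
  rw [dd_apply]
  have h1 : ∀ j ∈ range (q + 2), ev (fc (act κ) q j (uni K)) (C ε : RR K) = C ε := by
    intro j _
    exact algHom_C _ _
  rw [sum_congr rfl h1, sum_const, card_range]
  have h2 : (C ε : RR K) + C ε = 0 := p2_add_self _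
  split_ifs with h
  · obtain ⟨r, hr⟩ := h
    rw [show q + 2 = (r + 1) * 2 by omega, mul_smul, two_nsmul, h2, smul_zero]
  · rw [Nat.not_even_iff_odd] at h
    obtain ⟨r, hr⟩ := h
    rw [show q + 2 = (r + 1) * 2 + 1 by omega, add_smul, mul_smul, two_nsmul, h2, smul_zero,
      one_smul, zero_add]

theorem TT0_ne {κ : Empty → Kd} {t : ℤ} {ν : Empty → ℕ} {f : RR Empty} (ht : t ≠ 0)
    (hf : TT κ 0 t ν 0 f) : f = 0 := by
  have h2 : IW (wF κ) (cut Empty 0 f) 0 := by
    refine IW.aeval' (0 : _ →+ _) (cut Empty 0) (w := wF κ) (w' := wF κ) ?_ hf.iw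
    intro v
    have : cut Empty 0 (X v) = co (cpt 0 (uni Empty)) v := ev_X _ v
    rw [this, AddMonoidHom.zero_apply]
    cases v with
    | x a n =>
      simp only [co, cpt]
      rw [if_neg (by omega), one_g, e1, if_neg (by omega)]
      exact IW.zero' _ _
    | s a n =>
      simp only [co, cpt]
      rw [if_neg (by omega), one_s]
      exact IW.zero' _ _
    | y c n => exact c.elim
  rw [hf.cu] at h2
  exact IW.uniq hf.iw h2 (fun h => ht (congrArg Prod.fst h))

end pos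

/-! ### Towers -/

/-- the `2 ^ m`-th powers of the members of a family -/
noncomputable def Fam.pw (U : Fam) (m : ℕ) : Fam where
  ι := U.ι
  fin := U.fin
  dg := U.dg
  pos := U.pos
  el k := (PHI Empty)^[m] (U.el k)

theorem Fam.pw_succ (U : Fam) (m : ℕ) : U.pw (m + 1) = (U.pw m).sq := by
  unfold Fam.pw Fam.sq
  simp only [Function.iterate_succ_apply']

theorem Fam.pw_zero (U : Fam) : U.pw 0 = U := rfl

theorem Fam.At0.pw {U : Fam} {N : ℤ} (hU : U.At0 N) (m : ℕ) : (U.pw m).At0 (2 ^ m * N) := by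
  induction m with
  | zero => rw [Fam.pw_zero, pow_zero, one_mul]; exact hU
  | succ m ih =>
    rw [Fam.pw_succ, pow_succ', mul_assoc]
    exact ih.sq.toAt0

/-- a family of cocycles of internal degree `N` whose powers represent bases of the cohomology of
the cobar complex in the internal degrees `2 ^ m * N` -/
structure Tower (p : ℕ) (N : ℤ) (V : Fam) : Prop where
  ne : N ≠ 0
  at0 : V.At0 N
  span : ∀ m q, 1 ≤ q → q ≤ p → ∀ f, TT (kun : Empty → Kd) q (2 ^ m * N) 0 0 f →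
    dd (kun : Empty → Kd) q f = 0 → ∃ ε : V.ι → ZMod 2, (∀ k, V.dg k ≠ q → ε k = 0) ∧
      ∃ h, TT (kun : Empty → Kd) (q - 1) (2 ^ m * N) 0 0 h ∧
        f = ∑ k, ε k • (V.pw m).el k + dm kun q h
  ind : ∀ m q, 1 ≤ q → q ≤ p + 1 → ∀ ε : V.ι → ZMod 2, (∀ k, V.dg k ≠ q → ε k = 0) →
    ∀ h, TT (kun : Empty → Kd) (q - 1) (2 ^ m * N) 0 0 h →
      dm kun q h = ∑ k, ε k • (V.pw m).el k → ε = 0

theorem Tower.mono {p p' : ℕ} {N : ℤ} {V : Fam} (h : Tower p N V) (hp : p' ≤ p) :
    Tower p' N V where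
  ne := h.ne
  at0 := h.at0
  span m q h1 h2 := h.span m q h1 (by omega)
  ind m q h1 h2 := h.ind m q h1 (by omega)

theorem pr_C {K : Type} (m : ℕ) (u : RR Empty) (ε : ZMod 2) :
    pr K m u (C ε) = ε • JJ K u := by
  have h : SH K m (C ε) = C ε := algHom_C _ _
  rw [pr_apply, h, mul_comm, smul_eq_C_mul]

/-- the base of the induction -/
theorem baseQU {p : ℕ} {N : ℤ} {V : Fam} (hV : Tower p N V) (m : ℕ) {K : Type} [Fintype K]
    {κ : K → Kd} (hκ : Naf κ)
    {ν : K → ℕ} (hν : ∑ c, ν c = 0) : ExC κ (V.pw m) p (2 ^ m * N) 0 ν 0 := by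
  have hU := hV.at0.pw m
  intro y hy hdy
  have hc : ∀ k, V.dg k ≤ p + 1 → y.2 k = C (coeff 0 (y.2 k)) := fun k hk => TT_zero_C (hy.t1 k hk)
  set h1 : CK K (V.pw m) := (0, fun k => if V.dg k ≤ p then y.2 k else 0) with hh1
  have hS1 : SC κ (V.pw m) (p - 1) (2 ^ m * N) 0 ν 0 h1 := by
    refine SC.mk' TT.zero ?_ ?_
    · intro k _
      change TT κ _ 0 ν 0 (if V.dg k ≤ p then y.2 k else 0)
      split_ifs with h
      · rw [hc k (by omega)]; exact TT_C _ hν _
      · exact TT.zero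
    · intro k hk
      change p - 1 + 1 < V.dg k at hk
      change (if V.dg k ≤ p then y.2 k else 0) = 0
      rw [if_neg (by omega)]
  set y' := y - cm' κ (V.pw m) p h1 with hy'
  have hyS : SC κ (V.pw m) p (2 ^ m * N) 0 ν 0 y' := hy.sub (cm_SC hU hκ hS1)
  have hyd : cd κ (V.pw m) p y' = 0 := by rw [hy', map_sub, hdy, cd_cm hU κ hS1, sub_zero]
  have hlow : ∀ k, V.dg k ≤ p → y'.2 k = 0 := by
    intro k hk
    obtain ⟨p, rfl⟩ : ∃ p', p = p' + 1 := ⟨p - 1, by have := V.pos k; omega⟩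
    have e1 : y'.2 k = y.2 k - dd κ (p + 1 - V.dg k) (if V.dg k ≤ p + 1 then y.2 k else 0) := rfl
    rw [e1, if_pos hk]
    have e2 : dd κ (p + 1 + 1 - V.dg k) (y.2 k) = 0 := congrFun (congrArg Prod.snd hdy) k
    rw [hc k (by omega), dd_C] at e2 ⊢
    split_ifs at e2 with h
    · rw [if_neg (by rw [Nat.even_iff] at h ⊢; omega), sub_self]
    · rw [e2]; simp
  have hhigh : ∀ k, p + 1 < V.dg k → y'.2 k = 0 := hyS.z1
  set ε : V.ι → ZMod 2 := fun k => coeff 0 (y'.2 k) with hε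
  have hC' : ∀ k, y'.2 k = C (ε k) := by
    intro k
    rcases Nat.lt_or_ge (p + 1) (V.dg k) with h | h
    · simp only [hε]; rw [hhigh k h]; simp
    · exact TT_zero_C (hyS.t1 k h)
  have hPh : Ph K (V.pw m) y'.2 = JJ K (∑ k, ε k • (V.pw m).el k) := by
    rw [Ph_apply, map_sum]
    refine sum_congr rfl fun k _ => ?_
    rw [hC' k, pr_C, map_smul]
  have hd0 : dd κ p y'.1 + Ph K (V.pw m) y'.2 = 0 := congrArg Prod.fst hyd
  have hd1 : dd kun p (RJ K y'.1) = ∑ k, ε k • (V.pw m).el k := by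
    have h := congrArg (RJ K) (p2_eq_of_add hd0)
    rw [hPh, RJ_JJ, RJ_dd hκ kun] at h
    exact h
  have hTR : TT (kun : Empty → Kd) p (2 ^ m * N) 0 0 (RJ K y'.1) := by
    have := hyS.t0
    rw [add_zero] at this
    exact TT_RJ this
  have hε0 : ε = 0 := by
    refine hV.ind m (p + 1) (by omega) le_rfl ε ?_ (RJ K y'.1) hTR hd1
    intro k hk
    simp only [hε]
    rcases Nat.lt_or_ge (V.dg k) (p + 1) with h | h
    · rw [hlow k (by omega)]; simp
    · rw [hhigh k (by omega)]; simp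
  have hz : ∀ k, y'.2 k = 0 := by
    intro k
    rw [hC' k, hε0]
    exact map_zero C
  have hd2 : dd kun p (RJ K y'.1) = 0 := by
    rw [hd1, hε0]; simp
  have hJ : JJ K (RJ K y'.1) = y'.1 := JJ_RJ hyS.t0 hν
  have hex : ∃ h2, SC κ (V.pw m) (p - 1) (2 ^ m * N) 0 ν 0 h2 ∧ cm' κ (V.pw m) p h2 = y' := by
    rcases Nat.eq_zero_or_pos p with hp | hp
    · subst hp
      refine ⟨0, SW.zero _ _ _ _, ?_⟩
      rw [map_zero]
      symm
      refine Prod.ext ?_ (funext hz)
      have h3 : (2 : ℤ) ^ m * N ≠ 0 := mul_ne_zero (pow_ne_zero _ (by norm_num)) hV.ne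
      rw [← hJ, TT0_ne h3 hTR, map_zero]
      rfl
    · obtain ⟨δ, hδ, h, hh, he⟩ := hV.span m p hp le_rfl (RJ K y'.1) hTR hd2
      obtain ⟨p, rfl⟩ : ∃ p', p = p' + 1 := ⟨p - 1, by omega⟩
      have h0 : ν = 0 := by
        funext c
        exact Finset.sum_eq_zero_iff.mp hν c (mem_univ c)
      refine ⟨(JJ K h, fun k => C (δ k)), SC.mk' ?_ ?_ ?_, ?_⟩
      · change TT κ (p + 1 - 1) (2 ^ m * N + 0) ν 0 (JJ K h)
        rw [add_zero, h0]
        exact TT_JJ hh
      · intro k _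
        exact TT_C _ hν _
      · intro k hk
        change p + 1 < V.dg k at hk
        change C (δ k) = 0
        rw [hδ k (by omega)]; simp
      · refine Prod.ext ?_ (funext fun k => ?_)
        · change dd κ p (JJ K h) + Ph K (V.pw m) (fun k => C (δ k)) = y'.1
          have e3 : Ph K (V.pw m) (fun k => C (δ k)) = JJ K (∑ k, δ k • (V.pw m).el k) := by
            rw [Ph_apply, map_sum]
            refine sum_congr rfl fun k _ => ?_
            rw [pr_C, map_smul]
          rw [e3, ← JJ_dd kun κ, ← hJ, he, map_add, add_comm]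
          rfl
        · change dd κ (p + 1 - V.dg k) (C (δ k)) = y'.2 k
          rw [hz k]
          by_cases h5 : V.dg k = p + 1
          · rw [h5, Nat.sub_self, dd_C, if_pos (by simp)]
          · rw [hδ k h5]; simp
  obtain ⟨h2, hh2, he2⟩ := hex
  refine ⟨h1 + h2, hS1.add hh2, ?_⟩
  rw [map_add, he2, hy']
  abel

end Pool.Agent.H92ND
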