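import Pool.Agent.H92ND.F

/-!
The mapping cones are exact in highly divisible degrees.
-/

set_option autoImplicit false
set_option linter.unusedSectionVars false

namespace Pool.Agent.H92ND

open Finset MvPolynomial Pool.Agent.W624.Stz Pool.Agent.Q171.ND3

/-- exactness of the cones with twisted coefficients -/
def QC (p n j : ℕ) (w : ℤ) (r : ℕ) : Prop :=
  ∀ (N : ℤ) (V : Fam), Tower p N V → ∀ m, r ≤ m → ∀ (K : Type) [Fintype K] (ν : K → ℕ),
    ∑ c, ν c = n → ExC (ktw : K → Kd) (V.pw m) p (2 ^ m * N) w ν j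

/-- exactness of the cones with untwisted coefficients -/
def QN (p n : ℕ) (w : ℤ) (r : ℕ) : Prop :=
  ∀ (N : ℤ) (V : Fam), Tower p N V → ∀ m, r ≤ m → ∀ (K : Type) [Fintype K] (ν : K → ℕ),
    ∑ c, ν c = n → ExC (kun : K → Kd) (V.pw m) p (2 ^ m * N) w ν 0

theorem QC.mono {p n j : ℕ} {w : ℤ} {r r' : ℕ} (h : r ≤ r') (hq : QC p n j w r) :
    QC p n j w r' := fun N V hV m hm => hq N V hV m (by omega)

theorem QN.mono {p n : ℕ} {w : ℤ} {r r' : ℕ} (h : r ≤ r') (hq : QN p n w r) :
    QN p n w r' := fun N V hV m hm => hq N V hV m (by omega)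

theorem stepQC : ∀ p, (∀ p' < p, ∀ (n : ℕ) (w : ℤ), ∃ r, QC p' n 0 w r) →
    ∀ j : ℕ, 1 ≤ j → ∀ (n : ℕ) (w : ℤ), ∃ r, QC p n j w r := by
  intro p
  induction p with
  | zero =>
    intro _ j hj n w
    exact ⟨0, fun N V _ m _ K _ ν _ => LemTC0 hj⟩
  | succ p ih =>
    intro H j hj n w
    have hp := H p (Nat.lt_succ_self p)
    have ihp := ih fun p' hp' => H p' (by omega)
    obtain ⟨r, hr⟩ := fin_max (fun i r => 1 ≤ i → QC p (n + i) (j - i) w r)
      (fun i r r' h hq hi => (hq hi).mono h) j (by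
        intro i hi
        rcases Nat.eq_zero_or_pos i with h0 | h0
        · exact ⟨0, fun h => absurd h (by omega)⟩
        rcases Nat.lt_or_ge i j with hlt | hge
        · obtain ⟨r, hr⟩ := ihp (j - i) (by omega) (n + i) w
          exact ⟨r, fun _ => hr⟩
        · have : i = j := by omega
          subst this
          obtain ⟨r, hr⟩ := hp (n + i) w
          refine ⟨r, fun _ => ?_⟩
          rw [Nat.sub_self]
          exact hr)
    refine ⟨r, fun N V hV m hm K _ ν hν => LemTC (hV.at0.pw m) p ν j hj fun i hi1 hi2 => ?_⟩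
    exact hr i hi2 hi1 N V (hV.mono (by omega)) m hm (Option K) (nx ν i) (by rw [sum_nx, hν])

theorem stepBQ {p n : ℕ} {w : ℤ} {r : ℕ}
    (hQ : ∀ k : ℕ, k ≤ p → QC (p - k) n (1 + k) (w + 1 + k) r)
    (hA : ∀ w', w = 2 * w' → QN p n w' r) : QC p n 0 w (r + 1) := by
  intro N V hV m hm K _ ν hν
  obtain ⟨m, rfl⟩ : ∃ m', m = m' + 1 := ⟨m - 1, by omega⟩
  have hQ' : ∀ k : ℕ, k ≤ p → ExC (ktw : K → Kd) (V.pw (m + 1)) (p - k) (2 ^ (m + 1) * N)
      (w + 1 + k) ν (1 + k) := fun k hk =>
    hQ k hk N V (hV.mono (by omega)) (m + 1) (by omega) K ν hν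
  have hA' : ∀ w', w = 2 * w' → ExC (kun : K → Kd) (V.pw m) p (2 ^ m * N) w' ν 0 :=
    fun w' hw' => hA w' hw' N V hV m (by omega) K ν hν
  rw [Fam.pw_succ, pow_succ', mul_assoc] at hQ' ⊢
  exact stepBC (hV.at0.pw m) hQ' hA'

theorem stepAQ {p n : ℕ} {w : ℤ} {r : ℕ} (h : ∀ d : ℕ, d ≤ n → QC p (n - d) 0 (w - d) r) :
    QN p n w r := by
  intro N V hV m hm K _ ν hν
  refine BBC (hV.at0.pw m) p _ kun naf_un w ν le_rfl ?_
  intro d hd ν' hν'
  exact h d (by omega) N V hV m hm K ν' (by omega)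

theorem vanQ {p n : ℕ} (hn : 1 ≤ n) : ∃ r, QN p n 0 r := by
  obtain ⟨r, hr⟩ := (main_ind p).1 n 0 (by exact_mod_cast hn)
  refine ⟨r, fun N V hV m hm K _ ν hν y hy hdy => ?_⟩
  have hz : ∀ k, y.2 k = 0 := by
    intro k
    rcases Nat.lt_or_ge (p + 1) (V.dg k) with h | h
    · exact hy.z1 k h
    · exact TT_small (hy.t1 k h) (by rw [hν]; exact_mod_cast hn)
  have h2 : y.2 = 0 := funext hz
  have hd : dd kun p y.1 = 0 := by
    have h0 : dd kun p y.1 + Ph K (V.pw m) y.2 = 0 := congrArg Prod.fst hdy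
    rwa [h2, map_zero, add_zero] at h0
  have hT := hy.t0
  rw [add_zero] at hT
  obtain ⟨h, hh, hh'⟩ := hr K ν hν (2 ^ m * N) (by
    rw [sub_zero]
    exact Dvd.dvd.mul_right (pow_dvd_pow 2 hm) N) y.1 hT hd
  refine ⟨(h, 0), SC.mk' ?_ (fun _ _ => TT.zero) (fun _ _ => rfl), ?_⟩
  · change TT kun (p - 1) (2 ^ m * N + 0) ν 0 h
    rw [add_zero]
    exact hh
  · cases p with
    | zero =>
      refine Prod.ext ?_ h2.symm
      change (0 : RR K) = y.1
      rw [← hh']
      rfl
    | succ p =>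
      refine Prod.ext ?_ (funext fun k => ?_)
      · change dd kun p h + Ph K (V.pw m) 0 = y.1
        rw [map_zero, add_zero]
        exact hh'
      · change dd kun (p + 1 - V.dg k) (0 : RR K) = y.2 k
        rw [map_zero, hz k]

/-- the main induction -/
theorem mainQ (p : ℕ) : ∀ (n : ℕ) (w : ℤ), ∃ r, QC p n 0 w r := by
  induction p using Nat.strong_induction_on with
  | _ p ih =>
    have hQ : ∀ j : ℕ, 1 ≤ j → ∀ q, q ≤ p → ∀ (n : ℕ) (w : ℤ), ∃ r, QC q n j w r :=
      fun j hj q hq n w => stepQC q (fun p' hp' => ih p' (by omega)) j hj n w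
    have hB : ∀ (n : ℕ) (w : ℤ), (∀ w', w = 2 * w' → ∃ r, QN p n w' r) →
        ∃ r, QC p n 0 w r := by
      intro n w hA
      obtain ⟨r1, h1⟩ := fin_max (fun k r => QC (p - k) n (1 + k) (w + 1 + k) r)
        (fun i r r' h hq => hq.mono h) p (by
          intro k hk
          exact hQ (1 + k) (by omega) (p - k) (by omega) n (w + 1 + k))
      by_cases hw2 : ∃ w', w = 2 * w'
      · obtain ⟨w', hw'⟩ := hw2
        obtain ⟨r2, h2⟩ := hA w' hw'
        refine ⟨max r1 r2 + 1, stepBQ (fun k hk => (h1 k hk).mono (le_max_left _ _))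
          (fun w'' hw'' => ?_)⟩
        have : w'' = w' := by omega
        subst this
        exact h2.mono (le_max_right _ _)
      · exact ⟨r1 + 1, stepBQ h1 (fun w' hw' => absurd ⟨w', hw'⟩ hw2)⟩
    have hA : ∀ (n : ℕ) (w : ℤ), (∀ d : ℕ, d ≤ n → ∃ r, QC p (n - d) 0 (w - d) r) →
        ∃ r, QN p n w r := by
      intro n w h
      obtain ⟨r, hr⟩ := fin_max (fun d r => QC p (n - d) 0 (w - d) r)
        (fun i r r' h hq => hq.mono h) n h
      exact ⟨r, stepAQ hr⟩
    intro n
    induction n using Nat.strong_induction_on with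
    | _ n ihn =>
      have key : ∀ (μ : ℕ) (w : ℤ), w.natAbs ≤ μ → ∃ r, QC p n 0 w r := by
        intro μ
        induction μ with
        | zero =>
          intro w hm
          have hw0 : w = 0 := by omega
          subst hw0
          refine hB n 0 fun w' hw' => ?_
          have : w' = 0 := by omega
          subst this
          rcases Nat.eq_zero_or_pos n with h0 | h0
          · subst h0
            exact ⟨0, fun N V hV m _ K _ ν hν => baseQU hV m naf_un hν⟩
          · exact vanQ h0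
        | succ μ ihm =>
          intro w hm
          rcases Nat.lt_or_ge μ w.natAbs with hlt | hge
          · refine hB n w fun w' hw' => hA n w' fun d hd => ?_
            rcases Nat.eq_zero_or_pos d with h0 | h0
            · subst h0
              rw [Nat.sub_zero, Nat.cast_zero, sub_zero]
              exact ihm w' (by omega)
            · exact ihn (n - d) (by omega) (w' - d)
          · exact ihm w hge
      intro w
      exact key w.natAbs w le_rfl

/-- exactness of the cones with untwisted coefficients in highly divisible degrees -/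
theorem mainN (p n : ℕ) (w : ℤ) : ∃ r, QN p n w r := by
  obtain ⟨r, hr⟩ := fin_max (fun d r => QC p (n - d) 0 (w - d) r)
    (fun i r r' h hq => hq.mono h) n (fun d _ => mainQ p (n - d) (w - d))
  exact ⟨r, stepAQ hr⟩

end Pool.Agent.H92ND
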