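import Pool.Agent.H92ND.G

/-!
The internal degrees in which the cohomology does not vanish.
-/

set_option autoImplicit false
set_option linter.unusedSectionVars false

namespace Pool.Agent.H92ND

open Finset MvPolynomial Pool.Agent.W624.Stz Pool.Agent.Q171.ND3

/-- a power of two or zero -/
def pw : Option ℕ → ℤ
  | none => 0
  | some m => 2 ^ m

/-- `t` is a sum of at most `a` powers of two minus a sum of at most `b` powers of two -/
def Wd (a b : ℕ) (t : ℤ) : Prop :=
  ∃ (f : Fin a → Option ℕ) (g : Fin b → Option ℕ), t = ∑ i, pw (f i) - ∑ i, pw (g i)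

theorem sum_cons' {a : ℕ} (o : Option ℕ) (f : Fin a → Option ℕ) :
    ∑ i, pw ((Fin.cons o f : Fin (a + 1) → Option ℕ) i) = pw o + ∑ i, pw (f i) := by
  rw [Fin.sum_univ_succ]
  simp only [Fin.cons_zero, Fin.cons_succ]

theorem Wd.posO {a b : ℕ} {t : ℤ} (h : Wd a b t) (o : Option ℕ) : Wd (a + 1) b (t + pw o) := by
  obtain ⟨f, g, rfl⟩ := h
  refine ⟨Fin.cons o f, g, ?_⟩
  rw [sum_cons']
  ring

theorem Wd.negO {a b : ℕ} {t : ℤ} (h : Wd a b t) (o : Option ℕ) : Wd a (b + 1) (t - pw o) := by
  obtain ⟨f, g, rfl⟩ := h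
  refine ⟨f, Fin.cons o g, ?_⟩
  rw [sum_cons']
  ring

theorem Wd.mono {a b a' b' : ℕ} {t : ℤ} (h : Wd a b t) (ha : a ≤ a') (hb : b ≤ b') :
    Wd a' b' t := by
  induction a', ha using Nat.le_induction with
  | base =>
    induction b', hb using Nat.le_induction with
    | base => exact h
    | succ b' _ ih =>
      have := ih.negO none
      rwa [show t - pw none = t by simp [pw]] at this
  | succ a' _ ih =>
    have := ih.posO none
    rwa [show t + pw none = t by simp [pw]] at this

theorem Wd.addn {a b : ℕ} {t : ℤ} (h : Wd a b t) (d : ℕ) : Wd (a + d) b (t + d) := by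
  induction d with
  | zero => simpa using h
  | succ d ih =>
    have := ih.posO (some 0)
    rwa [show t + (d : ℤ) + pw (some 0) = t + ((d + 1 : ℕ) : ℤ) by
      simp only [pw]; push_cast; ring] at this

theorem Wd.subn {a b : ℕ} {t : ℤ} (h : Wd a b t) (d : ℕ) : Wd a (b + d) (t - d) := by
  induction d with
  | zero => simpa using h
  | succ d ih =>
    have := ih.negO (some 0)
    rwa [show t - (d : ℤ) - pw (some 0) = t - ((d + 1 : ℕ) : ℤ) by
      simp only [pw]; push_cast; ring] at this

theorem Wd.two {a b : ℕ} {t : ℤ} (h : Wd a b t) : Wd a b (2 * t) := by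
  obtain ⟨f, g, rfl⟩ := h
  have hp : ∀ o : Option ℕ, pw (o.map (· + 1)) = 2 * pw o := by
    intro o
    cases o with
    | none => simp [pw]
    | some m => simp only [pw, Option.map_some, pow_succ]; ring
  refine ⟨fun i => (f i).map (· + 1), fun i => (g i).map (· + 1), ?_⟩
  rw [mul_sub, mul_sum, mul_sum]
  congr 1
  · exact sum_congr rfl fun i _ => (hp _).symm
  · exact sum_congr rfl fun i _ => (hp _).symm

theorem Wd.zero (a b : ℕ) : Wd a b 0 :=
  ⟨fun _ => none, fun _ => none, by simp [pw]⟩

/-- exactness outside of the degrees `Wd`: statement for positive tangent degree -/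
def WT (p : ℕ) : Prop := ∀ (n j : ℕ), 1 ≤ j → ∀ (t : ℤ),
  (∀ p', p = p' + 1 → ¬ Wd (n + j + p') p' t) → ∀ (K : Type) [Fintype K] (ν : K → ℕ),
    ∑ c, ν c = n → Ex (ktw : K → Kd) p t ν j

/-- exactness outside of the degrees `Wd`: statement for tangent degree zero -/
def W0 (p n : ℕ) (t : ℤ) : Prop := ¬ Wd (n + p) p t → ∀ (K : Type) [Fintype K] (ν : K → ℕ),
  ∑ c, ν c = n → Ex (ktw : K → Kd) p t ν 0

/-- exactness outside of the degrees `Wd`: statement for untwisted coefficients -/
def WU (p n : ℕ) (t : ℤ) : Prop := ¬ Wd (n + p) p t → ∀ (K : Type) [Fintype K] (ν : K → ℕ),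
  ∑ c, ν c = n → Ex (kun : K → Kd) p t ν 0

theorem stepWT (p : ℕ) (H : ∀ p' < p, ∀ n t, W0 p' n t) : WT p := by
  induction p with
  | zero => exact fun n j hj t _ K _ ν _ => LemT0 t ν j hj
  | succ p ih =>
    intro n j hj t ht K _ ν hν
    have ih' := ih fun p' hp' => H p' (by omega)
    refine LemT p t ν j hj fun i hi1 hi2 => ?_
    have hs : ∑ o, nx ν i o = n + i := by rw [sum_nx, hν]
    have h0 := ht p rfl
    rcases Nat.lt_or_ge i j with hlt | hge
    · refine ih' (n + i) (j - i) (by omega) t ?_ (Option K) (nx ν i) hs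
      rintro p' rfl hW
      exact h0 (hW.mono (by omega) (by omega))
    · have : i = j := by omega
      subst this
      rw [Nat.sub_self]
      refine H p (by omega) (n + i) t ?_ (Option K) (nx ν i) hs
      exact fun hW => h0 (hW.mono le_rfl le_rfl)

theorem stepW0 {p n : ℕ} {t : ℤ} (hQ : ∀ k, k ≤ p → WT (p - k))
    (hA : ∀ t', t = 2 * t' → WU p n t') : W0 p n t := by
  intro hW K _ ν hν f hf hdf
  obtain ⟨g, h, hg, hDg, hdg, hh, hfe⟩ := liftT hf (by rw [hdf, map_zero]) (by
    intro k hk
    refine hQ k hk n (1 + k) (by omega) _ ?_ K ν hν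
    intro p' hp' hW'
    apply hW
    have h1 := hW'.subn (1 + k)
    have h2 : t + 1 + (k : ℤ) - ((1 + k : ℕ) : ℤ) = t := by push_cast; ring
    rw [h2] at h1
    exact h1.mono (by omega) (by omega))
  have claim : ∃ h', TT ktw (p - 1) t ν 0 h' ∧ dm ktw p h' = g := by
    rcases PHI_root hg hDg with h0 | ⟨t', ht', z, hz, hzg⟩
    · exact ⟨0, TT.zero, by rw [map_zero, h0]⟩
    · have hdz : dd kun p z = 0 := by
        apply PHI_inj
        rw [PHI_dd, hzg, hdg, hdf]
      obtain ⟨z', hz', hdz'⟩ := hA t' ht' (fun hW' => hW (by rw [ht']; exact hW'.two)) K ν hν z hz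
        hdz
      refine ⟨PHI K z', ?_, by rw [← PHI_dm, hdz', hzg]⟩
      rw [ht']
      exact TT_PHI' hz'
  obtain ⟨h', hh', hdh'⟩ := claim
  exact ⟨h' + h, hh'.add hh, by rw [map_add, hdh', ← hfe]⟩

theorem stepWU {p n : ℕ} {t : ℤ} (h : ∀ d : ℕ, d ≤ n → W0 p (n - d) (t - d)) : WU p n t := by
  intro hW K _ ν hν f hf hdf
  have hex : ∀ d : ℕ, d ≤ n → ∀ ν' : K → ℕ, ∑ c, ν' c + d = n →
      Ex (ktw : K → Kd) p (t - d) ν' 0 := by
    intro d hd ν' hν'
    refine h d hd (fun hW' => hW ?_) K ν' (by omega)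
    have h1 := hW'.addn d
    rw [sub_add_cancel] at h1
    exact h1.mono (by omega) le_rfl
  have hR := Rel_SU (naf_un (K := K))
  refine BB p _ kun naf_un t ν le_rfl ?_ f hf hdf ?_
  · intro d hd1 hd2 ν' hν'
    exact hex d (by omega) ν' (by omega)
  · have h0 := hex 0 (Nat.zero_le _) ν (by omega)
    rw [Nat.cast_zero, sub_zero] at h0
    exact h0 (PI (SU kun) f) (hf.PI hR) (by rw [← PI_dd hR, hdf, map_zero])

theorem mainW (p : ℕ) : ∀ (n : ℕ) (t : ℤ), W0 p n t := by
  induction p using Nat.strong_induction_on with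
  | _ p ih =>
    have hQ : ∀ k, k ≤ p → WT (p - k) := fun k _ =>
      stepWT (p - k) fun p' hp' => ih p' (by omega)
    intro n
    induction n using Nat.strong_induction_on with
    | _ n ihn =>
      have key : ∀ (μ : ℕ) (t : ℤ), t.natAbs ≤ μ → W0 p n t := by
        intro μ
        induction μ with
        | zero =>
          intro t hm
          have ht0 : t = 0 := by omega
          subst ht0
          exact fun hW => absurd (Wd.zero _ _) hW
        | succ μ ihm =>
          intro t hm
          rcases Nat.lt_or_ge μ t.natAbs with hlt | hge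
          · refine stepW0 hQ fun t' ht' => stepWU fun d hd => ?_
            rcases Nat.eq_zero_or_pos d with h0 | h0
            · subst h0
              rw [Nat.sub_zero, Nat.cast_zero, sub_zero]
              exact ihm t' (by omega)
            · exact ihn (n - d) (by omega) (t' - d)
          · exact ihm t hge
      intro t
      exact key t.natAbs t le_rfl

/-- the cohomology of the cobar complex in the internal degree `t` is zero in the cohomological
degree `p` unless `t` is a sum of at most `p` powers of two minus a sum of at most `p` powers of two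
-/
theorem mainWE (p : ℕ) (t : ℤ) (hW : ¬ Wd p p t) : Ex (kun : Empty → Kd) p t 0 0 := by
  have h := stepWU (p := p) (n := 0) (t := t) (fun d _ => mainW p (0 - d) (t - d))
    (by rwa [zero_add]) Empty 0 (by simp)
  exact h

end Pool.Agent.H92ND
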