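import Pool.Agent.H92ND.H
import Pool.Graph.R_pool_sql_team_seeded_3997aac3.Q171.ND3.Pe

/-!
The one-line: cochains of cohomological degree one whose differential is a square.
-/

set_option autoImplicit false
set_option linter.unusedSectionVars false

namespace Pool.Agent.H92ND

open Finset MvPolynomial Pool.Agent.Q171.ND3 Pool.Agent.Q171.ND3.St

theorem P2 (a : P) : a + a = 0 := CharTwo.add_self_eq_zero a

theorem P_sq_inj {a b : P} (h : a ^ 2 = b ^ 2) : a = b := by
  have h1 : (a + b) ^ 2 = 0 := by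
    rw [add_pow_char, h]
    exact P2 _
  have h2 : a + b = 0 := by
    rcases pow_eq_zero_iff (two_ne_zero) |>.mp h1 with h3
    exact h3
  have h3 := P2 b
  linear_combination h2 - h3

theorem C1_ind {p : P → Prop} (hX : ∀ m, p (X (0, m))) (hC : ∀ r : ZMod 2, p (MvPolynomial.C r))
    (ha : ∀ x y, p x → p y → p (x + y)) (hm : ∀ x y, x ∈ St.C 1 → y ∈ St.C 1 → p x → p y → p (x * y))
    {f : P} (hf : f ∈ St.C 1) : p f := by
  have hf' : f ∈ Algebra.adjoin (ZMod 2) (X '' {p : ℕ × ℕ | p.1 < 1} : Set P) := hf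
  clear hf
  induction hf' using Algebra.adjoin_induction with
  | mem x hx =>
    obtain ⟨⟨a, m⟩, ha', rfl⟩ := hx
    have h0 : a = 0 := Nat.lt_one_iff.mp ha'
    subst h0
    exact hX m
  | algebraMap r => exact hC r
  | add x y _ _ h1 h2 => exact ha x y h1 h2
  | mul x y hx hy h1 h2 => exact hm x y hx hy h1 h2

theorem pd_pow2 (v : ℕ × ℕ) (f : P) (i : ℕ) : pderiv v (f ^ 2 ^ (i + 1)) = 0 := by
  rw [Derivation.leibniz_pow, pow_succ, mul_comm, mul_smul, two_smul]
  exact P2 _

theorem pd_sq (v : ℕ × ℕ) (f : P) : pderiv v (f ^ 2) = 0 := pd_pow2 v f 0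

theorem face1_X (m : ℕ) : face 1 (X (0, m) : P)
    = ∑ i ∈ range (m + 2), ξ 0 (m + 1 - i) ^ (2 ^ i) * ξ 1 i := by
  rw [face, aeval_X]
  simp only
  rw [if_neg (by omega), if_neg (by omega)]

theorem pd_face1 (n : ℕ) {f : P} (hf : f ∈ St.C 1) :
    pderiv (0, n) (face 1 f) = face 1 (pderiv (0, n) f) := by
  refine C1_ind (p := fun f => pderiv (0, n) (face 1 f) = face 1 (pderiv (0, n) f)) ?_ ?_ ?_ ?_ hf
  · intro m
    rw [face1_X, map_sum, sum_range_succ', sum_eq_zero, zero_add]
    · change pderiv (0, n) (X (0, m) ^ (2 ^ 0) * (1 : P)) = _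
      rw [pow_zero, pow_one, mul_one, pderiv_X]
      by_cases h : m = n
      · subst h; simp
      · have : ((0, m) : ℕ × ℕ) ≠ (0, n) := fun e => h (congrArg Prod.snd e)
        simp [Pi.single_eq_of_ne this]
    · intro i _
      rw [Derivation.leibniz, pd_pow2, smul_zero, add_zero]
      change _ • pderiv (0, n) (X (1, i) : P) = 0
      rw [pderiv_X_of_ne (by simp), smul_zero]
  · intro r
    simp [face]
  · intro x y hx hy
    simp only [map_add, hx, hy]
  · intro x y _ _ hx hy
    simp only [map_mul, Derivation.leibniz, hx, hy, map_add, smul_eq_mul]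

theorem pd_face0 (n : ℕ) {f : P} (hf : f ∈ St.C 1) : pderiv (0, n) (face 0 f) = 0 := by
  refine C1_ind (p := fun f => pderiv (0, n) (face 0 f) = 0) ?_ ?_ ?_ ?_ hf
  · intro m
    rw [face, aeval_X]
    simp only
    rw [if_neg (by omega), if_pos (by omega)]
    exact pderiv_X_of_ne (by simp)
  · intro r
    simp [face]
  · intro x y hx hy
    simp only [map_add, hx, hy, add_zero]
  · intro x y _ _ hx hy
    simp only [map_mul, Derivation.leibniz, hx, hy, smul_zero, add_zero]

theorem pd_C1 (n : ℕ) {f : P} (hf : f ∈ St.C 1) : pderiv (0, n) f ∈ St.C 1 := by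
  refine C1_ind (p := fun f => pderiv (0, n) f ∈ St.C 1) ?_ ?_ ?_ ?_ hf
  · intro m
    rw [pderiv_X]
    by_cases h : m = n
    · subst h
      rw [Pi.single_eq_same]
      exact Subalgebra.one_mem _
    · have : ((0, m) : ℕ × ℕ) ≠ (0, n) := fun e => h (congrArg Prod.snd e)
      rw [Pi.single_eq_of_ne this]
      exact Submodule.zero_mem _
  · intro r
    rw [pderiv_C]
    exact Submodule.zero_mem _
  · intro x y hx hy
    rw [map_add]
    exact Submodule.add_mem _ hx hy
  · intro x y hx' hy' hx hy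
    rw [Derivation.leibniz]
    exact Submodule.add_mem _ (C_mul hx' hy) (C_mul hy' hx)

/-- the first slot is set to the unit -/
noncomputable def eps : P →ₐ[ZMod 2] P :=
  aeval fun p : ℕ × ℕ => if p.1 = 0 then (0 : P) else X (0, p.2)

theorem eps_face1 {f : P} (hf : f ∈ St.C 1) : eps (face 1 f) = f := by
  refine C1_ind (p := fun f => eps (face 1 f) = f) ?_ ?_ ?_ ?_ hf
  · intro m
    rw [face1_X, map_sum, sum_range_succ, sum_eq_zero, zero_add]
    · rw [show m + 1 - (m + 1) = 0 by omega]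
      change eps (1 ^ 2 ^ (m + 1) * X (1, m)) = _
      rw [one_pow, one_mul, eps, aeval_X]
      simp
    · intro i hi
      rw [mem_range] at hi
      obtain ⟨k, hk⟩ : ∃ k, m + 1 - i = k + 1 := ⟨m - i, by omega⟩
      rw [hk, map_mul, map_pow]
      change eps (X (0, k)) ^ 2 ^ i * _ = 0
      have : eps (X (0, k)) = 0 := by rw [eps, aeval_X]; simp
      rw [this, zero_pow (by positivity), zero_mul]
  · intro r
    simp [face, eps]
  · intro x y hx hy
    simp only [map_add, hx, hy]
  · intro x y _ _ hx hy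
    simp only [map_mul, hx, hy]

theorem eps_C1 {f : P} (hf : f ∈ St.C 1) : ∃ r : ZMod 2, eps f = MvPolynomial.C r := by
  refine C1_ind (p := fun f => ∃ r : ZMod 2, eps f = MvPolynomial.C r) ?_ ?_ ?_ ?_ hf
  · intro m
    refine ⟨0, ?_⟩
    rw [eps, aeval_X]; simp
  · intro r
    exact ⟨r, by simp [eps]⟩
  · rintro x y ⟨a, hx⟩ ⟨b, hy⟩
    exact ⟨a + b, by rw [map_add, hx, hy, map_add]⟩
  · rintro x y _ _ ⟨a, hx⟩ ⟨b, hy⟩
    exact ⟨a * b, by rw [map_mul, hx, hy, map_mul]⟩

/-- the partial derivatives of a cochain whose differential is a square are constant -/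
theorem pd_const {x w : P} (hx : x ∈ St.C 1) (hd : d 1 x = w ^ 2) (n : ℕ) :
    ∃ r : ZMod 2, pderiv (0, n) x = MvPolynomial.C r := by
  have h1 : d 1 x = face 0 x + face 1 x + face 2 x := by
    rw [d, LinearMap.sum_apply, sum_range_succ, sum_range_succ, sum_range_one]
    rfl
  have h2 := congrArg (pderiv (0, n)) hd
  rw [h1, map_add, map_add, pd_sq, pd_face0 n hx, face_of_C (j := 2) hx (by norm_num), pd_face1 n hx,
    zero_add] at h2
  have h3 : face 1 (pderiv (0, n) x) = pderiv (0, n) x := by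
    have := P2 (pderiv (0, n) x)
    linear_combination h2 - this
  obtain ⟨r, hr⟩ := eps_C1 (pd_C1 n hx)
  exact ⟨r, by rw [← hr, ← h3, eps_face1 (pd_C1 n hx), h3]⟩


/-- restriction to the variables of the first slots -/
noncomputable def rho (s : ℕ) : P →ₐ[ZMod 2] P :=
  aeval fun p : ℕ × ℕ => if p.1 < s then (X p : P) else 0

theorem rho_C {s : ℕ} {x : P} (hx : x ∈ St.C s) : rho s x = x := by
  have h1 : supported (ZMod 2) {p : ℕ × ℕ | p.1 < s} ≤
      AlgHom.equalizer (rho s) (AlgHom.id (ZMod 2) P) := by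
    rw [supported]
    refine Algebra.adjoin_le ?_
    rintro _ ⟨p, hp, rfl⟩
    have hp' : p.1 < s := hp
    change rho s (X p) = X p
    rw [rho, aeval_X, if_pos hp']
  exact h1 hx

theorem rho_mem (s : ℕ) (x : P) : rho s x ∈ St.C s := by
  have h2 : (⊤ : Subalgebra (ZMod 2) P) ≤ (supported (ZMod 2)
      {p : ℕ × ℕ | p.1 < s}).comap (rho s) := by
    rw [← adjoin_range_X]
    refine Algebra.adjoin_le ?_
    rintro _ ⟨v, rfl⟩
    change rho s (X v) ∈ supported (ZMod 2) {p : ℕ × ℕ | p.1 < s}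
    rw [rho, aeval_X]
    split_ifs with h
    · exact X_mem_supported.mpr h
    · exact zero_mem _
  exact h2 (Algebra.mem_top (x := x))

theorem C_root {s : ℕ} {z : P} (h : z ^ 2 ∈ St.C s) : z ∈ St.C s := by
  have h1 := rho_C h
  rw [map_pow] at h1
  rw [← P_sq_inj h1]
  exact rho_mem s z

theorem sq_hom {t : ℕ} {z : P} (h : IsHom t (z ^ 2)) :
    (Odd t → z = 0) ∧ ∀ t', t = 2 * t' → IsHom t' z := by
  obtain ⟨S, hS⟩ := exists_sum z
  have h1 : z ^ 2 = ∑ u ∈ S, (cmp u z) ^ 2 := by
    conv_lhs => rw [hS]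
    rw [sum_pow_char]
  have h2 : z ^ 2 = ∑ u ∈ S, cmp t ((cmp u z) ^ 2) := by
    conv_lhs => rw [← cmp_same h, h1, map_sum]
  have h3 : ∀ u, IsHom (2 * u) ((cmp u z) ^ 2) := fun u => (cmp_hom u z).pow 2
  constructor
  · intro ht
    have h4 : z ^ 2 = 0 := by
      rw [h2]
      refine sum_eq_zero fun u _ => cmp_ne (h3 u) ?_
      rintro rfl
      exact (Nat.not_odd_iff_even.mpr (even_two_mul u)) ht
    exact (pow_eq_zero_iff two_ne_zero).mp h4
  · rintro t' rfl
    by_cases hu : t' ∈ S
    · have h4 : z ^ 2 = (cmp t' z) ^ 2 := by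
        rw [h2, sum_eq_single t']
        · exact cmp_same (h3 t')
        · intro u _ hne
          exact cmp_ne (h3 u) (by omega)
        · exact fun h => absurd hu h
      rw [P_sq_inj h4]
      exact cmp_hom t' z
    · have h4 : z ^ 2 = 0 := by
        rw [h2]
        refine sum_eq_zero fun u huS => cmp_ne (h3 u) ?_
        rintro e
        have : u = t' := by omega
        exact hu (this ▸ huS)
      rw [(pow_eq_zero_iff two_ne_zero).mp h4]
      exact isWeightedHomogeneous_zero _ _ _

theorem aeval_sq (z : P) : aeval (fun v : ℕ × ℕ => (X v : P) ^ 2) z = z ^ 2 := by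
  induction z using MvPolynomial.induction_on with
  | C a =>
    have ha : a ^ 2 = a := by revert a; decide
    rw [algHom_C, ← map_pow, ha]
    rfl
  | add p q hp hq => rw [map_add, hp, hq, add_pow_char]
  | mul_X p n hp => rw [map_mul, hp, aeval_X, mul_pow]

theorem pd_C1' (a n : ℕ) (ha : a ≠ 0) {f : P} (hf : f ∈ St.C 1) : pderiv (a, n) f = 0 := by
  refine C1_ind (p := fun f => pderiv (a, n) f = 0) ?_ ?_ ?_ ?_ hf
  · intro m
    exact pderiv_X_of_ne (by
      intro e
      exact ha (congrArg Prod.fst e).symm)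
  · intro r
    exact pderiv_C
  · intro x y hx hy
    rw [map_add, hx, hy, add_zero]
  · intro x y _ _ hx hy
    rw [Derivation.leibniz, hx, hy, smul_zero, smul_zero, add_zero]

theorem root_C1 {x : P} (hx : x ∈ St.C 1) (h : ∀ n, pderiv (0, n) x = 0) :
    ∃ z ∈ St.C 1, x = z ^ 2 := by
  classical
  obtain ⟨z, hz⟩ := Pool.Agent.W624.Stz.sq_root (fun _ : ℕ × ℕ => True) x (by
    rintro ⟨a, n⟩ _
    by_cases ha : a = 0
    · subst ha; exact h n
    · exact pd_C1' a n ha hx)
  simp only [if_true] at hz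
  have hz2 : z ^ 2 = x := by rw [← aeval_sq]; exact hz
  refine ⟨z, C_root (s := 1) ?_, hz2.symm⟩
  rw [hz2]
  exact hx

theorem weight_single (n : ℕ) : Finsupp.weight (fun p : ℕ × ℕ => 2 ^ (p.2 + 1) - 1)
    (Finsupp.single (0, n) 1) = 2 ^ (n + 1) - 1 := by
  rw [Finsupp.weight_apply, Finsupp.sum_single_index] <;> simp

theorem pd_ne {t n : ℕ} {x : P} {r : ZMod 2} (hx : IsHom t x) (h : pderiv (0, n) x = MvPolynomial.C r)
    (hr : r ≠ 0) : t = 2 ^ (n + 1) - 1 := by
  have h1 := Pool.Agent.W624.Stz.coeff_X_pderiv (0, n) x (Finsupp.single (0, n) 1)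
  rw [h, mul_comm, coeff_C_mul, coeff_X, Finsupp.single_eq_same, Nat.cast_one,
    one_mul, if_pos rfl, mul_one] at h1
  have h2 : coeff (Finsupp.single (0, n) 1) x ≠ 0 := by rw [← h1]; exact hr
  rw [← weight_single n]
  exact (hx h2).symm

theorem lemA {t : ℕ} {x w : P} (hx : x ∈ St.C 1) (ht : IsHom t x) (h1 : t ≠ 1)
    (hd : d 1 x = w ^ 2) : ∃ z ∈ St.C 1, x = z ^ 2 ∧ d 1 z = w ∧ (Odd t → z = 0) ∧
      ∀ t', t = 2 * t' → IsHom t' z := by
  by_cases hall : ∀ n, pderiv (0, n) x = 0
  · obtain ⟨z, hz, hxz⟩ := root_C1 hx hall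
    rw [hxz] at ht hd
    refine ⟨z, hz, hxz, ?_, (sq_hom ht).1, (sq_hom ht).2⟩
    exact P_sq_inj ((d_frob 1 z).symm.trans hd)
  · exfalso
    push Not at hall
    obtain ⟨n, hn⟩ := hall
    obtain ⟨r, hr⟩ := pd_const hx hd n
    have hr0 : r ≠ 0 := by
      rintro rfl
      exact hn (by rw [hr, map_zero])
    have htn := pd_ne ht hr hr0
    have hn0 : n ≠ 0 := by
      rintro rfl
      exact h1 (by rw [htn]; norm_num)
    have hr1 : r = 1 := by
      have : ∀ r : ZMod 2, r ≠ 0 → r = 1 := by decide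
      exact this r hr0
    have hX : (X (0, n) : P) ∈ St.C 1 := C_X n (by norm_num)
    have hXh : IsHom t (X (0, n) : P) := by
      rw [htn]
      exact isWeightedHomogeneous_X (ZMod 2) (fun p : ℕ × ℕ => 2 ^ (p.2 + 1) - 1) ((0, n) : ℕ × ℕ)
    obtain ⟨z, hz, hxz⟩ := root_C1 (x := x + X (0, n)) (Submodule.add_mem _ hx hX) (by
      intro m
      rw [map_add]
      by_cases hm : m = n
      · subst hm
        rw [hr, hr1, pderiv_X_self, map_one]
        exact P2 1
      · obtain ⟨r', hr'⟩ := pd_const hx hd m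
        have : r' = 0 := by
          by_contra h
          have h2 := pd_ne ht hr' h
          rw [htn] at h2
          have h3 : (2 : ℕ) ^ (n + 1) = 2 ^ (m + 1) := by
            have := Nat.one_le_two_pow (n := n + 1)
            have := Nat.one_le_two_pow (n := m + 1)
            omega
          have := Nat.pow_right_injective (le_refl 2) h3
          omega
        rw [hr', this, map_zero, zero_add]
        exact pderiv_X_of_ne (by
          intro e
          exact hm (congrArg Prod.snd e).symm))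
    have hodd : Odd t := by
      rw [htn]
      refine Nat.Even.sub_odd Nat.one_le_two_pow ?_ odd_one
      rw [pow_succ]
      exact even_two.mul_left _
    have hz0 : z = 0 := (sq_hom (t := t) (z := z) (by
      rw [← hxz]
      exact IsWeightedHomogeneous.add ht hXh)).1 hodd
    have hx' : x = X (0, n) := by
      rw [hz0] at hxz
      have := P2 (X (0, n))
      linear_combination hxz - this
    subst hx'
    obtain ⟨k, rfl⟩ : ∃ k, n = k + 1 := ⟨n - 1, by omega⟩
    have h5 := congrArg (pderiv (1, 0)) hd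
    have h6 : d 1 (X (0, k + 1)) = face 0 (X (0, k + 1) : P) + face 1 (X (0, k + 1)) + face 2 (X (0, k + 1)) := by
      rw [d, LinearMap.sum_apply, sum_range_succ, sum_range_succ, sum_range_one]
      rfl
    have e0 : face 0 (X (0, k + 1) : P) = X (1, k + 1) := by
      rw [face, aeval_X]
      simp only
      rw [if_neg (by omega), if_pos (by omega)]
      rfl
    have e2 : face 2 (X (0, k + 1) : P) = X (0, k + 1) := face_of_C hX (by norm_num)
    have e1 : pderiv (1, 0) (face 1 (X (0, k + 1) : P)) = X (0, k) ^ 2 := by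
      rw [face1_X, map_sum, sum_eq_single 1]
      · change pderiv (1, 0) (X (0, k) ^ 2 ^ 1 * X (1, 0) : P) = _
        rw [Derivation.leibniz, pderiv_X_self, pderiv_pow, pderiv_X_of_ne (by simp)]
        simp
      · intro i _ hi
        rw [Derivation.leibniz]
        have e3 : pderiv (1, 0) (ξ 0 (k + 1 + 1 - i) ^ 2 ^ i : P) = 0 := by
          rw [Derivation.leibniz_pow]
          cases (k + 1 + 1 - i) with
          | zero =>
            change _ • _ • pderiv (1, 0) (1 : P) = 0
            simp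
          | succ l =>
            change _ • _ • pderiv (1, 0) (X (0, l) : P) = 0
            rw [pderiv_X_of_ne (by simp), smul_zero, smul_zero]
        have e4 : pderiv (1, 0) (ξ 1 i : P) = 0 := by
          cases i with
          | zero =>
            change pderiv (1, 0) (1 : P) = 0
            simp
          | succ l =>
            change pderiv (1, 0) (X (1, l) : P) = 0
            refine pderiv_X_of_ne ?_
            intro e
            have : l = 0 := congrArg Prod.snd e
            omega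
        rw [e3, e4, smul_zero, smul_zero, add_zero]
      · intro h
        rw [mem_range] at h
        omega
    rw [h6, map_add, map_add, e0, e1, e2, pd_sq, pderiv_X_of_ne (by simp), pderiv_X_of_ne (by simp),
      zero_add, add_zero] at h5
    exact X_ne_zero _ ((pow_eq_zero_iff two_ne_zero).mp h5)

theorem lemA_iter (m : ℕ) : ∀ {t : ℕ} {x w : P}, 1 ≤ t → x ∈ St.C 1 → IsHom (2 ^ m * t) x →
    d 1 x = w ^ 2 ^ m → ∃ z ∈ St.C 1, x = z ^ 2 ^ m ∧ d 1 z = w ∧ IsHom t z := by
  induction m with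
  | zero =>
    intro t x w _ hx ht hd
    exact ⟨x, hx, by simp, by simpa using hd, by simpa using ht⟩
  | succ m ih =>
    intro t x w h1 hx ht hd
    have hp : 1 ≤ 2 ^ m * t := Nat.one_le_iff_ne_zero.mpr (by positivity)
    obtain ⟨z, hz, hxz, hdz, _, hh⟩ := lemA (w := w ^ 2 ^ m) hx ht (by
      have : 2 ^ (m + 1) * t = 2 * (2 ^ m * t) := by rw [pow_succ]; ring
      omega) (by rw [hd, ← pow_mul, pow_succ])
    obtain ⟨z', hz', hzz', hdz', hh'⟩ := ih h1 hz (hh (2 ^ m * t) (by rw [pow_succ]; ring)) hdz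
    exact ⟨z', hz', by rw [hxz, hzz', ← pow_mul, pow_succ], hdz', hh'⟩

theorem lowC1 {t : ℕ} (ht : t ≤ 2) {x : P} (hx : x ∈ St.C 1) (hh : IsHom t x) :
    ∃ r : ZMod 2, x = MvPolynomial.C r * X (0, 0) ^ t := by
  refine ⟨coeff (Finsupp.single (0, 0) t) x, ?_⟩
  rw [C_mul_X_pow_eq_monomial]
  ext e
  rw [coeff_monomial]
  split_ifs with h
  · rw [h]
  · by_contra h0
    apply h
    have hw := hh h0
    have hv : ∀ p : ℕ × ℕ, p.1 ≠ 0 → e p = 0 := by
      intro p hp
      by_contra h1
      have h2 : ↑x.vars ⊆ {p : ℕ × ℕ | p.1 < 1} := mem_supported.mp hx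
      have h3 : p ∈ x.vars := (mem_vars_iff_mem_support p).mpr
        ⟨e, mem_support_iff.mpr h0, Finsupp.mem_support_iff.mpr h1⟩
      have h4 : p.1 < 1 := h2 h3
      omega
    have hle : ∀ n, e (0, n) * (2 ^ (n + 1) - 1) ≤ t := by
      intro n
      rw [← hw, Finsupp.weight_apply, Finsupp.sum]
      by_cases h1 : e (0, n) = 0
      · rw [h1, zero_mul]; exact Nat.zero_le _
      · exact single_le_sum (f := fun p : ℕ × ℕ => e p • (2 ^ (p.2 + 1) - 1))
          (fun _ _ => Nat.zero_le _) (Finsupp.mem_support_iff.mpr h1)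
    have hn : ∀ n, n ≠ 0 → e (0, n) = 0 := by
      intro n hn
      by_contra h1
      have h2 := hle n
      have h3 : 2 ^ 2 ≤ 2 ^ (n + 1) := Nat.pow_le_pow_right (by norm_num) (by omega)
      have h4 : 1 * 3 ≤ e (0, n) * (2 ^ (n + 1) - 1) :=
        Nat.mul_le_mul (by omega) (by omega)
      omega
    have he : e = Finsupp.single (0, 0) (e (0, 0)) := by
      ext p
      by_cases hp : p = (0, 0)
      · subst hp; rw [Finsupp.single_eq_same]
      · rw [Finsupp.single_eq_of_ne hp]
        obtain ⟨a, n⟩ := p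
        by_cases ha : a = 0
        · subst ha
          exact hn n (fun h => hp (by rw [h]))
        · exact hv _ ha
    rw [he, Finsupp.weight_apply, Finsupp.sum_single_index (by simp)] at hw
    simp only [zero_add, pow_one, Nat.add_one_sub_one, smul_eq_mul, mul_one] at hw
    have h5 : e (0, 0) = t := by simpa using hw
    rw [← h5]
    exact he.symm

/-- cocycles of degree one and of internal degree not a power of two -/
theorem one_line_zero {m c : ℕ} (hc : Odd c) (h1 : c ≠ 1) {x : P} (hx : x ∈ St.C 1)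
    (hh : IsHom (2 ^ m * c) x) (hd : d 1 x = 0) : x = 0 := by
  obtain ⟨z, hz, hxz, hdz, hz2⟩ := lemA_iter m hc.pos hx hh (w := 0) (by
    rw [hd, zero_pow (by positivity)])
  obtain ⟨z', _, hzz', _, h0, _⟩ := lemA (w := 0) hz hz2 h1 (by rw [hdz]; simp)
  rw [hxz, hzz', h0 hc, zero_pow (by norm_num), zero_pow (by positivity)]

/-- cocycles of degree one and of internal degree a power of two -/
theorem one_line {m : ℕ} {x : P} (hx : x ∈ St.C 1) (hh : IsHom (2 ^ m) x) (hd : d 1 x = 0) :
    x = 0 ∨ x = X (0, 0) ^ 2 ^ m := by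
  obtain ⟨z, hz, hxz, hdz, hz2⟩ := lemA_iter m le_rfl hx (by rwa [mul_one]) (w := 0) (by
    rw [hd, zero_pow (by positivity)])
  obtain ⟨r, hr⟩ := lowC1 (by norm_num) hz hz2
  have : ∀ r : ZMod 2, r = 0 ∨ r = 1 := by decide
  rcases this r with h | h
  · left
    rw [hxz, hr, h, map_zero, zero_mul, zero_pow (by positivity)]
  · right
    rw [hxz, hr, h, map_one, one_mul, pow_one]

/-- `h_m²` is not a coboundary -/
theorem h_sq_ne (m : ℕ) : (X (0, 0) ^ 2 ^ m * X (1, 0) ^ 2 ^ m : P) ∉ St.B 2 := by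
  rintro ⟨x, hx, hdx⟩
  have hX : (X (0, 0) ^ 2 ^ m * X (1, 0) ^ 2 ^ m : P) = (X (0, 0) * X (1, 0)) ^ 2 ^ m := by
    rw [mul_pow]
  have hXh : IsHom (2 ^ m * 2) (X (0, 0) ^ 2 ^ m * X (1, 0) ^ 2 ^ m : P) := by
    rw [hX]
    exact ((isHom_x 0).mul (isHom_x 1)).pow _
  have hd' : d 1 (cmp (2 ^ m * 2) x) = (X (0, 0) * X (1, 0)) ^ 2 ^ m := by
    rw [← cmp_d, hdx, cmp_same hXh, hX]
  obtain ⟨z, hz, hxz, hdz, hz2⟩ := lemA_iter m (t := 2) (by norm_num) (cmp_C hx) (cmp_hom _ _) hd'
  obtain ⟨r, hr⟩ := lowC1 le_rfl hz hz2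
  have h1 : d 1 z = 0 := by
    have h2 : d 1 (X (0, 0) ^ 2 : P) = 0 := by
      have h3 : d 1 (X (0, 0) : P) = 0 := by
        rw [d, LinearMap.sum_apply, sum_range_succ, sum_range_succ, sum_range_one]
        simp only [AlgHom.toLinearMap_apply]
        have e0 : face 0 (X (0, 0) : P) = X (1, 0) := by
          rw [face, aeval_X]
          simp only
          rw [if_neg (by omega), if_pos (by omega)]
          rfl
        have e2 : face 2 (X (0, 0) : P) = X (0, 0) := face_of_C (s := 1) (C_X 0 (by norm_num)) (by norm_num)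
        have e1 : face 1 (X (0, 0) : P) = X (0, 0) + X (1, 0) := by
          rw [face1_X, sum_range_succ, sum_range_one]
          simp [ξ]
        rw [e0, e2, e1]
        have := P2 (X (0, 0))
        have := P2 (X (1, 0))
        linear_combination P2 (X (0, 0)) + P2 (X (1, 0))
      have h4 := d_frob 1 (X (0, 0))
      rw [h3, map_zero] at h4
      exact h4
    have h5 : z = r • (X (0, 0) ^ 2 : P) := by rw [hr, smul_eq_C_mul]
    rw [h5, map_smul, h2, smul_zero]
  rw [h1] at hdz
  exact (mul_ne_zero (X_ne_zero _) (X_ne_zero _)) hdz.symm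

end Pool.Agent.H92ND
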