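import Pool.Agent.H92ND.I

/-!
Existence of towers: bases of the cohomology in the highly divisible degrees.
-/

set_option autoImplicit false
set_option linter.unusedSectionVars false

namespace Pool.Agent.H92ND

open Finset MvPolynomial Pool.Agent.W624.Stz Pool.Agent.Q171.ND3

theorem e_inj (q : ℕ) : ∀ᶠ N in HD, ∀ z, CC (q + 1) N 0 z → ∀ y, CC q (2 * N) 0 y →
    dk q y = PHI Empty z → ∃ z', CC q N 0 z' ∧ dk q z' = z := by
  obtain ⟨r, hr⟩ := exists_r q
  refine hd_of r fun N hN z hz y hy hd => ?_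
  exact inj_step hr hN hz (by rw [kk]; exact hy) (by rw [kk]; exact hd)

theorem CC_PHI_iter {q : ℕ} {N : ℤ} {u : RR Empty} (hu : CC q N 0 u) (m : ℕ) :
    CC q (2 ^ m * N) 0 ((PHI Empty)^[m] u) := by
  induction m with
  | zero => simpa using hu
  | succ m ih =>
    rw [Function.iterate_succ_apply', pow_succ', mul_assoc]
    exact CC_PHI ih

theorem PHI_iter_dk (q m : ℕ) (f : RR Empty) :
    (PHI Empty)^[m] (dk q f) = dk q ((PHI Empty)^[m] f) := by
  induction m with
  | zero => rfl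
  | succ m ih => rw [Function.iterate_succ_apply', Function.iterate_succ_apply', ih, PHIe_dd]

theorem PHI_iter_add (m : ℕ) (f g : RR Empty) :
    (PHI Empty)^[m] (f + g) = (PHI Empty)^[m] f + (PHI Empty)^[m] g := by
  induction m with
  | zero => rfl
  | succ m ih =>
    rw [Function.iterate_succ_apply', Function.iterate_succ_apply', Function.iterate_succ_apply',
      ih, map_add]

theorem PHI_iter_sum {ι : Type*} (m : ℕ) (s : Finset ι) (ε : ι → ZMod 2) (f : ι → RR Empty) :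
    (PHI Empty)^[m] (∑ i ∈ s, ε i • f i) = ∑ i ∈ s, ε i • (PHI Empty)^[m] (f i) := by
  induction m with
  | zero => rfl
  | succ m ih =>
    simp only [Function.iterate_succ_apply']
    rw [ih, map_sum]
    exact sum_congr rfl fun i _ => map_smul _ _ _

/-- injectivity in all degrees which are divisible by a fixed power of two -/
theorem e_inj_pow (q : ℕ) : ∀ᶠ N in HD, ∀ m z, CC (q + 1) N 0 z → ∀ y, CC q (2 ^ m * N) 0 y →
    dk q y = (PHI Empty)^[m] z → ∃ z', CC q N 0 z' ∧ dk q z' = z := by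
  obtain ⟨r, hr⟩ := of_hd (e_inj q)
  refine hd_of r fun N hN m => ?_
  induction m with
  | zero =>
    intro z _ y hy hd
    exact ⟨y, by simpa using hy, hd⟩
  | succ m ih =>
    intro z hz y hy hd
    rw [Function.iterate_succ_apply'] at hd
    rw [pow_succ', mul_assoc] at hy
    obtain ⟨y', hy', hd'⟩ := hr (2 ^ m * N) (Dvd.dvd.mul_left hN _) _ (CC_PHI_iter hz m) y hy hd
    exact ih z hz y' hy' hd'

/-- surjectivity in all degrees which are divisible by a fixed power of two -/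
theorem e_surj_pow (q : ℕ) : ∀ᶠ N in HD, ∀ m f, CC (q + 1) (2 ^ m * N) 0 f → dk (q + 1) f = 0 →
    ∃ u, CC (q + 1) N 0 u ∧ dk (q + 1) u = 0 ∧ ∃ h, CC q (2 ^ m * N) 0 h ∧
      f = (PHI Empty)^[m] u + dk q h := by
  obtain ⟨r, hr⟩ := of_hd (e_sq q)
  refine hd_of r fun N hN m => ?_
  induction m with
  | zero =>
    intro f hf hd
    exact ⟨f, by simpa using hf, hd, 0, TT.zero, by rw [map_zero, add_zero]; rfl⟩
  | succ m ih =>
    intro f hf hd
    rw [pow_succ', mul_assoc] at hf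
    obtain ⟨u', hu', hdu', h', hh', he'⟩ := hr (2 ^ m * N) (Dvd.dvd.mul_left hN _) f hf hd
    obtain ⟨u, hu, hdu, h, hh, he⟩ := ih u' hu' hdu'
    refine ⟨u, hu, hdu, PHI Empty h + h', ?_, ?_⟩
    · rw [pow_succ', mul_assoc]
      exact (CC_PHI hh).add hh'
    · rw [he', he, map_add, map_add, ← PHIe_dd, Function.iterate_succ_apply', add_assoc]

/-- the cocycles of internal degree `N` -/
noncomputable def ZN (q : ℕ) (N : ℤ) : Submodule (ZMod 2) (RR Empty) where
  carrier := {f | CC q N 0 f ∧ dk q f = 0}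
  add_mem' := by
    rintro a b ⟨ha, ha'⟩ ⟨hb, hb'⟩
    exact ⟨ha.add hb, by rw [map_add, ha', hb', add_zero]⟩
  zero_mem' := ⟨TT.zero, map_zero _⟩
  smul_mem' := by
    rintro c x ⟨hx, hx'⟩
    have : c = 0 ∨ c = 1 := by revert c; decide
    rcases this with h | h
    · subst h; rw [zero_smul]; exact ⟨TT.zero, map_zero _⟩
    · subst h; rw [one_smul]; exact ⟨hx, hx'⟩

/-- the coboundaries of internal degree `N` -/
noncomputable def BN (q : ℕ) (N : ℤ) : Submodule (ZMod 2) (RR Empty) where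
  carrier := {f | ∃ h, CC q N 0 h ∧ dk q h = f}
  add_mem' := by
    rintro a b ⟨h, hh, rfl⟩ ⟨h', hh', rfl⟩
    exact ⟨h + h', hh.add hh', map_add _ _ _⟩
  zero_mem' := ⟨0, TT.zero, map_zero _⟩
  smul_mem' := by
    rintro c x ⟨h, hh, rfl⟩
    have : c = 0 ∨ c = 1 := by revert c; decide
    rcases this with h | h
    · subst h; rw [zero_smul]; exact ⟨0, TT.zero, map_zero _⟩
    · subst h; rw [one_smul]; exact ⟨_, hh, rfl⟩

theorem ZN_finite (q N : ℕ) : Finite (ZN q (N : ℤ)) := by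
  have hF := St.fin_hom q N
  have := hF.to_subtype
  refine Finite.of_injective (β := {x : St.P | x ∈ St.C q ∧ St.IsHom N x})
    (fun f => ⟨St.po f.1, St.C_po f.2.1.cu, St.IsHom_po f.2.1⟩) ?_
  rintro ⟨f, hf⟩ ⟨g, hg⟩ h
  have h1 : St.po f = St.po g := congrArg Subtype.val h
  have h2 := congrArg St.jo h1
  rw [St.jo_po hf.1, St.jo_po hg.1] at h2
  exact Subtype.ext h2

theorem exists_basis (q N : ℕ) : ∃ (n : ℕ) (e : Fin n → RR Empty),
    (∀ i, CC (q + 1) (N : ℤ) 0 (e i) ∧ dk (q + 1) (e i) = 0) ∧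
    (∀ f, CC (q + 1) (N : ℤ) 0 f → dk (q + 1) f = 0 → ∃ ε : Fin n → ZMod 2,
      ∃ h, CC q (N : ℤ) 0 h ∧ f = ∑ i, ε i • e i + dk q h) ∧
    ∀ ε : Fin n → ZMod 2, ∀ h, CC q (N : ℤ) 0 h → dk q h = ∑ i, ε i • e i → ε = 0 := by
  have := ZN_finite (q + 1) N
  let Q := ZN (q + 1) (N : ℤ) ⧸ (BN q (N : ℤ)).submoduleOf (ZN (q + 1) (N : ℤ))
  have hfin : Finite Q := Quotient.finite _
  have : Module.Finite (ZMod 2) Q := Module.Finite.of_finite
  let b := Module.finBasis (ZMod 2) Q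
  have hsurj := Submodule.mkQ_surjective ((BN q (N : ℤ)).submoduleOf (ZN (q + 1) (N : ℤ)))
  choose e he using fun i => hsurj (b i)
  refine ⟨_, fun i => (e i).1, fun i => (e i).2, ?_, ?_⟩
  · intro f hf hdf
    set F : ZN (q + 1) (N : ℤ) := ⟨f, hf, hdf⟩
    have h1 := b.sum_repr (Submodule.Quotient.mk F)
    have h2 : (((BN q (N : ℤ)).submoduleOf (ZN (q + 1) (N : ℤ))).mkQ
        (F - ∑ i, b.repr (Submodule.Quotient.mk F) i • e i)) = 0 := by
      rw [map_sub, map_sum]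
      simp only [map_smul, he]
      rw [h1]
      exact sub_self _
    rw [Submodule.mkQ_apply, Submodule.Quotient.mk_eq_zero] at h2
    obtain ⟨h, hh, hdh⟩ := h2
    refine ⟨fun i => b.repr (Submodule.Quotient.mk F) i, h, hh, ?_⟩
    rw [hdh]
    have h3 : ((F - ∑ i, b.repr (Submodule.Quotient.mk F) i • e i : ZN (q + 1) (N : ℤ)) :
      RR Empty) = f - ∑ i, b.repr (Submodule.Quotient.mk F) i • (e i).1 := by
      rw [AddSubgroupClass.coe_sub, AddSubmonoidClass.coe_finsetSum]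
      rfl
    change f = _ + ((F - ∑ i, b.repr (Submodule.Quotient.mk F) i • e i : ZN (q + 1) (N : ℤ)) :
      RR Empty)
    rw [h3]
    abel
  · intro ε h hh hd
    have h1 : (((BN q (N : ℤ)).submoduleOf (ZN (q + 1) (N : ℤ))).mkQ (∑ i, ε i • e i)) = 0 := by
      rw [Submodule.mkQ_apply, Submodule.Quotient.mk_eq_zero]
      refine ⟨h, hh, ?_⟩
      rw [hd]
      change _ = ((∑ i, ε i • e i : ZN (q + 1) (N : ℤ)) : RR Empty)
      rw [AddSubmonoidClass.coe_finsetSum]
      rfl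
    rw [map_sum] at h1
    simp only [map_smul, he] at h1
    have := Fintype.linearIndependent_iff.mp b.linearIndependent ε h1
    exact funext this

/-- bases of the cohomology in highly divisible degrees -/
theorem exists_tower (p : ℕ) : ∃ R, ∀ N : ℕ, 0 < N → 2 ^ R ∣ N → ∃ V, Tower p (N : ℤ) V := by
  have h1 : ∀ᶠ N in HD, ∀ q ∈ range (p + 1), (∀ m z, CC (q + 1) N 0 z → ∀ y,
      CC q (2 ^ m * N) 0 y → dk q y = (PHI Empty)^[m] z → ∃ z', CC q N 0 z' ∧ dk q z' = z) ∧
      ∀ m f, CC (q + 1) (2 ^ m * N) 0 f → dk (q + 1) f = 0 →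
        ∃ u, CC (q + 1) N 0 u ∧ dk (q + 1) u = 0 ∧ ∃ h, CC q (2 ^ m * N) 0 h ∧
        f = (PHI Empty)^[m] u + dk q h := by
    rw [Filter.eventually_all_finset]
    intro q _
    exact (e_inj_pow q).and (e_surj_pow q)
  obtain ⟨R, hR⟩ := St.hd_nat h1
  refine ⟨R, fun N hN0 hN => ?_⟩
  have hR := hR N hN
  choose n e he1 he2 he3 using fun q => exists_basis q N
  let V : Fam :=
    { ι := Σ a : Fin (p + 1), Fin (n a)
      fin := inferInstance
      dg := fun k => k.1 + 1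
      pos := fun k => Nat.succ_le_succ (Nat.zero_le _)
      el := fun k => e k.1 k.2 }
  have hsum : ∀ (g : V.ι → RR Empty) (a0 : Fin (p + 1)) (hg : ∀ k : V.ι, k.1 ≠ a0 → g k = 0),
      ∑ k, g k = ∑ i, g ⟨a0, i⟩ := by
    intro g a0 hg
    change ∑ k : (Σ a : Fin (p + 1), Fin (n a)), g k = _
    rw [Fintype.sum_sigma]
    exact sum_eq_single a0 (fun a _ ha => sum_eq_zero fun i _ => hg ⟨a, i⟩ ha)
      (fun h => absurd (mem_univ _) h)
  refine ⟨V, ?_, ⟨?_, ?_⟩, ?_, ?_⟩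
  · exact_mod_cast hN0.ne'
  · exact fun k => (he1 k.1 k.2).1
  · exact fun k => (he1 k.1 k.2).2
  · intro m q hq1 hq2 f hf hd
    obtain ⟨q, rfl⟩ : ∃ q', q = q' + 1 := ⟨q - 1, by omega⟩
    obtain ⟨u, hu, hdu, h, hh, hfe⟩ := (hR q (mem_range.mpr (by omega))).2 m f hf hd
    obtain ⟨ε, h0, hh0, hue⟩ := he2 q u hu hdu
    let a0 : Fin (p + 1) := ⟨q, by omega⟩
    classical
    refine ⟨fun k => Function.update (0 : ∀ a : Fin (p + 1), Fin (n a) → ZMod 2) a0 ε k.1 k.2,
      ?_, (PHI Empty)^[m] h0 + h, ?_, ?_⟩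
    · intro k hk
      have hne : k.1 ≠ a0 := by
        intro h
        exact hk (by change (k.1 : ℕ) + 1 = q + 1; rw [h])
      simp only
      rw [Function.update_of_ne hne]
      rfl
    · exact (CC_PHI_iter hh0 m).add hh
    · rw [hsum _ a0 (by
        intro k hk
        have hz : Function.update (0 : ∀ a : Fin (p + 1), Fin (n a) → ZMod 2) a0 ε k.1 k.2 = 0 := by
          rw [Function.update_of_ne hk]; rfl
        exact (congrArg (fun c : ZMod 2 => c • (PHI Empty)^[m] (e k.1 k.2)) hz).trans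
          (zero_smul _ _))]
      simp only [Function.update_self]
      change f = ∑ i, ε i • (PHI Empty)^[m] (e q i) + dk q ((PHI Empty)^[m] h0 + h)
      rw [map_add, ← PHI_iter_dk, hfe, hue, PHI_iter_add, PHI_iter_sum]
      abel
  · intro m q hq1 hq2 ε hε h hh hd
    obtain ⟨q, rfl⟩ : ∃ q', q = q' + 1 := ⟨q - 1, by omega⟩
    let a0 : Fin (p + 1) := ⟨q, by omega⟩
    have hk0 : ∀ k : V.ι, k.1 ≠ a0 → ε k = 0 := by
      intro k hk
      apply hε
      intro h
      apply hk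
      have h' : (k.1 : ℕ) + 1 = q + 1 := h
      exact Fin.ext (by change (k.1 : ℕ) = q; omega)
    rw [hsum _ a0 (by
      intro k hk
      rw [hk0 k hk]
      exact zero_smul _ _)] at hd
    change dk q h = ∑ i, ε ⟨a0, i⟩ • (PHI Empty)^[m] (e q i) at hd
    rw [← PHI_iter_sum] at hd
    have hz : CC (q + 1) (N : ℤ) 0 (∑ i, ε ⟨a0, i⟩ • e q i) := by
      have : ∑ i, ε ⟨a0, i⟩ • e q i ∈ ZN (q + 1) (N : ℤ) :=
        Submodule.sum_mem _ fun i _ => Submodule.smul_mem _ _ (he1 q i)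
      exact this.1
    obtain ⟨z', hz', hdz'⟩ := (hR q (mem_range.mpr (by omega))).1 m _ hz h hh hd
    have h0 := he3 q (fun i => ε ⟨a0, i⟩) z' hz' hdz'
    funext k
    by_cases hk : k.1 = a0
    · obtain ⟨a, i⟩ := k
      have hk' : a = a0 := hk
      subst hk'
      exact congrFun h0 i
    · exact hk0 k hk

end Pool.Agent.H92ND
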