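import Pool.Agent.H92ND.J

/-!
The structure theorem for cocycles of the cobar complex.
-/

set_option autoImplicit false
set_option linter.unusedSectionVars false

namespace Pool.Agent.H92ND

open Finset MvPolynomial Pool.Agent.W624.Stz Pool.Agent.Q171.ND3 Pool.Agent.Q171.ND3.St

/-- shift of the slots -/
noncomputable def sp (m : ℕ) : P →ₐ[ZMod 2] P := aeval fun p : ℕ × ℕ => (X (m + p.1, p.2) : P)

theorem sp_X (m a n : ℕ) : sp m (X (a, n)) = X (m + a, n) := aeval_X _ _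

theorem jo_sp (m : ℕ) (y : P) : jo (sp m y) = SH Empty m (jo y) := by
  have : jo.comp (sp m) = (SH Empty m).comp jo := by
    apply algHom_ext
    rintro ⟨a, n⟩
    rw [AlgHom.comp_apply, AlgHom.comp_apply, sp_X, jo_X, jo_X, SH_x]
  exact DFunLike.congr_fun this y

theorem JJe (u : RR Empty) : JJ Empty u = u := by
  have h : JJ Empty = AlgHom.id (ZMod 2) (RR Empty) := by
    apply algHom_ext
    intro v
    rw [AlgHom.id_apply]
    cases v with
    | x a n => exact JJ_x a n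
    | s a n => exact JJ_s a n
    | y c n => exact c.elim
  rw [h, AlgHom.id_apply]

theorem jo_prod (m : ℕ) (x y : P) : jo (x * sp m y) = pr Empty m (jo x) (jo y) := by
  rw [pr_apply, JJe, map_mul, jo_sp]

theorem po_SH (m : ℕ) (g : RR Empty) : po (SH Empty m g) = sp m (po g) := by
  have : po.comp (SH Empty m) = (sp m).comp po := by
    apply algHom_ext
    intro v
    rw [AlgHom.comp_apply, AlgHom.comp_apply]
    cases v with
    | x a n => rw [SH_x, po_x, po_x, sp_X]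
    | s a n =>
      have h : ∀ a n, po (X (.s a n)) = 0 := fun a n => aeval_X _ _
      rw [SH_s, h, h, map_zero]
    | y c n => exact c.elim
  exact DFunLike.congr_fun this g

theorem po_prod (m : ℕ) (u a : RR Empty) : po (pr Empty m u a) = po u * sp m (po a) := by
  rw [pr_apply, JJe, map_mul, po_SH]

theorem sp_hom (m : ℕ) {t : ℕ} {y : P} (hy : IsHom t y) : IsHom t (sp m y) := by
  refine IW.aeval' (AddMonoidHom.id ℕ) (sp m) (w := fun p : ℕ × ℕ => 2 ^ (p.2 + 1) - 1)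
    (w' := fun p : ℕ × ℕ => 2 ^ (p.2 + 1) - 1) ?_ hy
  rintro ⟨a, n⟩
  rw [sp_X]
  exact isWeightedHomogeneous_X _ _ _

theorem sp_C (m : ℕ) {i : ℕ} {y : P} (hy : y ∈ St.C i) : sp m y ∈ St.C (m + i) :=
  C_hom (sp m) (fun a n ha => by rw [sp_X]; exact C_X n (by omega)) hy

theorem TT_smul {q : ℕ} {t : ℤ} {f : RR Empty} (c : ZMod 2) (hf : CC q t 0 f) :
    TT (kun : Empty → Kd) q t 0 0 (c • f) := by
  have : c = 0 ∨ c = 1 := by revert c; decide
  rcases this with h | h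
  · subst h; rw [zero_smul]; exact TT.zero
  · subst h; rw [one_smul]; exact hf

/-- homogeneous cocycles -/
structure Cy (s t : ℕ) (x : P) : Prop where
  mem : x ∈ St.C s
  hom : IsHom t x
  cyc : d s x = 0

theorem Cy.zero (s t : ℕ) : Cy s t 0 :=
  ⟨Submodule.zero_mem _, isWeightedHomogeneous_zero _ _ _, map_zero _⟩

theorem Cy.add {s t : ℕ} {x y : P} (hx : Cy s t x) (hy : Cy s t y) : Cy s t (x + y) :=
  ⟨Submodule.add_mem _ hx.mem hy.mem, IsWeightedHomogeneous.add hx.hom hy.hom,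
    by rw [map_add, hx.cyc, hy.cyc, add_zero]⟩

theorem Cy.sq {s t : ℕ} {x : P} (hx : Cy s t x) : Cy s (2 * t) (x ^ 2) :=
  ⟨C_pow hx.mem 2, hx.hom.pow 2, by
    have := d_frob s x
    rw [hx.cyc, map_zero] at this
    exact this⟩

theorem Cy.cc {s t : ℕ} {x : P} (hx : Cy s t x) : CC s (t : ℤ) 0 (jo x) := CC_jo hx.mem hx.hom

theorem Cy.dk {s t : ℕ} {x : P} (hx : Cy s t x) : dk s (jo x) = 0 := by
  rw [← jo_d hx.mem, hx.cyc, map_zero]

theorem Cy_po {s t : ℕ} {f : RR Empty} (hf : CC s (t : ℤ) 0 f) (hd : Q171.ND3.dk s f = 0) :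
    Cy s t (po f) :=
  ⟨C_po hf.cu, IsHom_po hf, by rw [← po_dk hf, hd, map_zero]⟩

theorem B_to {s t : ℕ} {x : P} (hx : IsHom t x) (h : x ∈ B s) :
    ∃ g, TT (kun : Empty → Kd) (s - 1) (t : ℤ) 0 0 g ∧ dm kun s g = jo x := by
  cases s with
  | zero =>
    rw [B, Submodule.mem_bot] at h
    exact ⟨0, TT.zero, by rw [h, map_zero, map_zero]⟩
  | succ s =>
    obtain ⟨y, hy, hyx⟩ := h
    refine ⟨jo (cmp t y), CC_jo (cmp_C hy) (cmp_hom _ _), ?_⟩
    change Q171.ND3.dk s (jo (cmp t y)) = jo x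
    rw [← jo_d (cmp_C hy), ← cmp_d, hyx, cmp_same hx]

theorem B_of {s t : ℕ} {x : P} {g : RR Empty}
    (hg : TT (kun : Empty → Kd) (s - 1) (t : ℤ) 0 0 g) (h : dm kun s g = jo x) : x ∈ B s := by
  cases s with
  | zero =>
    have h1 : x = 0 := jo_inj (by rw [← h, map_zero]; rfl)
    rw [h1]
    exact Submodule.zero_mem _
  | succ s =>
    have hg' : CC s (t : ℤ) 0 g := hg
    refine ⟨po g, C_po hg'.cu, ?_⟩
    rw [← po_dk hg']
    have h3 : Q171.ND3.dk s g = jo x := h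
    rw [h3, po_jo]

/-- the structure theorem: surjectivity -/
theorem S1 (s c : ℕ) (hs : 1 ≤ s) (hc : 0 < c) : ∃ K, ∀ N, 0 < N → 2 ^ K ∣ N → ∀ x,
    Cy s (N + c) x → ∃ (ι : Type) (_ : Fintype ι) (q : ι → ℕ) (a b : ι → P),
      (∀ k, 1 ≤ q k ∧ Cy (q k) N (a k) ∧ (b k = 0 ∨ (q k + 1 ≤ s ∧ Cy (s - q k) c (b k)))) ∧
      x + ∑ k, a k * sp (q k) (b k) ∈ B s := by
  obtain ⟨r, hr⟩ := mainN s 0 (c : ℤ)
  obtain ⟨R, hR⟩ := exists_tower s
  refine ⟨r + R, fun N hN0 hN x hx => ?_⟩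
  obtain ⟨N0, rfl⟩ : ∃ N0, N = 2 ^ r * N0 := dvd_trans (pow_dvd_pow 2 (Nat.le_add_right _ _)) hN
  have hN1 : 2 ^ R ∣ N0 := by
    rw [pow_add] at hN
    exact Nat.dvd_of_mul_dvd_mul_left (by positivity) hN
  have hN2 : 0 < N0 := Nat.pos_of_mul_pos_left hN0
  obtain ⟨V, hV⟩ := hR N0 hN2 hN1
  have hex := hr N0 V hV r le_rfl Empty 0 (by simp)
  have hU := hV.at0.pw r
  set U := V.pw r with hUd
  have hS : SC (kun : Empty → Kd) U s (2 ^ r * (N0 : ℤ)) c 0 0 (jo x, 0) := by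
    refine SC.mk' ?_ (fun k _ => TT.zero) (fun k _ => rfl)
    have := hx.cc
    push_cast at this
    exact this
  obtain ⟨h, hh, he⟩ := hex _ hS (by
    refine Prod.ext ?_ (funext fun k => ?_)
    · rw [cd_fst, map_zero, add_zero]
      exact hx.dk
    · rw [cd_snd]
      exact map_zero _)
  obtain ⟨s, rfl⟩ : ∃ s', s = s' + 1 := ⟨s - 1, by omega⟩
  have e1 : Q171.ND3.dk s h.1 + Ph Empty U h.2 = jo x := congrArg Prod.fst he
  have e2 : ∀ k, Q171.ND3.dk (s + 1 - U.dg k) (h.2 k) = 0 := fun k => congrFun (congrArg Prod.snd he) k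
  have hNc : ((2 ^ r * N0 : ℕ) : ℤ) = 2 ^ r * (N0 : ℤ) := by push_cast; rfl
  refine ⟨U.ι, U.fin, U.dg, fun k => po (U.el k), fun k => po (h.2 k), fun k => ⟨U.pos k, ?_, ?_⟩,
    ?_⟩
  · refine Cy_po ?_ (hU.cy k)
    rw [hNc]
    exact hU.tt k
  · rcases Nat.lt_or_ge (U.dg k) (s + 1) with h1 | h1
    · right
      refine ⟨h1, Cy_po (hh.t1 k (by omega)) (e2 k)⟩
    · left
      rcases Nat.eq_or_lt_of_le h1 with h2 | h2
      · have h3 := hh.t1 k (by omega)
        rw [← h2, Nat.add_sub_cancel, Nat.sub_self] at h3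
        change po (h.2 k) = 0
        rw [TT0_ne (by exact_mod_cast hc.ne') h3, map_zero]
      · change po (h.2 k) = 0
        rw [hh.z1 k (by omega), map_zero]
  · have h4 : x + ∑ k, po (U.el k) * sp (U.dg k) (po (h.2 k)) = po (Q171.ND3.dk s h.1) := by
      have h5 := congrArg po e1
      rw [map_add, po_jo, Ph_apply, map_sum] at h5
      simp only [po_prod] at h5
      rw [← h5]
      have := P2 (∑ k, po (U.el k) * sp (U.dg k) (po (h.2 k)))
      linear_combination this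
    rw [h4]
    have h6 : CC s ((2 ^ r * N0 + c : ℕ) : ℤ) 0 h.1 := by
      have := hh.t0
      push_cast
      exact this
    exact ⟨po h.1, C_po h6.cu, (po_dk h6).symm⟩

theorem pr_add_left (m : ℕ) (u v a : RR Empty) :
    pr Empty m (u + v) a = pr Empty m u a + pr Empty m v a := by
  rw [pr_apply, pr_apply, pr_apply, map_add, add_mul]

theorem pr_sum_left {ι : Type*} (S : Finset ι) (m : ℕ) (u : ι → RR Empty) (a : RR Empty) :
    pr Empty m (∑ i ∈ S, u i) a = ∑ i ∈ S, pr Empty m (u i) a := by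
  simp only [pr_apply]
  rw [map_sum, sum_mul]

/-- the core of the injectivity -/
theorem S2core (s c : ℕ) : ∃ K, ∀ N, 0 < N → 2 ^ K ∣ N → ∃ U : Fam,
    (∀ q x, 1 ≤ q → q ≤ s → Cy q N x → ∃ ε : U.ι → ZMod 2, (∀ k, U.dg k ≠ q → ε k = 0) ∧
      ∃ h, TT (kun : Empty → Kd) (q - 1) (N : ℤ) 0 0 h ∧ jo x = ∑ k, ε k • U.el k + dm kun q h) ∧
    ∀ q i q' i' x y x' y', 1 ≤ q → 1 ≤ i → q + i = s + 1 → 1 ≤ q' → 1 ≤ i' → q' + i' = s + 1 →
      Cy q N x → Cy i c y → Cy q' N x' → Cy i' c y' →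
      ∀ (ε ε' : U.ι → ZMod 2) (h h' : RR Empty), (∀ k, U.dg k ≠ q → ε k = 0) →
      (∀ k, U.dg k ≠ q' → ε' k = 0) → (∀ k, ε k = 0 ∨ ε' k = 0) →
      TT (kun : Empty → Kd) (q - 1) (N : ℤ) 0 0 h → TT (kun : Empty → Kd) (q' - 1) (N : ℤ) 0 0 h' →
      jo x = ∑ k, ε k • U.el k + dm kun q h → jo x' = ∑ k, ε' k • U.el k + dm kun q' h' →
      x * sp q y + x' * sp q' y' ∈ B (s + 1) → (x ∈ B q ∨ y ∈ B i) ∧ (x' ∈ B q' ∨ y' ∈ B i') := by
  obtain ⟨r, hr⟩ := mainN s 0 (c : ℤ)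
  obtain ⟨R, hR⟩ := exists_tower s
  refine ⟨r + R, fun N hN0 hN => ?_⟩
  obtain ⟨N0, rfl⟩ : ∃ N0, N = 2 ^ r * N0 := dvd_trans (pow_dvd_pow 2 (Nat.le_add_right _ _)) hN
  have hN1 : 2 ^ R ∣ N0 := by
    rw [pow_add] at hN
    exact Nat.dvd_of_mul_dvd_mul_left (by positivity) hN
  have hN2 : 0 < N0 := Nat.pos_of_mul_pos_left hN0
  obtain ⟨V, hV⟩ := hR N0 hN2 hN1
  have hex := hr N0 V hV r le_rfl Empty 0 (by simp)
  have hU := hV.at0.pw r
  have hNc : ((2 ^ r * N0 : ℕ) : ℤ) = 2 ^ r * (N0 : ℤ) := by push_cast; rfl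
  refine ⟨V.pw r, ?_, ?_⟩
  · intro q x hq1 hq2 hx
    obtain ⟨ε, h1, h, h2, h3⟩ := hV.span r q hq1 hq2 (jo x) (by rw [← hNc]; exact hx.cc) hx.dk
    exact ⟨ε, h1, h, by rw [hNc]; exact h2, h3⟩
  set U := V.pw r with hUd
  intro q i q' i' x y x' y' hq hi hqi hq' hi' hqi' hx hy hx' hy' ε ε' h h' hε hε' hdis hh hh' he he'
    hB
  set w : P := x * sp q y + x' * sp q' y' with hw
  -- the cochain
  have hprod : ∀ (q i : ℕ) (x y : P) (ε : U.ι → ZMod 2) (h : RR Empty), 1 ≤ q → 1 ≤ i →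
      q + i = s + 1 → Cy q (2 ^ r * N0) x → Cy i c y → (∀ k, U.dg k ≠ q → ε k = 0) →
      TT (kun : Empty → Kd) (q - 1) ((2 ^ r * N0 : ℕ) : ℤ) 0 0 h →
      jo x = ∑ k, ε k • U.el k + dm kun q h →
      TT (kun : Empty → Kd) s ((2 ^ r * N0 : ℕ) + c) 0 0 (pr Empty (q - 1) h (jo y)) ∧
      Ph Empty U (fun k => ε k • jo y) = jo (x * sp q y) + Q171.ND3.dk s (pr Empty (q - 1) h (jo y)) := by
    intro q i x y ε h hq hi hqi hx hy hε hh he
    obtain ⟨q, rfl⟩ : ∃ q', q = q' + 1 := ⟨q - 1, by omega⟩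
    have hqi' : q + i = s := by omega
    rw [Nat.add_sub_cancel] at hh ⊢
    refine ⟨?_, ?_⟩
    · have := TT_pr hh hy.cc
      rwa [hqi'] at this
    · have h1 : Ph Empty U (fun k => ε k • jo y) = pr Empty (q + 1) (∑ k, ε k • U.el k) (jo y) := by
        rw [Ph_apply, pr_sum_left]
        refine sum_congr rfl fun k _ => ?_
        by_cases hk : U.dg k = q + 1
        · rw [hk]
          simp only [pr_apply, map_smul]
          rw [smul_mul_assoc]
        · rw [hε k hk, zero_smul, zero_smul, map_zero, pr_apply, map_zero, zero_mul]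
      have h2 : ∑ k, ε k • U.el k = jo x + Q171.ND3.dk q h := by
        have e3 : jo x = ∑ k, ε k • U.el k + Q171.ND3.dk q h := he
        rw [e3]
        have := p2_add_self (Q171.ND3.dk q h)
        linear_combination (-1 : RR Empty) * this
      have h3 : Q171.ND3.dk (q + i) (pr Empty q h (jo y)) = pr Empty (q + 1) (Q171.ND3.dk q h) (jo y) := by
        have h4 := dd_pr (kun : Empty → Kd) hh.cu hy.cc.cu
        have h5 : dd (kun : Empty → Kd) i (jo y) = 0 := hy.dk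
        rw [h5, map_zero, add_zero] at h4
        exact h4
      rw [h1, h2, pr_add_left, ← hqi', h3, jo_prod]
  obtain ⟨g, hg, hdg⟩ := B_to (t := 2 ^ r * N0 + c) (x := w)
    (IsWeightedHomogeneous.add (hx.hom.mul (sp_hom q hy.hom)) (hx'.hom.mul (sp_hom q' hy'.hom))) hB
  rw [Nat.add_sub_cancel] at hg
  obtain ⟨hT, hP⟩ := hprod q i x y ε h hq hi hqi hx hy hε hh he
  obtain ⟨hT', hP'⟩ := hprod q' i' x' y' ε' h' hq' hi' hqi' hx' hy' hε' hh' he'
  set G := g + pr Empty (q - 1) h (jo y) + pr Empty (q' - 1) h' (jo y') with hG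
  set a : U.ι → RR Empty := (fun k => ε k • jo y) + (fun k => ε' k • jo y') with ha
  have hPa : Ph Empty U a = Q171.ND3.dk s G := by
    have h1 : Q171.ND3.dk s g = jo w := hdg
    rw [ha, map_add, hP, hP', hG, map_add, map_add, h1, hw, map_add]
    abel
  have hS : SC (kun : Empty → Kd) U s (2 ^ r * (N0 : ℤ)) c 0 0 (G, a) := by
    refine SC.mk' ?_ ?_ ?_
    · have h1 : TT (kun : Empty → Kd) s ((2 ^ r * N0 : ℕ) + c) 0 0 G := by
        refine (TT.add ?_ hT).add hT'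
        have := hg
        push_cast at this ⊢
        exact this
      rw [hNc] at h1
      exact h1
    · intro k _
      change TT (kun : Empty → Kd) (s + 1 - U.dg k) c 0 0 (ε k • jo y + ε' k • jo y')
      refine TT.add ?_ ?_
      · by_cases hk : U.dg k = q
        · rw [hk, show s + 1 - q = i by omega]
          exact TT_smul _ hy.cc
        · rw [hε k hk, zero_smul]
          exact TT.zero
      · by_cases hk : U.dg k = q'
        · rw [hk, show s + 1 - q' = i' by omega]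
          exact TT_smul _ hy'.cc
        · rw [hε' k hk, zero_smul]
          exact TT.zero
    · intro k hk
      change ε k • jo y + ε' k • jo y' = 0
      rw [hε k (by omega), hε' k (by omega), zero_smul, zero_smul, add_zero]
  obtain ⟨H, hH, hHe⟩ := hex _ hS (by
    refine Prod.ext ?_ (funext fun k => ?_)
    · rw [cd_fst]
      change Q171.ND3.dk s G + Ph Empty U a = 0
      rw [hPa]
      exact p2_add_self _
    · rw [cd_snd]
      change Q171.ND3.dk (s + 1 - U.dg k) (ε k • jo y + ε' k • jo y') = 0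
      rw [map_add, map_smul, map_smul]
      have e1 : ε k • Q171.ND3.dk (s + 1 - U.dg k) (jo y) = 0 := by
        by_cases hk : U.dg k = q
        · rw [hk, show s + 1 - q = i by omega, hy.dk, smul_zero]
        · rw [hε k hk, zero_smul]
      have e2 : ε' k • Q171.ND3.dk (s + 1 - U.dg k) (jo y') = 0 := by
        by_cases hk : U.dg k = q'
        · rw [hk, show s + 1 - q' = i' by omega, hy'.dk, smul_zero]
        · rw [hε' k hk, zero_smul]
      rw [e1, e2, add_zero])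
  obtain ⟨s, rfl⟩ : ∃ s', s = s' + 1 := ⟨s - 1, by omega⟩
  have hHk : ∀ k, Q171.ND3.dk (s + 1 - U.dg k) (H.2 k) = ε k • jo y + ε' k • jo y' := fun k =>
    congrFun (congrArg Prod.snd hHe) k
  have hone : ∀ c : ZMod 2, c ≠ 0 → c = 1 := by decide
  constructor
  · by_cases h0 : ε = 0
    · left
      refine B_of hh ?_
      rw [he, h0]
      simp
    · right
      obtain ⟨k, hk⟩ := Function.ne_iff.mp h0
      have hk' : ε k ≠ 0 := hk
      have hdk : U.dg k = q := by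
        by_contra h1
        exact hk' (hε k h1)
      have h2 := hHk k
      rw [hone _ hk', (hdis k).resolve_left hk', one_smul, zero_smul, add_zero, hdk] at h2
      have h3 := hH.t1 k (by omega)
      rw [hdk, show s + 1 - 1 + 1 - q = i - 1 by omega] at h3
      obtain ⟨i, rfl⟩ : ∃ j, i = j + 1 := ⟨i - 1, by omega⟩
      rw [show s + 1 - q = i by omega] at h2
      exact B_of (t := c) (s := i + 1) h3 h2
  · by_cases h0 : ε' = 0
    · left
      refine B_of hh' ?_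
      rw [he', h0]
      simp
    · right
      obtain ⟨k, hk⟩ := Function.ne_iff.mp h0
      have hk' : ε' k ≠ 0 := hk
      have hdk : U.dg k = q' := by
        by_contra h1
        exact hk' (hε' k h1)
      have h2 := hHk k
      rw [hone _ hk', (hdis k).resolve_right hk', one_smul, zero_smul, zero_add, hdk] at h2
      have h3 := hH.t1 k (by omega)
      rw [hdk, show s + 1 - 1 + 1 - q' = i' - 1 by omega] at h3
      obtain ⟨i', rfl⟩ : ∃ j, i' = j + 1 := ⟨i' - 1, by omega⟩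
      rw [show s + 1 - q' = i' by omega] at h2
      exact B_of (t := c) (s := i' + 1) h3 h2

/-- the structure theorem: injectivity for the sum of two products in different degrees -/
theorem S2 (s c : ℕ) : ∃ K, ∀ N, 0 < N → 2 ^ K ∣ N →
    ∀ q i q' i' x y x' y', 1 ≤ q → 1 ≤ i → q + i = s + 1 → 1 ≤ q' → 1 ≤ i' → q' + i' = s + 1 →
      q ≠ q' → Cy q N x → Cy i c y → Cy q' N x' → Cy i' c y' →
      x * sp q y + x' * sp q' y' ∈ B (s + 1) → (x ∈ B q ∨ y ∈ B i) ∧ (x' ∈ B q' ∨ y' ∈ B i') := by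
  obtain ⟨K, hK⟩ := S2core s c
  refine ⟨K, fun N hN0 hN => ?_⟩
  obtain ⟨U, h1, h2⟩ := hK N hN0 hN
  intro q i q' i' x y x' y' hq hi hqi hq' hi' hqi' hne hx hy hx' hy' hB
  obtain ⟨ε, hε, h, hh, he⟩ := h1 q x hq (by omega) hx
  obtain ⟨ε', hε', h', hh', he'⟩ := h1 q' x' hq' (by omega) hx'
  refine h2 q i q' i' x y x' y' hq hi hqi hq' hi' hqi' hx hy hx' hy' ε ε' h h' hε hε' ?_ hh hh'
    he he' hB
  intro k
  by_cases hk : U.dg k = q
  · right
    exact hε' k (by omega)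
  · left
    exact hε k hk

/-- the structure theorem: injectivity for one product -/
theorem S2one (s c : ℕ) : ∃ K, ∀ N, 0 < N → 2 ^ K ∣ N →
    ∀ q i x y, 1 ≤ q → 1 ≤ i → q + i = s + 1 → Cy q N x → Cy i c y →
      x * sp q y ∈ B (s + 1) → x ∈ B q ∨ y ∈ B i := by
  obtain ⟨K, hK⟩ := S2core s c
  refine ⟨K, fun N hN0 hN => ?_⟩
  obtain ⟨U, h1, h2⟩ := hK N hN0 hN
  intro q i x y hq hi hqi hx hy hB
  obtain ⟨ε, hε, h, hh, he⟩ := h1 q x hq (by omega) hx
  refine (h2 q i q i x y 0 0 hq hi hqi hq hi hqi hx hy (Cy.zero _ _) (Cy.zero _ _) ε 0 h 0 hε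
    (fun _ _ => rfl) (fun _ => Or.inr rfl) hh TT.zero he ?_ ?_).1
  · simp
  · rw [zero_mul, add_zero]
    exact hB

end Pool.Agent.H92ND
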