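import Pool.Agent.H92ND.K

/-!
The Cartan formula for `Sq¹`.
-/

set_option autoImplicit false
set_option linter.unusedSectionVars false

namespace Pool.Agent.H92ND

open Finset MvPolynomial Pool.Agent.Q171.ND3 Pool.Agent.Q171.ND3.St

section e2

variable {R : Type*} [CommRing R]

/-- sum over the even indices -/
def SE (n : ℕ) (f : ℕ → R) : R := ∑ j ∈ range n, if Even j then f j else 0

/-- sum over the odd indices -/
def SO (n : ℕ) (f : ℕ → R) : R := ∑ j ∈ range n, if Even j then 0 else f j

/-- sum of the products of two members whose indices have the same parity -/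
def E2 (n : ℕ) (f : ℕ → R) : R :=
  ∑ j ∈ range n, f j * (if Even j then SE j f else SO j f)

theorem SE_add_SO (n : ℕ) (f : ℕ → R) : SE n f + SO n f = ∑ j ∈ range n, f j := by
  rw [SE, SO, ← sum_add_distrib]
  refine sum_congr rfl fun j _ => ?_
  split_ifs <;> simp

theorem SE_succ (n : ℕ) (f : ℕ → R) : SE (n + 1) f = SE n f + if Even n then f n else 0 := by
  rw [SE, sum_range_succ]; rfl

theorem SO_succ (n : ℕ) (f : ℕ → R) : SO (n + 1) f = SO n f + if Even n then 0 else f n := by
  rw [SO, sum_range_succ]; rfl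

theorem E2_succ (n : ℕ) (f : ℕ → R) :
    E2 (n + 1) f = E2 n f + f n * (if Even n then SE n f else SO n f) := by
  rw [E2, sum_range_succ]; rfl

theorem SE_cat (m n : ℕ) (f : ℕ → R) : SE (m + n) f
    = SE m f + if Even m then SE n (fun i => f (m + i)) else SO n (fun i => f (m + i)) := by
  induction n with
  | zero => simp [SE, SO]
  | succ n ih =>
    rw [← add_assoc, SE_succ, ih, SE_succ, SO_succ]
    by_cases hm : Even m <;> by_cases hn : Even n <;>
      simp [hm, hn, Nat.even_add, add_assoc]

theorem SO_cat (m n : ℕ) (f : ℕ → R) : SO (m + n) f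
    = SO m f + if Even m then SO n (fun i => f (m + i)) else SE n (fun i => f (m + i)) := by
  induction n with
  | zero => simp [SE, SO]
  | succ n ih =>
    rw [← add_assoc, SO_succ, ih, SE_succ, SO_succ]
    by_cases hm : Even m <;> by_cases hn : Even n <;>
      simp [hm, hn, Nat.even_add, add_assoc]

theorem E2_cat (m n : ℕ) (f : ℕ → R) : E2 (m + n) f = E2 m f + E2 n (fun i => f (m + i))
    + if Even m then SE m f * SE n (fun i => f (m + i)) + SO m f * SO n (fun i => f (m + i))
      else SE m f * SO n (fun i => f (m + i)) + SO m f * SE n (fun i => f (m + i)) := by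
  induction n with
  | zero => simp [SE, SO, E2]
  | succ n ih =>
    rw [← add_assoc, E2_succ, ih, E2_succ, SE_succ, SO_succ, SE_cat, SO_cat]
    by_cases hm : Even m <;> by_cases hn : Even n <;>
      simp only [hm, hn, Nat.even_add, if_true, if_false, iff_true, iff_false, not_true,
        add_zero] <;> ring

theorem SE_congr {n : ℕ} {f g : ℕ → R} (h : ∀ j < n, f j = g j) : SE n f = SE n g :=
  sum_congr rfl fun j hj => by rw [h j (mem_range.mp hj)]

theorem SO_congr {n : ℕ} {f g : ℕ → R} (h : ∀ j < n, f j = g j) : SO n f = SO n g :=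
  sum_congr rfl fun j hj => by rw [h j (mem_range.mp hj)]

theorem E2_congr {n : ℕ} {f g : ℕ → R} (h : ∀ j < n, f j = g j) : E2 n f = E2 n g :=
  sum_congr rfl fun j hj => by
    have hj' := mem_range.mp hj
    rw [h j hj', SE_congr fun i hi => h i (by omega), SO_congr fun i hi => h i (by omega)]

theorem SE_mul (n : ℕ) (f : ℕ → R) (c : R) : SE n (fun i => f i * c) = SE n f * c := by
  rw [SE, SE, sum_mul]
  exact sum_congr rfl fun j _ => by split_ifs <;> simp

theorem SO_mul (n : ℕ) (f : ℕ → R) (c : R) : SO n (fun i => f i * c) = SO n f * c := by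
  rw [SO, SO, sum_mul]
  exact sum_congr rfl fun j _ => by split_ifs <;> simp

theorem E2_mul (n : ℕ) (f : ℕ → R) (c : R) : E2 n (fun i => f i * c) = E2 n f * c ^ 2 := by
  rw [E2, E2, sum_mul]
  refine sum_congr rfl fun j _ => ?_
  rw [SE_mul, SO_mul]
  split_ifs <;> ring

theorem SE_hom {S : Type*} [CommRing S] (φ : R →+* S) (n : ℕ) (f : ℕ → R) :
    φ (SE n f) = SE n (fun i => φ (f i)) := by
  rw [SE, SE, map_sum]
  exact sum_congr rfl fun j _ => by split_ifs <;> simp

theorem SO_hom {S : Type*} [CommRing S] (φ : R →+* S) (n : ℕ) (f : ℕ → R) :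
    φ (SO n f) = SO n (fun i => φ (f i)) := by
  rw [SO, SO, map_sum]
  exact sum_congr rfl fun j _ => by split_ifs <;> simp

theorem E2_hom {S : Type*} [CommRing S] (φ : R →+* S) (n : ℕ) (f : ℕ → R) :
    φ (E2 n f) = E2 n (fun i => φ (f i)) := by
  rw [E2, E2, map_sum]
  refine sum_congr rfl fun j _ => ?_
  rw [map_mul, ← SE_hom, ← SO_hom]
  split_ifs <;> rfl

end e2

/-! ### `Sq¹` as a sum over pairs of faces -/

theorem mem_ev0_pair {i j u : ℕ} (h : i < j) :
    u ∈ ev0 {i, j} ↔ (u = i ∧ Even i) ∨ (u = j ∧ ¬ Even j) := by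
  have hi : (({i, j} : Finset ℕ).filter (· < i)) = ∅ := by
    ext x; simp only [mem_filter, mem_insert, mem_singleton, notMem_empty, iff_false]; omega
  have hj : (({i, j} : Finset ℕ).filter (· < j)) = {i} := by
    ext x; simp only [mem_filter, mem_insert, mem_singleton]; omega
  rw [ev0, mem_filter, mem_insert, mem_singleton]
  constructor
  · rintro ⟨rfl | rfl, h2⟩
    · rw [hi, card_empty, add_zero] at h2
      exact Or.inl ⟨rfl, h2⟩
    · rw [hj, card_singleton, Nat.even_add_one] at h2
      exact Or.inr ⟨rfl, h2⟩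
  · rintro (⟨rfl, h2⟩ | ⟨rfl, h2⟩)
    · rw [hi, card_empty, add_zero]
      exact ⟨Or.inl rfl, h2⟩
    · rw [hj, card_singleton, Nat.even_add_one]
      exact ⟨Or.inr rfl, h2⟩

theorem mem_ev1_pair {i j u : ℕ} (h : i < j) :
    u ∈ ev1 {i, j} ↔ (u = i ∧ ¬ Even i) ∨ (u = j ∧ Even j) := by
  have hi : (({i, j} : Finset ℕ).filter (· < i)) = ∅ := by
    ext x; simp only [mem_filter, mem_insert, mem_singleton, notMem_empty, iff_false]; omega
  have hj : (({i, j} : Finset ℕ).filter (· < j)) = {i} := by
    ext x; simp only [mem_filter, mem_insert, mem_singleton]; omega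
  rw [ev1, mem_filter, mem_insert, mem_singleton]
  constructor
  · rintro ⟨rfl | rfl, h2⟩
    · rw [hi, card_empty, add_zero] at h2
      exact Or.inl ⟨rfl, h2⟩
    · rw [hj, card_singleton, Nat.even_add_one, not_not] at h2
      exact Or.inr ⟨rfl, h2⟩
  · rintro (⟨rfl, h2⟩ | ⟨rfl, h2⟩)
    · rw [hi, card_empty, add_zero]
      exact ⟨Or.inl rfl, h2⟩
    · rw [hj, card_singleton, Nat.even_add_one, not_not]
      exact ⟨Or.inr rfl, h2⟩

theorem ev_pair_even {i j : ℕ} (h : i < j) (hi : Even i) (hj : Even j) :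
    ev0 {i, j} = {i} ∧ ev1 {i, j} = {j} := by
  constructor
  · ext u
    rw [mem_ev0_pair h, mem_singleton]
    simp [hi, hj]
  · ext u
    rw [mem_ev1_pair h, mem_singleton]
    simp [hi, hj]

theorem ev_pair_odd {i j : ℕ} (h : i < j) (hi : ¬ Even i) (hj : ¬ Even j) :
    ev0 {i, j} = {j} ∧ ev1 {i, j} = {i} := by
  constructor
  · ext u
    rw [mem_ev0_pair h, mem_singleton]
    simp [hi, hj]
  · ext u
    rw [mem_ev1_pair h, mem_singleton]
    simp [hi, hj]

theorem faces_single (u : ℕ) (x : P) : faces {u} x = face u x := by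
  simp [faces]

theorem sq1_eq (s : ℕ) (x : P) : sqC 1 s x = E2 (s + 2) (fun j => face j x) := by
  have h1 : E2 (s + 2) (fun j => face j x) = ∑ p ∈ (range (s + 2) ×ˢ range (s + 2)) with
      (p.1 < p.2 ∧ (Even p.1 ↔ Even p.2)), face p.1 x * face p.2 x := by
    rw [sum_filter, sum_product_right, E2]
    refine sum_congr rfl fun j hj => ?_
    rw [mem_range] at hj
    have h2 : ∑ i ∈ range (s + 2), (if (i < j ∧ (Even i ↔ Even j)) then face i x * face j x else 0)
        = ∑ i ∈ range j, (if (Even i ↔ Even j) then face i x * face j x else 0) := by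
      rw [← sum_subset (range_subset_range.mpr hj.le)]
      · refine sum_congr rfl fun i hi => ?_
        rw [mem_range] at hi
        simp [hi]
      · intro i _ hi
        rw [mem_range] at hi
        rw [if_neg (by tauto)]
    rw [h2]
    by_cases he : Even j
    · rw [if_pos he, SE, mul_sum]
      refine sum_congr rfl fun i _ => ?_
      by_cases hi : Even i <;> simp [hi, he, mul_comm]
    · rw [if_neg he, SO, mul_sum]
      refine sum_congr rfl fun i _ => ?_
      by_cases hi : Even i <;> simp [hi, he, mul_comm]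
  rw [h1, sqC]
  symm
  refine sum_bij (fun p _ => ({p.1, p.2} : Finset ℕ)) ?_ ?_ ?_ ?_
  · rintro ⟨i, j⟩ hp
    simp only [mem_filter, mem_product, mem_range, mem_powerset] at hp ⊢
    obtain ⟨⟨hi, hj⟩, hij, hpar⟩ := hp
    refine ⟨?_, ?_⟩
    · intro u hu
      simp only [mem_insert, mem_singleton] at hu
      rw [mem_range]
      omega
    · by_cases he : Even i
      · obtain ⟨e0, e1⟩ := ev_pair_even hij he (hpar.mp he)
        rw [e0, e1]; simp
      · obtain ⟨e0, e1⟩ := ev_pair_odd hij he (fun h => he (hpar.mpr h))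
        rw [e0, e1]; simp
  · rintro ⟨i, j⟩ hp ⟨i', j'⟩ hp' he
    simp only [mem_filter, mem_product, mem_range] at hp hp'
    simp only at he
    have e1 : i ∈ ({i', j'} : Finset ℕ) := he ▸ mem_insert_self _ _
    have e2 : j ∈ ({i', j'} : Finset ℕ) := he ▸ (mem_insert_of_mem (mem_singleton_self _))
    simp only [mem_insert, mem_singleton] at e1 e2
    obtain ⟨_, h3, _⟩ := hp
    obtain ⟨_, h4, _⟩ := hp'
    ext <;> simp only <;> omega
  · intro U hU
    simp only [mem_filter, mem_powerset] at hU
    obtain ⟨hU1, hU2, hU3⟩ := hU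
    have hcard : U.card = 2 := by
      have := card_union_of_disjoint (ev0_disj U)
      rw [ev0_union, hU2, hU3] at this
      exact this
    obtain ⟨a, b, hab, rfl⟩ := card_eq_two.mp hcard
    have key : ∀ i j : ℕ, i < j → ({i, j} : Finset ℕ) ⊆ range (s + 1 + 1) →
        (ev0 {i, j}).card = 1 → (ev1 {i, j}).card = 1 →
        ((i, j) : ℕ × ℕ) ∈ (range (s + 2) ×ˢ range (s + 2)).filter
          (fun p => p.1 < p.2 ∧ (Even p.1 ↔ Even p.2)) := by
      intro i j hij hsub h0 h1
      have hi := hsub (mem_insert_self i {j})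
      have hj := hsub (mem_insert_of_mem (mem_singleton_self j))
      rw [mem_filter, mem_product]
      refine ⟨⟨hi, hj⟩, hij, ?_⟩
      by_contra hne
      by_cases he : Even i
      · have ho : ¬ Even j := fun h => hne ⟨fun _ => h, fun _ => he⟩
        have : ev1 {i, j} = ∅ := by
          ext u
          rw [mem_ev1_pair hij]
          simp [he, ho]
        rw [this] at h1
        simp at h1
      · have ho : Even j := by
          by_contra h
          exact hne ⟨fun h' => absurd h' he, fun h' => absurd h' h⟩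
        have : ev0 {i, j} = ∅ := by
          ext u
          rw [mem_ev0_pair hij]
          simp [he, ho]
        rw [this] at h0
        simp at h0
    rcases Nat.lt_or_gt_of_ne hab with h | h
    · exact ⟨(a, b), key a b h hU1 hU2 hU3, rfl⟩
    · have e : ({a, b} : Finset ℕ) = {b, a} := pair_comm a b
      rw [e] at hU1 hU2 hU3 ⊢
      exact ⟨(b, a), key b a h hU1 hU2 hU3, rfl⟩
  · rintro ⟨i, j⟩ hp
    simp only [mem_filter, mem_product, mem_range] at hp
    obtain ⟨_, hij, hpar⟩ := hp
    by_cases he : Even i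
    · obtain ⟨e0, e1⟩ := ev_pair_even hij he (hpar.mp he)
      simp only
      rw [e0, e1, faces_single, faces_single]
    · obtain ⟨e0, e1⟩ := ev_pair_odd hij he (fun h => he (hpar.mpr h))
      simp only
      rw [e0, e1, faces_single, faces_single, mul_comm]

/-! ### The Cartan formula -/

theorem sp_ξ (m a n : ℕ) : sp m (ξ a n) = ξ (m + a) n := by
  cases n with
  | zero => exact map_one _
  | succ n => exact sp_X m a n

theorem face_sp_lo {p j : ℕ} (hj : j ≤ p) (b : P) : face j (sp p b) = sp (p + 1) b := by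
  have : (face j).comp (sp p) = sp (p + 1) := by
    apply algHom_ext
    rintro ⟨a, n⟩
    rw [AlgHom.comp_apply, sp_X, sp_X, face, aeval_X]
    simp only
    rw [if_neg (by omega), if_pos (by omega)]
    change (X (p + a + 1, n) : P) = X (p + 1 + a, n)
    rw [show p + a + 1 = p + 1 + a by omega]
  exact DFunLike.congr_fun this b

theorem face_sp_hi (p i : ℕ) (_ : 1 ≤ i) (b : P) : face (p + i) (sp p b) = sp p (face i b) := by
  have : (face (p + i)).comp (sp p) = (sp p).comp (face i) := by
    apply algHom_ext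
    rintro ⟨a, n⟩
    rw [AlgHom.comp_apply, AlgHom.comp_apply, sp_X, face, face, aeval_X, aeval_X]
    simp only
    rcases lt_trichotomy (a + 1) i with h | h | h
    · rw [if_pos (by omega), if_pos (by omega), sp_ξ]
    · rw [if_neg (by omega), if_neg (by omega), if_neg (by omega), if_neg (by omega), map_sum]
      refine sum_congr rfl fun l _ => ?_
      rw [map_mul, map_pow, sp_ξ, sp_ξ]
      rfl
    · rw [if_neg (by omega), if_pos (by omega), if_neg (by omega), if_pos (by omega), sp_ξ]
      rfl
  exact DFunLike.congr_fun this b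

/-- the Cartan formula for `Sq¹` -/
theorem cartan1 {p q : ℕ} {a b : P} (ha : a ∈ St.C p) (hda : d p a = 0) (hdb : d q b = 0) :
    sqC 1 (p + q) (a * sp p b) = sqC 1 p a * sp (p + 1) (b ^ 2) + a ^ 2 * sp p (sqC 1 q b) := by
  set A : ℕ → P := fun j => face j a with hA
  set B : ℕ → P := fun j => face j b with hB
  set b' : P := sp (p + 1) b with hb'
  have hApa : A (p + 1) = a := face_of_C ha (Nat.lt_succ_self p)
  have hB0 : sp p (B 0) = b' := by
    have h1 : B 0 = sp 1 b := by
      have h2 := face_sp_lo (p := 0) (j := 0) le_rfl b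
      have h3 : sp 0 b = b := by
        have : sp 0 = AlgHom.id (ZMod 2) P := by
          apply algHom_ext
          rintro ⟨a, n⟩
          rw [sp_X, zero_add]; rfl
        rw [this]; rfl
      rw [h3] at h2
      exact h2
    rw [h1, hb']
    have : (sp p).comp (sp 1) = sp (p + 1) := by
      apply algHom_ext
      rintro ⟨a, n⟩
      rw [AlgHom.comp_apply, sp_X, sp_X, sp_X, add_assoc]
    exact DFunLike.congr_fun this b
  -- the faces of the product
  have hX1 : ∀ j < p + 1, face j (a * sp p b) = A j * b' := by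
    intro j hj
    rw [map_mul, face_sp_lo (by omega)]
  have hX2 : ∀ i, face (p + 1 + i) (a * sp p b) = a * sp p (B (i + 1)) := by
    intro i
    rw [map_mul, show p + 1 + i = p + (i + 1) by omega, face_sp_hi p (i + 1) (by omega),
      face_of_C ha (by omega)]
  -- the sums
  have hsA : SE (p + 1) A + SO (p + 1) A = a := by
    rw [SE_add_SO]
    have h1 : ∑ j ∈ range (p + 1), A j + A (p + 1) = 0 := by
      rw [← sum_range_succ]
      rw [d, LinearMap.sum_apply] at hda
      exact hda
    rw [hApa] at h1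
    linear_combination h1 - P2 a
  set βe : P := sp p (SE (q + 1) (fun i => B (i + 1))) with hβe
  set βo : P := sp p (SO (q + 1) (fun i => B (i + 1))) with hβo
  have hsB : βe + βo = b' := by
    rw [hβe, hβo, ← map_add, SE_add_SO, ← hB0]
    congr 1
    have h1 : ∑ j ∈ range (q + 1), B (j + 1) + B 0 = 0 := by
      rw [← sum_range_succ']
      rw [d, LinearMap.sum_apply] at hdb
      exact hdb
    linear_combination h1 - P2 (B 0)
  have hEX : sqC 1 (p + q) (a * sp p b) = E2 (p + 1) A * b' ^ 2
      + sp p (E2 (q + 1) (fun i => B (i + 1))) * a ^ 2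
      + if Even (p + 1) then SE (p + 1) A * b' * (βe * a) + SO (p + 1) A * b' * (βo * a)
        else SE (p + 1) A * b' * (βo * a) + SO (p + 1) A * b' * (βe * a) := by
    rw [sq1_eq, show p + q + 2 = (p + 1) + (q + 1) by omega, E2_cat]
    have e1 : E2 (p + 1) (fun j => face j (a * sp p b)) = E2 (p + 1) A * b' ^ 2 := by
      rw [← E2_mul]; exact E2_congr hX1
    have e2 : SE (p + 1) (fun j => face j (a * sp p b)) = SE (p + 1) A * b' := by
      rw [← SE_mul]; exact SE_congr hX1
    have e3 : SO (p + 1) (fun j => face j (a * sp p b)) = SO (p + 1) A * b' := by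
      rw [← SO_mul]; exact SO_congr hX1
    have e4 : (fun i => face (p + 1 + i) (a * sp p b)) = fun i => sp p (B (i + 1)) * a :=
      funext fun i => by rw [hX2, mul_comm]
    have e5 : sp p (E2 (q + 1) (fun i => B (i + 1))) = E2 (q + 1) (fun i => sp p (B (i + 1))) :=
      E2_hom (sp p).toRingHom _ _
    have e6 : βe = SE (q + 1) (fun i => sp p (B (i + 1))) := SE_hom (sp p).toRingHom _ _
    have e7 : βo = SO (q + 1) (fun i => sp p (B (i + 1))) := SO_hom (sp p).toRingHom _ _
    rw [e1, e2, e3, e4, E2_mul, SE_mul, SO_mul, ← e5, ← e6, ← e7]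
  have hEA : sqC 1 p a = E2 (p + 1) A + a * (if Even (p + 1) then SE (p + 1) A
      else SO (p + 1) A) := by
    rw [sq1_eq, E2_succ]
    change E2 (p + 1) A + A (p + 1) * _ = _
    rw [hApa]
  have hEB : sp p (sqC 1 q b) = sp p (E2 (q + 1) (fun i => B (i + 1))) + b' * βo := by
    have h1 : sqC 1 q b = E2 (q + 1) (fun i => B (i + 1))
        + B 0 * SO (q + 1) (fun i => B (i + 1)) := by
      rw [sq1_eq, show q + 2 = 1 + (q + 1) by omega, E2_cat]
      have e1 : E2 1 (fun j => face j b) = 0 := by simp [E2, SE]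
      have e2 : SE 1 (fun j => face j b) = B 0 := by simp [SE, hB]
      have e3 : SO 1 (fun j => face j b) = 0 := by simp [SO]
      rw [if_neg (by decide), e1, e2, e3, zero_mul, add_zero, zero_add]
      have e4 : (fun i => face (1 + i) b) = fun i => B (i + 1) := funext fun i => by
        rw [add_comm]
      rw [e4]
    rw [h1, map_add, map_mul, hB0]
  rw [hEX, hEA, hEB, map_pow, ← hb']
  have h2 : (2 : P) = 0 := CharTwo.two_eq_zero
  clear_value A B b' βe βo
  by_cases he : Even (p + 1)
  · rw [if_pos he, if_pos he, ← hsB]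
    linear_combination (-(a * (βe + βo) * SE (p + 1) A * βo)) * h2
      + ((βe + βo) * βo * a) * hsA
  · rw [if_neg he, if_neg he, ← hsB]
    linear_combination (-(a * (βe + βo) * SO (p + 1) A * βo)) * h2
      + ((βe + βo) * βo * a) * hsA

end Pool.Agent.H92ND
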