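import Pool.Agent.H92ND.L

/-!
Nonzero cohomology groups: weights, vanishing, products, squares.
-/

set_option autoImplicit false
set_option linter.unusedSectionVars false

namespace Pool.Agent.H92ND

open Finset MvPolynomial Pool.Agent.W624.Stz Pool.Agent.Q171.ND3 Pool.Agent.Q171.ND3.St

/-- the group `Ext^{s,t}` is not zero -/
def Nz (s t : ℕ) : Prop := ∃ x, Cy s t x ∧ x ∉ B s

/-! ### Products -/

theorem d_prod {p q : ℕ} {a b : P} (ha : a ∈ St.C p) (hb : b ∈ St.C q) :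
    d (p + q) (a * sp p b) = d p a * sp (p + 1) b + a * sp p (d q b) := by
  have hab : a * sp p b ∈ St.C (p + q) := C_mul (C_mono (Nat.le_add_right _ _) ha) (sp_C p hb)
  apply jo_inj
  rw [jo_d hab, jo_prod]
  have h := dd_pr (kun : Empty → Kd) (cut_jo ha) (cut_jo hb)
  have h1 : Q171.ND3.dk (p + q) (pr Empty p (jo a) (jo b)) = _ := h
  rw [h1, map_add, jo_prod, jo_prod, jo_d ha, jo_d hb]

theorem Cy.prod {p q t u : ℕ} {a b : P} (ha : Cy p t a) (hb : Cy q u b) :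
    Cy (p + q) (t + u) (a * sp p b) :=
  ⟨C_mul (C_mono (Nat.le_add_right _ _) ha.mem) (sp_C p hb.mem), ha.hom.mul (sp_hom p hb.hom),
    by rw [d_prod ha.mem hb.mem, ha.cyc, hb.cyc, zero_mul, map_zero, mul_zero, add_zero]⟩

theorem mulB_left {p q : ℕ} {a b : P} (ha : a ∈ B p) (hb : b ∈ St.C q) (hdb : d q b = 0) :
    a * sp p b ∈ B (p + q) := by
  cases p with
  | zero =>
    rw [B, Submodule.mem_bot] at ha
    rw [ha, zero_mul]
    exact Submodule.zero_mem _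
  | succ p =>
    obtain ⟨y, hy, rfl⟩ := ha
    rw [show p + 1 + q = p + q + 1 by omega]
    refine ⟨y * sp p b, C_mul (C_mono (Nat.le_add_right _ _) hy) (sp_C p hb), ?_⟩
    rw [d_prod hy hb, hdb, map_zero, mul_zero, add_zero]

theorem mulB_right {p q : ℕ} {a b : P} (ha : a ∈ St.C p) (hda : d p a = 0) (hb : b ∈ B q) :
    a * sp p b ∈ B (p + q) := by
  cases q with
  | zero =>
    rw [B, Submodule.mem_bot] at hb
    rw [hb, map_zero, mul_zero]
    exact Submodule.zero_mem _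
  | succ q =>
    obtain ⟨y, hy, rfl⟩ := hb
    refine ⟨a * sp p y, C_mul (C_mono (Nat.le_add_right _ _) ha) (sp_C p hy), ?_⟩
    change d (p + q) _ = _
    rw [d_prod ha hy, hda, zero_mul, zero_add]

/-! ### Squares -/

/-- `Sq⁰` is bijective on the groups `Ext^{q,N}` with `2 ^ m0 ∣ N` -/
def Good (m0 q : ℕ) : Prop := ∀ N, 2 ^ m0 ∣ N →
  (∀ x, Cy q N x → x ^ 2 ∈ B q → x ∈ B q) ∧
    ∀ w, Cy q (2 * N) w → ∃ u, Cy q N u ∧ w + u ^ 2 ∈ B q

theorem exists_good1 (q : ℕ) : ∃ m0, ∀ m, m0 ≤ m → Good m (q + 1) := by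
  obtain ⟨r1, h1⟩ := hd_nat (e_inj q)
  obtain ⟨r2, h2⟩ := hd_nat (e_sq q)
  refine ⟨r1 + r2, fun m hm N hN => ⟨fun x hx hB => ?_, fun w hw => ?_⟩⟩
  · obtain ⟨g, hg, hdg⟩ := B_to (hx.hom.pow 2) hB
    have e1 : ((2 * N : ℕ) : ℤ) = 2 * (N : ℤ) := by push_cast; rfl
    rw [e1, Nat.add_sub_cancel] at hg
    obtain ⟨z', hz', hdz'⟩ := h1 N (dvd_trans (pow_dvd_pow 2 (by omega)) hN) _ hx.cc g hg (by
      rw [← jo_sq]; exact hdg)
    exact B_of (s := q + 1) hz' hdz'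
  · have hc := hw.cc
    push_cast at hc
    obtain ⟨u, hu, hdu, h, hh, he⟩ := h2 N (dvd_trans (pow_dvd_pow 2 (by omega)) hN) _ hc hw.dk
    refine ⟨po u, Cy_po hu hdu, po h, C_po hh.cu, ?_⟩
    have e1 : CC q ((2 * N : ℕ) : ℤ) 0 h := by push_cast; exact hh
    rw [← po_dk e1]
    have h3 := congrArg po he
    rw [po_jo, map_add, PHI_sq, map_pow] at h3
    have := P2 (po u ^ 2)
    change po (Q171.ND3.dk q h) = _
    rw [h3]
    linear_combination (-1 : P) * this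

theorem exists_good' (s : ℕ) : ∃ m0, ∀ m, m0 ≤ m → ∀ q, 1 ≤ q → q ≤ s → Good m q := by
  induction s with
  | zero => exact ⟨0, fun m _ q h1 h2 => absurd h1 (by omega)⟩
  | succ s ih =>
    obtain ⟨m1, h1⟩ := ih
    obtain ⟨m2, h2⟩ := exists_good1 s
    refine ⟨m1 + m2, fun m hm q hq1 hq2 => ?_⟩
    rcases Nat.lt_or_ge s q with h | h
    · have : q = s + 1 := by omega
      subst this
      exact h2 m (by omega)
    · exact h1 m (by omega) q hq1 h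

theorem Cy.pow2 {s t : ℕ} {x : P} (hx : Cy s t x) (k : ℕ) : Cy s (2 ^ k * t) (x ^ 2 ^ k) := by
  induction k with
  | zero => simpa using hx
  | succ k ih =>
    have := ih.sq
    rwa [← mul_assoc, ← pow_succ', ← pow_mul, ← pow_succ] at this

theorem Good.inj {m0 q N : ℕ} (h : Good m0 q) (hN : 2 ^ m0 ∣ N) {x : P} (hx : Cy q N x) (k : ℕ)
    (hB : x ^ 2 ^ k ∈ B q) : x ∈ B q := by
  induction k with
  | zero => simpa using hB
  | succ k ih =>
    apply ih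
    refine (h (2 ^ k * N) (Dvd.dvd.mul_left hN _)).1 _ (hx.pow2 k) ?_
    rwa [← pow_mul, ← pow_succ]

theorem Good.surj {m0 q N : ℕ} (h : Good m0 q) (hN : 2 ^ m0 ∣ N) (k : ℕ) : ∀ {w : P},
    Cy q (2 ^ k * N) w → ∃ u, Cy q N u ∧ w + u ^ 2 ^ k ∈ B q := by
  induction k with
  | zero =>
    intro w hw
    refine ⟨w, by simpa using hw, ?_⟩
    rw [pow_zero, pow_one, P2]
    exact Submodule.zero_mem _
  | succ k ih =>
    intro w hw
    rw [pow_succ', mul_assoc] at hw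
    obtain ⟨v, hv, hB⟩ := (h (2 ^ k * N) (Dvd.dvd.mul_left hN _)).2 w hw
    obtain ⟨u, hu, hB'⟩ := ih hv
    refine ⟨u, hu, ?_⟩
    have h1 := frob_B _ hB'
    rw [frob_apply, add_pow_char, ← pow_mul, ← pow_succ] at h1
    have h2 := Submodule.add_mem _ hB h1
    have := P2 (v ^ 2)
    have e : w + v ^ 2 + (v ^ 2 + u ^ 2 ^ (k + 1)) = w + u ^ 2 ^ (k + 1) := by
      linear_combination this
    rwa [e] at h2

theorem Nz.up {m0 q N : ℕ} (h : Good m0 q) (hN : 2 ^ m0 ∣ N) (k : ℕ) (hz : Nz q N) :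
    Nz q (2 ^ k * N) := by
  obtain ⟨x, hx, hB⟩ := hz
  exact ⟨_, hx.pow2 k, fun h' => hB (h.inj hN hx k h')⟩

theorem Nz.down {m0 q N : ℕ} (h : Good m0 q) (hN : 2 ^ m0 ∣ N) (k : ℕ) (hz : Nz q (2 ^ k * N)) :
    Nz q N := by
  obtain ⟨w, hw, hB⟩ := hz
  obtain ⟨u, hu, hB'⟩ := h.surj hN k hw
  refine ⟨u, hu, fun h' => hB ?_⟩
  have h1 : u ^ 2 ^ k ∈ B q := by
    clear hB' hu hw hB
    induction k with
    | zero => simpa using h'
    | succ k ih =>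
      have := frob_B _ ih
      rwa [frob_apply, ← pow_mul, ← pow_succ] at this
  have h2 := Submodule.add_mem _ hB' h1
  have := P2 (u ^ 2 ^ k)
  have e : w + u ^ 2 ^ k + u ^ 2 ^ k = w := by linear_combination this
  rwa [e] at h2

/-! ### Weights and vanishing -/

theorem Nz.wd {q t : ℕ} (h : Nz q t) : Wd q q (t : ℤ) := by
  by_contra hW
  obtain ⟨x, hx, hB⟩ := h
  obtain ⟨g, hg, hdg⟩ := mainWE q t hW (jo x) hx.cc hx.dk
  exact hB (B_of hg hdg)

theorem Nz.van (q m : ℕ) (hm : 1 ≤ m) : ∃ R : ℕ, ∀ N : ℤ, 2 ^ R ∣ N → ∀ t : ℕ, (t : ℤ) = N - m →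
    ¬ Nz q t := by
  obtain ⟨R, hR⟩ := of_hd (van_cl q m hm)
  refine ⟨R, fun N hN t ht hz => ?_⟩
  obtain ⟨x, hx, hB⟩ := hz
  have hxZ : x ∈ Z q := ⟨hx.mem, LinearMap.mem_ker.mpr hx.cyc⟩
  have := hR N hN t ht (cl ⟨x, hxZ⟩) ⟨⟨x, hxZ⟩, hx.hom, rfl⟩
  rw [cl_eq_zero] at this
  exact hB this

end Pool.Agent.H92ND
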