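import Pool.Agent.H92ND.M

/-!
Splitting of the degrees with nonzero cohomology.
-/

set_option autoImplicit false
set_option linter.unusedSectionVars false

namespace Pool.Agent.H92ND

open Finset

/-- the windows -/
def win (G : ℕ → ℕ) (w0 : ℕ) : ℕ → ℕ
  | 0 => w0
  | l + 1 => max (win G w0 l + 1) (G (win G w0 l))

theorem win_mono (G : ℕ → ℕ) (w0 : ℕ) : StrictMono (win G w0) :=
  strictMono_nat_of_lt_succ fun _ => lt_of_lt_of_le (Nat.lt_succ_self _) (le_max_left _ _)

/-- among finitely many exponents there is a large gap -/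
theorem gap (k : ℕ) (G : ℕ → ℕ) (w0 : ℕ) (e : Fin k → Option ℕ) : ∃ w, w0 ≤ w ∧
    w ≤ win G w0 k ∧ ∀ i a, e i = some a → a < w ∨ G w ≤ a := by
  by_contra hcon
  push Not at hcon
  have h : ∀ l : Fin (k + 1), ∃ i a, e i = some a ∧ win G w0 l ≤ a ∧ a < G (win G w0 l) := by
    intro l
    obtain ⟨i, a, h1, h2, h3⟩ := hcon (win G w0 l)
      ((win_mono G w0).monotone (Nat.zero_le (l : ℕ)))
      ((win_mono G w0).monotone (Nat.lt_succ_iff.mp l.2))
    exact ⟨i, a, h1, h2, h3⟩
  choose i a h1 h2 h3 using h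
  obtain ⟨l, l', hne, heq⟩ := Fintype.exists_ne_map_eq_of_card_lt i (by simp)
  have key : ∀ l l' : Fin (k + 1), l < l' → i l = i l' → False := by
    intro l l' hlt heq
    have e1 : a l = a l' := by
      have := h1 l
      rw [heq, h1 l'] at this
      exact (Option.some.inj this).symm
    have e2 : win G w0 (l + 1) ≤ win G w0 l' := (win_mono G w0).monotone hlt
    have e3 : G (win G w0 l) ≤ win G w0 (l + 1) := le_max_right _ _
    have := h3 l
    have := h2 l'
    omega
  rcases lt_or_gt_of_ne hne with h | h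
  · exact key l l' h heq
  · exact key l' l h heq.symm

/-- the small part of a power of two -/
def plo (w : ℕ) : Option ℕ → ℤ
  | none => 0
  | some a => if a < w then 2 ^ a else 0

/-- the large part of a power of two -/
def phi (w : ℕ) : Option ℕ → ℤ
  | none => 0
  | some a => if a < w then 0 else 2 ^ a

theorem plo_add_phi (w : ℕ) (o : Option ℕ) : pw o = plo w o + phi w o := by
  cases o with
  | none => simp [pw, plo, phi]
  | some a => simp only [pw, plo, phi]; split_ifs <;> simp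

theorem plo_nonneg (w : ℕ) (o : Option ℕ) : 0 ≤ plo w o := by
  cases o with
  | none => exact le_rfl
  | some a => simp only [plo]; split_ifs <;> positivity

theorem plo_le (w : ℕ) (o : Option ℕ) : plo w o ≤ 2 ^ w := by
  cases o with
  | none => simp only [plo]; positivity
  | some a =>
    simp only [plo]
    split_ifs with h
    · exact pow_le_pow_right₀ (by norm_num) h.le
    · positivity

theorem phi_dvd {w g : ℕ} {o : Option ℕ} (h : ∀ a, o = some a → a < w ∨ g ≤ a) :
    (2 : ℤ) ^ g ∣ phi w o := by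
  cases o with
  | none => exact dvd_zero _
  | some a =>
    simp only [phi]
    split_ifs with h'
    · exact dvd_zero _
    · exact pow_dvd_pow 2 ((h a rfl).resolve_left h')

/-- splitting into a small and a highly divisible part -/
theorem Wd.split {q : ℕ} {T : ℤ} (h : Wd q q T) (G : ℕ → ℕ) (w0 : ℕ) : ∃ w, w0 ≤ w ∧
    w ≤ win G w0 (q + q) ∧ ∃ c N : ℤ, T = c + N ∧ |c| ≤ q * 2 ^ w ∧ 2 ^ (G w) ∣ N := by
  obtain ⟨f, g, rfl⟩ := h
  obtain ⟨w, hw0, hw, hgap⟩ := gap (q + q) G w0 (Fin.append f g)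
  have hf : ∀ i a, f i = some a → a < w ∨ G w ≤ a := by
    intro i a hia
    exact hgap (Fin.castAdd q i) a (by rw [Fin.append_left]; exact hia)
  have hg : ∀ i a, g i = some a → a < w ∨ G w ≤ a := by
    intro i a hia
    exact hgap (Fin.natAdd q i) a (by rw [Fin.append_right]; exact hia)
  refine ⟨w, hw0, hw, ∑ i, plo w (f i) - ∑ i, plo w (g i), ∑ i, phi w (f i) - ∑ i, phi w (g i),
    ?_, ?_, ?_⟩
  · simp only [plo_add_phi w]
    rw [sum_add_distrib, sum_add_distrib]
    ring
  · have h1 : ∀ f : Fin q → Option ℕ, 0 ≤ ∑ i, plo w (f i) ∧ ∑ i, plo w (f i) ≤ q * 2 ^ w := by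
      intro f
      refine ⟨sum_nonneg fun i _ => plo_nonneg w _, ?_⟩
      refine (sum_le_sum fun i _ => plo_le w (f i)).trans ?_
      rw [sum_const, card_univ, Fintype.card_fin, nsmul_eq_mul]
    rw [abs_le]
    have := h1 f
    have := h1 g
    constructor <;> linarith
  · exact dvd_sub (dvd_sum fun i _ => phi_dvd (hf i)) (dvd_sum fun i _ => phi_dvd (hg i))

/-- The odd degrees of nonzero stable groups are bounded or sums of a bounded and a highly divisible
number. -/
theorem alive_split (q m0 : ℕ) (K : ℕ → ℕ) : ∃ B, ∀ t, Odd t → Nz q (2 ^ m0 * t) →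
    t < B ∨ ∃ c N, Odd c ∧ c < B ∧ 0 < N ∧ 2 ^ K c ∣ N ∧ t = c + N := by
  choose R hR using fun m : ℕ => show ∃ R : ℕ, 1 ≤ m → ∀ N : ℤ, 2 ^ R ∣ N → ∀ t : ℕ,
      (t : ℤ) = N - m → ¬ Nz q t from by
    by_cases hm : 1 ≤ m
    · obtain ⟨R, hR⟩ := Nz.van q m hm
      exact ⟨R, fun _ => hR⟩
    · exact ⟨0, fun h => absurd h hm⟩
  set G : ℕ → ℕ := fun w => m0 + 1 + w + q + ∑ c ∈ range (q * 2 ^ w + 1), (K c + R c) with hG
  have hGK : ∀ w c, c ≤ q * 2 ^ w → m0 + K c ≤ G w ∧ R c ≤ G w := by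
    intro w c hc
    have h1 : K c + R c ≤ ∑ c ∈ range (q * 2 ^ w + 1), (K c + R c) :=
      single_le_sum (f := fun c => K c + R c) (fun _ _ => Nat.zero_le _)
        (mem_range.mpr (Nat.lt_succ_of_le hc))
    simp only [hG]
    omega
  set W := win G 0 (q + q) with hW
  refine ⟨q * 2 ^ W + 1, fun t hodd hz => ?_⟩
  obtain ⟨w, _, hw, c', N', hT, hc', hN'⟩ := hz.wd.split G 0
  have hdN : (2 : ℤ) ^ m0 ∣ N' := dvd_trans (pow_dvd_pow 2 (by simp only [hG]; omega)) hN'
  have hdc : (2 : ℤ) ^ m0 ∣ c' := by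
    have e : c' = ((2 ^ m0 * t : ℕ) : ℤ) - N' := by rw [hT]; ring
    rw [e]
    push_cast
    exact dvd_sub (dvd_mul_right _ _) hdN
  obtain ⟨c, rfl⟩ := hdc
  obtain ⟨N, rfl⟩ := hdN
  have hp0 : (0 : ℤ) < 2 ^ m0 := by positivity
  have hp1 : (1 : ℤ) ≤ 2 ^ m0 := hp0
  have ht : (t : ℤ) = c + N := by
    have h1 : (2 : ℤ) ^ m0 * t = 2 ^ m0 * (c + N) := by
      have := hT
      push_cast at this
      rw [this]; ring
    exact mul_left_cancel₀ hp0.ne' h1
  have hcb : |c| ≤ q * 2 ^ w := by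
    rw [abs_mul, abs_of_pos hp0] at hc'
    have := abs_nonneg c
    nlinarith
  have hww : (2 : ℤ) ^ w ≤ 2 ^ W := pow_le_pow_right₀ (by norm_num) hw
  have hqw : (q : ℤ) * 2 ^ w ≤ q * 2 ^ W := by
    have : (0 : ℤ) ≤ q := by positivity
    nlinarith
  rcases lt_trichotomy N 0 with hN | hN | hN
  · -- the large part is negative
    exfalso
    have h1 : (2 : ℤ) ^ (G w) ≤ -(2 ^ m0 * N) :=
      Int.le_of_dvd (by nlinarith) ((dvd_neg).mpr hN')
    have h2 : (q : ℤ) * 2 ^ w < 2 ^ (G w) := by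
      have h3 : q * 2 ^ w < 2 ^ (G w) := by
        calc q * 2 ^ w < 2 ^ q * 2 ^ w :=
              Nat.mul_lt_mul_of_pos_right Nat.lt_two_pow_self (by positivity)
          _ = 2 ^ (q + w) := (pow_add _ _ _).symm
          _ ≤ 2 ^ (G w) := Nat.pow_le_pow_right (by norm_num) (by simp only [hG]; omega)
      exact_mod_cast h3
    have h4 := le_abs_self (2 ^ m0 * c)
    have h5 : (0 : ℤ) ≤ ((2 ^ m0 * t : ℕ) : ℤ) := by positivity
    rw [hT] at h5
    linarith
  · left
    subst hN
    have := le_abs_self c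
    have h6 : (t : ℤ) ≤ q * 2 ^ W := by linarith
    have : t ≤ q * 2 ^ W := by exact_mod_cast h6
    omega
  · have hodd1 : (2 : ℤ) ^ (m0 + 1) ∣ 2 ^ m0 * N :=
      dvd_trans (pow_dvd_pow 2 (by simp only [hG]; omega)) hN'
    have hNe : (2 : ℤ) ∣ N := by
      rw [pow_succ] at hodd1
      exact (mul_dvd_mul_iff_left hp0.ne').mp hodd1
    have htodd : Odd (t : ℤ) := by exact_mod_cast hodd
    have hcodd : Odd c := by
      have : c = t - N := by rw [ht]; ring
      rw [this]
      exact htodd.sub_even (even_iff_two_dvd.mpr hNe)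
    rcases lt_trichotomy c 0 with hc | hc | hc
    · -- vanishing
      exfalso
      set m : ℕ := (-(2 ^ m0 * c)).toNat with hm
      have hpos : 0 < -(2 ^ m0 * c) := by nlinarith
      have hm1 : (m : ℤ) = -(2 ^ m0 * c) := Int.toNat_of_nonneg hpos.le
      have hm2 : 1 ≤ m := by
        have : (0 : ℤ) < m := by rw [hm1]; exact hpos
        exact_mod_cast this
      have hm3 : m ≤ q * 2 ^ w := by
        have h7 : (m : ℤ) ≤ q * 2 ^ w := by
          rw [hm1]
          exact (neg_le_abs _).trans hc'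
        exact_mod_cast h7
      refine hR m hm2 (2 ^ m0 * N) (dvd_trans (pow_dvd_pow 2 (hGK w m hm3).2) hN') (2 ^ m0 * t) ?_ hz
      rw [hT, hm1]
      ring
    · exfalso
      rw [hc] at hcodd
      exact absurd hcodd (by decide)
    · right
      obtain ⟨cn, rfl⟩ := Int.eq_ofNat_of_zero_le hc.le
      obtain ⟨Nn, rfl⟩ := Int.eq_ofNat_of_zero_le hN.le
      have hcn : cn ≤ q * 2 ^ w := by
        have := (le_abs_self (cn : ℤ)).trans hcb
        exact_mod_cast this
      refine ⟨cn, Nn, by exact_mod_cast hcodd, ?_, by exact_mod_cast hN, ?_, by exact_mod_cast ht⟩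
      · have : q * 2 ^ w ≤ q * 2 ^ W := Nat.mul_le_mul_left _ (Nat.pow_le_pow_right (by norm_num) hw)
        omega
      · have h8 : (2 : ℤ) ^ (m0 + K cn) ∣ 2 ^ m0 * (Nn : ℤ) :=
          dvd_trans (pow_dvd_pow 2 (hGK w cn hcn).1) hN'
        rw [pow_add] at h8
        have h9 := (mul_dvd_mul_iff_left hp0.ne').mp h8
        exact_mod_cast h9

end Pool.Agent.H92ND
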