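import Pool.Agent.H92ND.N

/-!
Recursive description of the degrees with nonzero groups and of the exceptional degrees.
-/

set_option autoImplicit false
set_option linter.unusedSectionVars false

namespace Pool.Agent.H92ND

open Finset MvPolynomial Pool.Agent.W624.Stz Pool.Agent.Q171.ND3 Pool.Agent.Q171.ND3.St

/-- one summand of the decomposition -/
theorem rec_terms {q N c : ℕ} {x : P} (hxB : x ∉ B q) {ι : Type} [Fintype ι] {r : ι → ℕ}
    {a b : ι → P} (h : ∀ k, 1 ≤ r k ∧ Cy (r k) N (a k) ∧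
      (b k = 0 ∨ (r k + 1 ≤ q ∧ Cy (q - r k) c (b k))))
    (hB : x + ∑ k, a k * sp (r k) (b k) ∈ B q) :
    ∃ k, 1 ≤ r k ∧ r k + 1 ≤ q ∧ Cy (r k) N (a k) ∧ Cy (q - r k) c (b k) ∧
      a k ∉ B (r k) ∧ b k ∉ B (q - r k) := by
  by_contra hcon
  push Not at hcon
  apply hxB
  have h1 : ∑ k, a k * sp (r k) (b k) ∈ B q := by
    refine Submodule.sum_mem _ fun k _ => ?_
    obtain ⟨hk1, hk2, hk3⟩ := h k
    rcases hk3 with h0 | ⟨hk3, hk4⟩
    · rw [h0, map_zero, mul_zero]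
      exact Submodule.zero_mem _
    · have e : q = r k + (q - r k) := by omega
      by_cases ha : a k ∈ B (r k)
      · have := mulB_left ha hk4.mem hk4.cyc
        rwa [← e] at this
      · have hb := hcon k hk1 hk3 hk2 hk4 ha
        have := mulB_right hk2.mem hk2.cyc hb
        rwa [← e] at this
  have h2 := Submodule.add_mem _ hB h1
  have e : x + ∑ k, a k * sp (r k) (b k) + ∑ k, a k * sp (r k) (b k) = x := by
    linear_combination P2 (∑ k, a k * sp (r k) (b k))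
  rwa [e] at h2

/-- the recursion for nonzero groups -/
theorem rec_alive (q m0 : ℕ) (hq : 1 ≤ q) : ∃ K : ℕ → ℕ, ∀ c N, 0 < c → 0 < N → 2 ^ K c ∣ N →
    Nz q (2 ^ m0 * (c + N)) → ∃ i, 1 ≤ i ∧ i + 1 ≤ q ∧ Nz i (2 ^ m0 * c) ∧
      Nz (q - i) (2 ^ m0 * N) := by
  choose K hK using fun c : ℕ => show ∃ K, 0 < c → ∀ N, 0 < N → 2 ^ K ∣ N → ∀ x,
      Cy q (N + 2 ^ m0 * c) x → ∃ (ι : Type) (_ : Fintype ι) (r : ι → ℕ) (a b : ι → P),
      (∀ k, 1 ≤ r k ∧ Cy (r k) N (a k) ∧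
        (b k = 0 ∨ (r k + 1 ≤ q ∧ Cy (q - r k) (2 ^ m0 * c) (b k)))) ∧
      x + ∑ k, a k * sp (r k) (b k) ∈ B q from by
    by_cases hc : 0 < c
    · obtain ⟨K, hK⟩ := S1 q (2 ^ m0 * c) hq (by positivity)
      exact ⟨K, fun _ => hK⟩
    · exact ⟨0, fun h => absurd h hc⟩
  refine ⟨K, fun c N hc hN hd hz => ?_⟩
  obtain ⟨x, hx, hxB⟩ := hz
  rw [show 2 ^ m0 * (c + N) = 2 ^ m0 * N + 2 ^ m0 * c by ring] at hx
  obtain ⟨ι, _, r, a, b, h, hB⟩ := hK c hc (2 ^ m0 * N) (by positivity) (Dvd.dvd.mul_left hd _) x hx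
  obtain ⟨k, h1, h2, h3, h4, h5, h6⟩ := rec_terms hxB h hB
  refine ⟨q - r k, by omega, by omega, ⟨b k, h4, h6⟩, ?_⟩
  rw [show q - (q - r k) = r k by omega]
  exact ⟨a k, h3, h5⟩

/-- the class `h_m` -/
noncomputable def hh' (m : ℕ) : P := X (0, 0) ^ 2 ^ m

theorem d1_x00 : d 1 (X (0, 0) : P) = 0 := by
  rw [d, LinearMap.sum_apply, sum_range_succ, sum_range_succ, sum_range_one]
  simp only [AlgHom.toLinearMap_apply]
  have e0 : face 0 (X (0, 0) : P) = X (1, 0) := by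
    rw [face, aeval_X]
    simp only
    rw [if_neg (by omega), if_pos (by omega)]
    rfl
  have e2 : face 2 (X (0, 0) : P) = X (0, 0) :=
    face_of_C (s := 1) (C_X 0 (by norm_num)) (by norm_num)
  have e1 : face 1 (X (0, 0) : P) = X (0, 0) + X (1, 0) := by
    rw [face1_X, sum_range_succ, sum_range_one]
    simp [ξ]
  rw [e0, e2, e1]
  linear_combination P2 (X (0, 0)) + P2 (X (1, 0))

theorem Cy_h (m : ℕ) : Cy 1 (2 ^ m) (hh' m) := by
  have h : Cy 1 1 (X (0, 0)) := ⟨C_X 0 (by norm_num), isHom_x 0, d1_x00⟩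
  have := h.pow2 m
  rwa [mul_one] at this

theorem B1_eq {x : P} (h : x ∈ B 1) : x = 0 := by
  obtain ⟨y, hy, rfl⟩ := h
  have h1 : (rho 0 : P →ₐ[ZMod 2] P) y = y := rho_C hy
  have h2 : ∃ r : ZMod 2, y = MvPolynomial.C r := by
    refine ⟨constantCoeff y, ?_⟩
    rw [← h1]
    have h3 : ∀ f : P, rho 0 f = MvPolynomial.C (constantCoeff f) := by
      intro f
      induction f using MvPolynomial.induction_on with
      | C a => rw [algHom_C]; simp
      | add p q hp hq => rw [map_add, hp, hq, map_add, map_add]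
      | mul_X p n hp =>
        rw [map_mul, hp, rho, aeval_X, if_neg (by omega), mul_zero]
        simp
    rw [h3]
    simp
  obtain ⟨r, rfl⟩ := h2
  rw [d, LinearMap.sum_apply, sum_range_succ, sum_range_one]
  simp only [AlgHom.toLinearMap_apply, algHom_C]
  exact P2 _

theorem h_notB (m : ℕ) : hh' m ∉ B 1 := fun h => pow_ne_zero _ (X_ne_zero _) (B1_eq h)

theorem sq1_h (m : ℕ) : sqC 1 1 (hh' m) = X (0, 0) ^ 2 ^ m * X (1, 0) ^ 2 ^ m := by
  have e0 : face 0 (hh' m) = X (1, 0) ^ 2 ^ m := by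
    rw [hh', map_pow, face, aeval_X]
    simp only
    rw [if_neg (by omega), if_pos (by omega)]
    rfl
  have e2 : face 2 (hh' m) = X (0, 0) ^ 2 ^ m := face_of_C (Cy_h m).mem (by norm_num)
  rw [sq1_eq]
  have h0 : SE 0 (fun j => face j (hh' m)) = 0 := rfl
  have h1 : SO 1 (fun j => face j (hh' m)) = 0 := by simp [SO]
  have h2 : SE 2 (fun j => face j (hh' m)) = face 0 (hh' m) := by
    rw [SE, sum_range_succ, sum_range_one, if_pos (by decide), if_neg (by decide), add_zero]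
  rw [E2, sum_range_succ, sum_range_succ, sum_range_one, if_pos (by decide), if_neg (by decide),
    if_pos (by decide), h0, h1, h2, e0, e2]
  ring

/-- degrees with an exceptional class: all representatives of the class have a coboundary as `Sq¹` -/
def Exc (s t : ℕ) : Prop := ∃ u, Cy s t u ∧ u ∉ B s ∧ ∀ u', Cy s t u' → u + u' ∈ B s →
  sqC 1 s u' ∈ B (s + 1)

theorem Cy.sq1 {s t : ℕ} {x : P} (hx : Cy s t x) : Cy (s + 1) (2 * t) (sqC 1 s x) :=
  ⟨C_sqC hx.mem, IsHom.sqC hx.hom, d_sqC 1 s hx.cyc⟩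

/-- the recursion for exceptional degrees -/
theorem rec_exc (s m0 : ℕ) (hs : 2 ≤ s) (hG : Good m0 (s - 1)) : ∃ K : ℕ → ℕ, ∀ c N, Odd c →
    0 < N → 2 ^ K c ∣ N → Exc s (2 ^ m0 * (c + N)) → ∃ i, 2 ≤ i ∧ i + 1 ≤ s ∧
      Nz i (2 ^ m0 * c) ∧ Nz (s - i) (2 ^ m0 * N) := by
  choose K hK using fun c : ℕ => show ∃ K, 0 < c → ∀ N, 0 < N → 2 ^ K ∣ N → ∀ x,
      Cy s (N + 2 ^ m0 * c) x → ∃ (ι : Type) (_ : Fintype ι) (r : ι → ℕ) (a b : ι → P),
      (∀ k, 1 ≤ r k ∧ Cy (r k) N (a k) ∧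
        (b k = 0 ∨ (r k + 1 ≤ s ∧ Cy (s - r k) (2 ^ m0 * c) (b k)))) ∧
      x + ∑ k, a k * sp (r k) (b k) ∈ B s from by
    by_cases hc : 0 < c
    · obtain ⟨K, hK⟩ := S1 s (2 ^ m0 * c) (by omega) (by positivity)
      exact ⟨K, fun _ => hK⟩
    · exact ⟨0, fun h => absurd h hc⟩
  obtain ⟨K2, hK2⟩ := S2 s (2 * 2 ^ m0)
  refine ⟨fun c => K c + K2, fun c N hc hN hd hz => ?_⟩
  obtain ⟨u, hu, huB, hall⟩ := hz
  have hcN : 2 ^ m0 * (c + N) = 2 ^ m0 * N + 2 ^ m0 * c := by ring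
  rw [hcN] at hu hall
  obtain ⟨ι, _, r, a, b, h, hB⟩ := hK c hc.pos (2 ^ m0 * N) (by positivity)
    (Dvd.dvd.mul_left (dvd_trans (pow_dvd_pow 2 (Nat.le_add_right _ _)) hd) _) u hu
  by_contra hcon
  push Not at hcon
  -- the terms with `s - r k ≥ 2` are coboundaries
  obtain ⟨s, rfl⟩ : ∃ s', s = s' + 1 := ⟨s - 1, by omega⟩
  rw [Nat.add_sub_cancel] at hG
  -- every term is a coboundary or a product with `h`
  classical
  have hterm : ∀ k, ∃ v, Cy s (2 ^ m0 * N) v ∧ (c ≠ 1 → v = 0) ∧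
      a k * sp (r k) (b k) + v * sp s (hh' m0) ∈ B (s + 1) := by
    intro k
    obtain ⟨hk1, hk2, hk3⟩ := h k
    have hzero : ∀ w : P, w ∈ B (s + 1) → ∃ v, Cy s (2 ^ m0 * N) v ∧ (c ≠ 1 → v = 0) ∧
        w + v * sp s (hh' m0) ∈ B (s + 1) := fun w hw =>
      ⟨0, Cy.zero _ _, fun _ => rfl, by rw [zero_mul, add_zero]; exact hw⟩
    rcases hk3 with h0 | ⟨hk3, hk4⟩
    · refine hzero _ ?_
      rw [h0, map_zero, mul_zero]
      exact Submodule.zero_mem _
    · have e : s + 1 = r k + (s + 1 - r k) := by omega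
      by_cases ha : a k ∈ B (r k)
      · refine hzero _ ?_
        have := mulB_left ha hk4.mem hk4.cyc
        rwa [← e] at this
      by_cases hb : b k ∈ B (s + 1 - r k)
      · refine hzero _ ?_
        have := mulB_right hk2.mem hk2.cyc hb
        rwa [← e] at this
      rcases Nat.lt_or_ge (s + 1 - r k) 2 with hlt | hge
      · have hrk : r k = s := by omega
        rw [hrk, show s + 1 - s = 1 by omega] at hk4
        by_cases hc1 : c = 1
        · subst hc1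
          rw [mul_one] at hk4
          rw [hrk] at hk2 ⊢
          rcases one_line hk4.mem hk4.hom hk4.cyc with h0 | h1
          · refine hzero _ ?_
            rw [h0, map_zero, mul_zero]
            exact Submodule.zero_mem _
          · refine ⟨a k, hk2, fun h => absurd rfl h, ?_⟩
            rw [h1]
            change a k * sp s (hh' m0) + a k * sp s (hh' m0) ∈ _
            rw [P2]
            exact Submodule.zero_mem _
        · refine hzero _ ?_
          rw [one_line_zero hc hc1 hk4.mem hk4.hom hk4.cyc, map_zero, mul_zero]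
          exact Submodule.zero_mem _
      · exfalso
        refine hcon (s + 1 - r k) hge (by omega) ⟨b k, hk4, hb⟩ ?_
        rw [show s + 1 - (s + 1 - r k) = r k by omega]
        exact ⟨a k, hk2, ha⟩
  choose v hv1 hv2 hv3 using hterm
  set V := ∑ k, v k with hV
  have hCyV : Cy s (2 ^ m0 * N) V := by
    rw [hV]
    exact Finset.sum_induction _ (fun x => Cy s (2 ^ m0 * N) x) (fun _ _ h h' => h.add h')
      (Cy.zero _ _) fun k _ => hv1 k
  have hB2 : u + V * sp s (hh' m0) ∈ B (s + 1) := by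
    have h1 : ∑ k, (a k * sp (r k) (b k) + v k * sp s (hh' m0)) ∈ B (s + 1) :=
      Submodule.sum_mem _ fun k _ => hv3 k
    rw [sum_add_distrib, ← sum_mul] at h1
    have h2 := Submodule.add_mem _ hB h1
    have e : u + ∑ k, a k * sp (r k) (b k) + (∑ k, a k * sp (r k) (b k) + (∑ k, v k) *
        sp s (hh' m0)) = u + V * sp s (hh' m0) := by
      linear_combination P2 (∑ k, a k * sp (r k) (b k))
    rwa [e] at h2
  have hfin : V * sp s (hh' m0) ∉ B (s + 1) := by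
    intro h1
    apply huB
    have h2 := Submodule.add_mem _ hB2 h1
    have e : u + V * sp s (hh' m0) + V * sp s (hh' m0) = u := by
      linear_combination P2 (V * sp s (hh' m0))
    rwa [e] at h2
  by_cases hc1 : c = 1
  · subst hc1
    have hCu' : Cy (s + 1) (2 ^ m0 * N + 2 ^ m0 * 1) (V * sp s (hh' m0)) := by
      rw [mul_one]
      exact hCyV.prod (Cy_h m0)
    have h1 := hall _ hCu' hB2
    rw [cartan1 hCyV.mem hCyV.cyc (Cy_h m0).cyc] at h1
    have hVs := hCyV.sq1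
    have h2 := hK2 (2 * (2 ^ m0 * N)) (by positivity)
      (Dvd.dvd.mul_left (Dvd.dvd.mul_left (dvd_trans (pow_dvd_pow 2 (Nat.le_add_left _ _)) hd) _) _)
      (s + 1) 1 s 2 (sqC 1 s V) (hh' m0 ^ 2) (V ^ 2) (sqC 1 1 (hh' m0)) (by omega) le_rfl (by omega)
      (by omega) (by omega) (by omega) (by omega) hVs (Cy_h m0).sq hCyV.sq (Cy_h m0).sq1 h1
    rcases h2.2 with h3 | h3
    · have h4 := (hG (2 ^ m0 * N) (dvd_mul_right _ _)).1 V hCyV h3
      exact hfin (mulB_left h4 (Cy_h m0).mem (Cy_h m0).cyc)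
    · rw [sq1_h] at h3
      exact h_sq_ne m0 h3
  · apply hfin
    have : V = 0 := sum_eq_zero fun k _ => hv2 k hc1
    rw [this, zero_mul]
    exact Submodule.zero_mem _

/-- the lower bound: multiplication with `h` -/
theorem alive_mul_h (q m0 : ℕ) (hq : 1 ≤ q) : ∃ K, ∀ N, 0 < N → 2 ^ K ∣ N →
    Nz q (2 ^ m0 * N) → Nz (q + 1) (2 ^ m0 * (1 + N)) := by
  obtain ⟨K, hK⟩ := S2one q (2 ^ m0)
  refine ⟨K, fun N hN hd hz => ?_⟩
  obtain ⟨x, hx, hxB⟩ := hz
  refine ⟨x * sp q (hh' m0), ?_, fun h => ?_⟩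
  · rw [show 2 ^ m0 * (1 + N) = 2 ^ m0 * N + 2 ^ m0 by ring]
    exact hx.prod (Cy_h m0)
  · rcases hK (2 ^ m0 * N) (by positivity) (Dvd.dvd.mul_left hd _) q 1 x (hh' m0) hq le_rfl rfl hx
      (Cy_h m0) h with h1 | h1
    · exact hxB h1
    · exact h_notB m0 h1

end Pool.Agent.H92ND
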