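import Pool.Agent.H92ND.Cnt

/-!
The groups in highly divisible degrees have bounded order.
-/

set_option autoImplicit false
set_option linter.unusedSectionVars false

namespace Pool.Agent.H92ND

open Finset MvPolynomial Pool.Agent.Q171.ND3 Pool.Agent.Q171.ND3.St

/-- a finite set of representatives of all classes -/
def Cov (q t D : ℕ) : Prop := ∃ F : Finset P, F.card ≤ D ∧ (∀ y ∈ F, Cy q t y) ∧
  ∀ x, Cy q t x → ∃ y ∈ F, x + y ∈ B q

theorem Cov.mono {q t D D' : ℕ} (h : Cov q t D) (hD : D ≤ D') : Cov q t D' := by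
  obtain ⟨F, h1, h2, h3⟩ := h
  exact ⟨F, h1.trans hD, h2, h3⟩

theorem cy_finite (q t : ℕ) : {x : P | Cy q t x}.Finite :=
  (fin_hom q t).subset fun _ h => ⟨h.mem, h.hom⟩

theorem cov_exists (q t : ℕ) : ∃ D, Cov q t D := by
  refine ⟨_, (cy_finite q t).toFinset, le_rfl, fun y hy => ?_, fun x hx => ⟨x, ?_, ?_⟩⟩
  · rwa [Set.Finite.mem_toFinset] at hy
  · rw [Set.Finite.mem_toFinset]; exact hx
  · rw [P2]; exact Submodule.zero_mem _

theorem Cov.pow2 {m0 q N D : ℕ} (hG : Good m0 q) (hN : 2 ^ m0 ∣ N) (k : ℕ) (h : Cov q N D) :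
    Cov q (2 ^ k * N) D := by
  classical
  obtain ⟨F, h1, h2, h3⟩ := h
  refine ⟨F.image fun y => y ^ 2 ^ k, card_image_le.trans h1, ?_, fun w hw => ?_⟩
  · intro y hy
    obtain ⟨z, hz, rfl⟩ := mem_image.mp hy
    exact (h2 z hz).pow2 k
  · obtain ⟨u, hu, hB⟩ := hG.surj hN k hw
    obtain ⟨y, hy, hyB⟩ := h3 u hu
    refine ⟨y ^ 2 ^ k, mem_image_of_mem _ hy, ?_⟩
    have h4 : ∀ k, (u + y) ^ 2 ^ k ∈ B q := by
      intro k
      induction k with
      | zero => simpa using hyB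
      | succ k ih =>
        have := frob_B _ ih
        rwa [frob_apply, ← pow_mul, ← pow_succ] at this
    have h5 := Submodule.add_mem _ hB (h4 k)
    rw [add_pow_char_pow] at h5
    have e : w + u ^ 2 ^ k + (u ^ 2 ^ k + y ^ 2 ^ k) = w + y ^ 2 ^ k := by
      linear_combination P2 (u ^ 2 ^ k)
    rwa [e] at h5

theorem cov_step {q N c : ℕ} (D : ℕ) (T : ℕ → Finset P) (hT : ∀ i b, Cy i c b ↔ b ∈ T i)
    (hD : ∀ r, 1 ≤ r → r < q → Cov r N D) (_ : 1 ≤ D)
    (hS : ∀ x, Cy q (N + c) x → ∃ (ι : Type) (_ : Fintype ι) (r : ι → ℕ) (a b : ι → P),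
      (∀ k, 1 ≤ r k ∧ Cy (r k) N (a k) ∧
        (b k = 0 ∨ (r k + 1 ≤ q ∧ Cy (q - r k) c (b k)))) ∧
      x + ∑ k, a k * sp (r k) (b k) ∈ B q) :
    Cov q (N + c) (D ^ (∑ r ∈ Ico 1 q, (T (q - r)).card)) := by
  classical
  choose F hF1 hF2 hF3 using fun r : ℕ => show ∃ F : Finset P, F.card ≤ D ∧ (∀ y ∈ F, Cy r N y) ∧
    (1 ≤ r → r < q → ∀ x, Cy r N x → ∃ y ∈ F, x + y ∈ B r) from by
    by_cases h : 1 ≤ r ∧ r < q
    · obtain ⟨F, h1, h2, h3⟩ := hD r h.1 h.2
      exact ⟨F, h1, h2, fun _ _ => h3⟩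
    · exact ⟨∅, by simp, by simp, fun h1 h2 => absurd ⟨h1, h2⟩ h⟩
  set I : Finset (Σ _ : ℕ, P) := (Ico 1 q).sigma fun r => T (q - r) with hI
  have hIm : ∀ x : (Σ _ : ℕ, P), x ∈ I → (1 ≤ x.1 ∧ x.1 < q) ∧ x.2 ∈ T (q - x.1) := by
    intro x hx
    rw [hI, mem_sigma, mem_Ico] at hx
    exact hx
  clear_value I
  let FF := (Fintype.piFinset fun i : I => F i.1.1).image
    fun φ : I → P => ∑ i : I, φ i * sp i.1.1 i.1.2
  refine ⟨FF, ?_, ?_, ?_⟩
  · refine card_image_le.trans ?_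
    rw [Fintype.card_piFinset]
    refine (prod_le_pow_card _ _ D fun i _ => hF1 _).trans ?_
    rw [card_univ, Fintype.card_coe, hI, card_sigma]
  · intro y hy
    obtain ⟨φ, hφ, rfl⟩ := mem_image.mp hy
    rw [Fintype.mem_piFinset] at hφ
    refine Finset.sum_induction _ (fun x => Cy q (N + c) x) (fun _ _ h h' => h.add h')
      (Cy.zero _ _) fun i _ => ?_
    have hi := hIm _ i.2
    have := (hF2 _ _ (hφ i)).prod ((hT _ _).mpr hi.2)
    rwa [show i.1.1 + (q - i.1.1) = q by omega] at this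
  · intro x hx
    obtain ⟨ι, _, r, a, b, h, hB⟩ := hS x hx
    -- the coefficients
    let A : (Σ _ : ℕ, P) → P := fun i => ∑ k with (r k = i.1 ∧ b k = i.2), a k
    have hA : ∀ i, Cy i.1 N (A i) := by
      intro i
      refine Finset.sum_induction _ (fun x => Cy i.1 N x) (fun _ _ h h' => h.add h')
        (Cy.zero _ _) fun k hk => ?_
      rw [mem_filter] at hk
      rw [← hk.2.1]
      exact (h k).2.1
    have hφ : ∀ i : I, ∃ y ∈ F i.1.1, A i.1 + y ∈ B i.1.1 := by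
      intro i
      have hi := hIm _ i.2
      exact hF3 _ hi.1.1 hi.1.2 _ (hA _)
    choose φ hφ1 hφ2 using hφ
    refine ⟨∑ i : I, φ i * sp i.1.1 i.1.2, mem_image.mpr ⟨φ, Fintype.mem_piFinset.mpr hφ1, rfl⟩, ?_⟩
    have h1 : ∑ k, a k * sp (r k) (b k) = ∑ i : I, A i.1 * sp i.1.1 i.1.2 := by
      have h2 : ∑ i : I, A i.1 * sp i.1.1 i.1.2 = ∑ i ∈ I, A i * sp i.1 i.2 :=
        Finset.sum_coe_sort I fun i => A i * sp i.1 i.2
      rw [h2]
      have h3 : ∑ k, a k * sp (r k) (b k) = ∑ k with ((⟨r k, b k⟩ : Σ _ : ℕ, P) ∈ I),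
          a k * sp (r k) (b k) := by
        symm
        refine sum_subset (filter_subset _ _) fun k _ hk => ?_
        rw [mem_filter, not_and] at hk
        have hk := hk (mem_univ k)
        obtain ⟨hk1, hk2, hk3⟩ := h k
        rcases hk3 with h0 | ⟨hk3, hk4⟩
        · rw [h0, map_zero, mul_zero]
        · exfalso
          apply hk
          rw [hI, mem_sigma, mem_Ico]
          exact ⟨⟨hk1, by change r k < q; omega⟩, (hT _ _).mp hk4⟩
      rw [h3, ← sum_fiberwise_of_maps_to (s := univ.filter fun k => (⟨r k, b k⟩ : Σ _ : ℕ, P) ∈ I)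
        (t := I) (g := fun k => (⟨r k, b k⟩ : Σ _ : ℕ, P)) (fun k hk => (mem_filter.mp hk).2)]
      refine sum_congr rfl fun i hi => ?_
      rw [sum_mul]
      have e : (univ.filter fun k => (⟨r k, b k⟩ : Σ _ : ℕ, P) ∈ I).filter
          (fun k => (⟨r k, b k⟩ : Σ _ : ℕ, P) = i) = univ.filter fun k => r k = i.1 ∧ b k = i.2 := by
        ext k
        simp only [mem_filter, mem_univ, true_and]
        constructor
        · rintro ⟨_, rfl⟩; exact ⟨rfl, rfl⟩
        · rintro ⟨h4, h5⟩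
          have : (⟨r k, b k⟩ : Σ _ : ℕ, P) = i := by
            cases i; subst h4; subst h5; rfl
          exact ⟨this ▸ hi, this⟩
      rw [e]
      refine sum_congr rfl fun k hk => ?_
      rw [mem_filter] at hk
      rw [hk.2.1, hk.2.2]
    rw [h1] at hB
    have h4 : ∑ i : I, (A i.1 + φ i) * sp i.1.1 i.1.2 ∈ B q := by
      refine Submodule.sum_mem _ fun i _ => ?_
      have hi := hIm _ i.2
      have hb := (hT _ _).mpr hi.2
      have := mulB_left (hφ2 i) hb.mem hb.cyc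
      rwa [show i.1.1 + (q - i.1.1) = q by omega] at this
    simp only [add_mul] at h4
    rw [sum_add_distrib] at h4
    have h5 := Submodule.add_mem _ hB h4
    have e : x + ∑ i : I, A i.1 * sp i.1.1 i.1.2 + (∑ i : I, A i.1 * sp i.1.1 i.1.2 +
        ∑ i : I, φ i * sp i.1.1 i.1.2) = x + ∑ i : I, φ i * sp i.1.1 i.1.2 := by
      linear_combination P2 (∑ i : I, A i.1 * sp i.1.1 i.1.2)
    rwa [e] at h5

/-- uniform bound for the orders of the groups -/
theorem bounded (s m0 : ℕ) (hG : ∀ q, 1 ≤ q → q ≤ s → Good m0 q) : ∀ q, 1 ≤ q → q ≤ s →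
    ∃ D, ∀ t, Odd t → Cov q (2 ^ m0 * t) D := by
  intro q
  induction q using Nat.strong_induction_on with
  | _ q ih =>
    intro hq1 hqs
    choose K hK using fun c : ℕ => show ∃ K, 0 < c → ∀ N, 0 < N → 2 ^ K ∣ N → ∀ x,
        Cy q (N + 2 ^ m0 * c) x → ∃ (ι : Type) (_ : Fintype ι) (r : ι → ℕ) (a b : ι → P),
        (∀ k, 1 ≤ r k ∧ Cy (r k) N (a k) ∧
          (b k = 0 ∨ (r k + 1 ≤ q ∧ Cy (q - r k) (2 ^ m0 * c) (b k)))) ∧
        x + ∑ k, a k * sp (r k) (b k) ∈ B q from by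
      by_cases hc : 0 < c
      · obtain ⟨K, hK⟩ := S1 q (2 ^ m0 * c) hq1 (by positivity)
        exact ⟨K, fun _ => hK⟩
      · exact ⟨0, fun h => absurd h hc⟩
    obtain ⟨B0, hB0⟩ := alive_split q m0 K
    choose D1 hD1 using fun t => cov_exists q (2 ^ m0 * t)
    choose D2 hD2 using fun r : ℕ => show ∃ D, 1 ≤ r → r < q → ∀ t, Odd t →
        Cov r (2 ^ m0 * t) D from by
      by_cases h : 1 ≤ r ∧ r < q
      · obtain ⟨D, hD⟩ := ih r h.2 h.1 (by omega)
        exact ⟨D, fun _ _ => hD⟩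
      · exact ⟨0, fun h1 h2 => absurd ⟨h1, h2⟩ h⟩
    let T : ℕ → ℕ → Finset P := fun c i => (cy_finite i (2 ^ m0 * c)).toFinset
    have hT : ∀ c i b, Cy i (2 ^ m0 * c) b ↔ b ∈ T c i := fun c i b => by
      rw [Set.Finite.mem_toFinset]; rfl
    set D := 1 + ∑ r ∈ range q, D2 r with hDdef
    refine ⟨1 + ∑ t ∈ range B0, D1 t + ∑ c ∈ range B0, D ^ (∑ r ∈ Ico 1 q, (T c (q - r)).card),
      fun t ht => ?_⟩
    by_cases hz : Nz q (2 ^ m0 * t)
    · rcases hB0 t ht hz with h | ⟨c, N, hc, hcB, hN, hd, rfl⟩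
      · refine (hD1 t).mono ?_
        have := single_le_sum (f := D1) (fun _ _ => Nat.zero_le _) (mem_range.mpr h)
        omega
      · have h1 : Cov q (2 ^ m0 * N + 2 ^ m0 * c) (D ^ (∑ r ∈ Ico 1 q, (T c (q - r)).card)) := by
          refine cov_step D (T c) (hT c) (fun r hr1 hr2 => ?_) (by omega)
            (hK c hc.pos (2 ^ m0 * N) (by positivity) (Dvd.dvd.mul_left hd _))
          obtain ⟨k, t', ht', hNk⟩ := odd_part hN
          have h2 := (hD2 r hr1 hr2 t' ht').pow2 (hG r hr1 (by omega)) (dvd_mul_right _ _) k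
          rw [hNk, mul_left_comm]
          refine h2.mono ?_
          have := single_le_sum (f := D2) (fun _ _ => Nat.zero_le _) (mem_range.mpr hr2)
          omega
        rw [show 2 ^ m0 * (c + N) = 2 ^ m0 * N + 2 ^ m0 * c by ring]
        refine h1.mono ?_
        have := single_le_sum (f := fun c => D ^ (∑ r ∈ Ico 1 q, (T c (q - r)).card))
          (fun _ _ => Nat.zero_le _) (mem_range.mpr hcB)
        omega
    · refine ⟨{0}, ?_, ?_, ?_⟩
      · rw [card_singleton]; omega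
      · intro y hy
        rw [mem_singleton] at hy
        rw [hy]; exact Cy.zero _ _
      · intro x hx
        refine ⟨0, mem_singleton_self _, ?_⟩
        rw [add_zero]
        by_contra h
        exact hz ⟨x, hx, h⟩

end Pool.Agent.H92ND
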