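import Pool.Agent.H92ND.U

/-!
From cocycles to classes and families.
-/

set_option autoImplicit false
set_option linter.unusedSectionVars false

namespace Pool.Agent.H92ND

open Finset MvPolynomial Pool.Agent.Q171.ND3 Pool.Agent.Q171.ND3.St

/-- a homogeneous cocycle as a member of the structure -/
noncomputable def Cy.co {s t : ℕ} {x : P} (h : Cy s t x) : Cocycle s := ⟨x, h.mem, h.cyc⟩

theorem isDeg_cy {s t : ℕ} {y : Ext s} : IsDeg s t y ↔ ∃ x, ∃ h : Cy s t x, h.co.cls = y := by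
  constructor
  · rintro ⟨x, hx, rfl⟩
    exact ⟨x.val, ⟨x.mem, hx, x.closed⟩, rfl⟩
  · rintro ⟨x, h, rfl⟩
    exact ⟨h.co, h.hom, rfl⟩

theorem cls_zero {s t : ℕ} {x : P} (h : Cy s t x) : h.co.cls = 0 ↔ x ∈ B s := cl_eq_zero

theorem cls_eq {s t t' : ℕ} {x y : P} (hx : Cy s t x) (hy : Cy s t' y) :
    hx.co.cls = hy.co.cls ↔ x + y ∈ B s := by
  rw [← sub_eq_zero]
  have h1 : hx.co.cls - hy.co.cls = cl (hx.co.toZ - hy.co.toZ) := (map_sub _ _ _).symm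
  rw [h1, cl_eq_zero]
  have h2 : (hx.co.toZ - hy.co.toZ).1 = x + y := by
    change x - y = x + y
    linear_combination (-1 : P) * P2 y
  rw [h2]

theorem fam_cls {s t : ℕ} {x : P} (h : Cy s t x) (j : ℕ) :
    fam s j h.co.cls = (h.pow2 j).co.cls := by
  have h1 : fam s j (cl h.co.toZ) = cl (fr^[j] h.co.toZ) := Sq0_iter _ j
  change fam s j (cl h.co.toZ) = cl _
  rw [h1]
  congr 1
  apply Subtype.ext
  change (fr^[j] h.co.toZ).1 = x ^ 2 ^ j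
  induction j with
  | zero => simp; rfl
  | succ j ih =>
    rw [Function.iterate_succ_apply']
    change (fr^[j] h.co.toZ).1 ^ 2 = _
    rw [ih (Sq0_iter _ j), ← pow_mul, ← pow_succ]

theorem sq1_pow2 (s : ℕ) (x : P) (j : ℕ) : sqC 1 s (x ^ 2 ^ j) = sqC 1 s x ^ 2 ^ j := by
  induction j with
  | zero => simp
  | succ j ih => rw [pow_succ, pow_mul, sqC_sq, ih, ← pow_mul]

/-- multiplication by `h₀` is injective on squares in highly divisible degrees -/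
theorem h0_inj' (s : ℕ) : ∃ r, ∀ N, 2 ^ r ∣ N → ∀ z, Cy (s + 1) N z →
    z ^ 2 * X (s + 1, 0) ∈ B (s + 2) → z ∈ B (s + 1) := by
  obtain ⟨r, hr⟩ := hd_nat (e_h0inj s)
  refine ⟨r, fun N hN z hz hB => ?_⟩
  have hh : IsHom (2 * N + 1) (z ^ 2 * X (s + 1, 0) : P) := (hz.hom.pow 2).mul (isHom_x (s + 1))
  obtain ⟨g, hg, hdg⟩ := B_to hh hB
  have e : s + 2 - 1 = s + 1 := rfl
  rw [e] at hg
  push_cast at hg
  obtain ⟨z', hz', hdz'⟩ := hr N hN (jo z) g hz.cc hg (by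
    have h1 : Q171.ND3.dk (s + 1) g = jo (z ^ 2 * X (s + 1, 0)) := hdg
    rw [h1, map_mul, jo_sq, jo_X, mul_comm])
  exact B_of (s := s + 1) hz' hdz'

/-- Bruner's formula for `d₂` -/
def Bruner (d₂ : (q : ℕ) → Ext q → Ext (q + 2)) : Prop :=
  ∀ (q t : ℕ) (x : Cocycle q), Even t → IsHom t x.val →
    d₂ q (sq0 q x.cls) = hmul 0 (q + 1) (x.Sq 1).cls

/-- families which survive infinitely often to `E₃` come from exceptional classes -/
theorem exc_of_inf {s m0 : ℕ} (hG : Good m0 (s + 1))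
    (hh : ∀ N, 2 ^ m0 ∣ N → ∀ z, Cy (s + 1) N z →
      z ^ 2 * X (s + 1, 0) ∈ B (s + 2) → z ∈ B (s + 1))
    {d₂ : (q : ℕ) → Ext q → Ext (q + 2)} (hd : Bruner d₂) {t : ℕ} {x : Ext s}
    (hx : IsDeg s (2 ^ m0 * t) x) (hx0 : x ≠ 0) (hinf : {j | d₂ s (fam s j x) = 0}.Infinite) :
    Exc s (2 ^ m0 * t) := by
  obtain ⟨u, hu, rfl⟩ := isDeg_cy.mp hx
  refine ⟨u, hu, fun h => hx0 ((cls_zero hu).mpr h), fun u' hu' hB => ?_⟩
  rw [(cls_eq hu hu').mpr hB] at hinf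
  obtain ⟨j, hj, hj2⟩ := hinf.exists_gt 1
  obtain ⟨k, rfl⟩ : ∃ k, j = k + 2 := ⟨j - 2, by omega⟩
  have h1 : d₂ s (fam s (k + 2) hu'.co.cls) = 0 := hj
  have h2 : fam s (k + 2) hu'.co.cls = sq0 s (hu'.pow2 (k + 1)).co.cls := by
    rw [← fam_cls]
    exact Function.iterate_succ_apply' _ _ _
  rw [h2, hd s (2 ^ (k + 1) * (2 ^ m0 * t)) (hu'.pow2 (k + 1)).co (by
    rw [pow_succ', mul_assoc]; exact even_two_mul _) (hu'.pow2 (k + 1)).hom] at h1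
  have h3 : hmul 0 (s + 1) ((hu'.pow2 (k + 1)).co.Sq 1).cls
      = cl ⟨mulh 0 (s + 1) (sqC 1 s (u' ^ 2 ^ (k + 1))), mulh_Z _ ((hu'.pow2 (k + 1)).co.Sq 1).toZ.2⟩ :=
    rfl
  rw [h3, cl_eq_zero] at h1
  have h4 : mulh 0 (s + 1) (sqC 1 s (u' ^ 2 ^ (k + 1)))
      = ((sqC 1 s u') ^ 2 ^ k) ^ 2 * X (s + 1, 0) := by
    rw [mulh_apply, sq1_pow2, pow_zero, pow_one, ← pow_mul, ← pow_succ]
  have h5 : ((sqC 1 s u') ^ 2 ^ k) ^ 2 * X (s + 1, 0) ∈ B (s + 2) := by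
    rw [← h4]; exact h1
  have hz := hu'.sq1.pow2 k
  have hdv : 2 ^ m0 ∣ 2 * (2 ^ m0 * t) := Dvd.dvd.mul_left (dvd_mul_right _ _) _
  have h6 := hh _ (Dvd.dvd.mul_left hdv _) _ hz h5
  exact hG.inj hdv hu'.sq1 k h6

/-- the bound for the number of classes -/
theorem ncard_deg {s t D : ℕ} (h : Cov s t D) : {y : Ext s | IsDeg s t y}.ncard ≤ D := by
  classical
  obtain ⟨F, h1, h2, h3⟩ := h
  have hsub : {y : Ext s | IsDeg s t y} ⊆
      ((F.attach.image fun x => (h2 x.1 x.2).co.cls : Finset (Ext s)) : Set (Ext s)) := by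
    intro y hy
    obtain ⟨x, hx, rfl⟩ := isDeg_cy.mp hy
    obtain ⟨z, hz, hB⟩ := h3 x hx
    rw [mem_coe, mem_image]
    exact ⟨⟨z, hz⟩, mem_attach _ _, ((cls_eq hx (h2 z hz)).mpr hB).symm⟩
  refine (Set.ncard_le_ncard hsub (Finset.finite_toSet _)).trans ?_
  rw [Set.ncard_coe_finset]
  exact card_image_le.trans (by rw [card_attach]; exact h1)

/-- The pairs `(t, x)` of an odd number `t < 2 ^ n` and a nonzero element `x` of
`Ext^{s, 2 ^ J * t}`. -/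
def Fams (s J n : ℕ) : Set (ℕ × Ext s) :=
  {p | Odd p.1 ∧ p.1 < 2 ^ n ∧ IsDeg s (2 ^ J * p.1) p.2 ∧ p.2 ≠ 0}

/-- bound for sets of pairs -/
theorem fams_bound {s J D : ℕ} (hD : ∀ t, Odd t → Cov s (2 ^ J * t) D) (S : Set (ℕ × Ext s))
    (A : Finset ℕ) (hS : ∀ p ∈ S, p.1 ∈ A ∧ Odd p.1 ∧ IsDeg s (2 ^ J * p.1) p.2) :
    S.Finite ∧ S.ncard ≤ D * A.card := by
  classical
  have hfin : ∀ t, {y : Ext s | IsDeg s (2 ^ J * t) y}.Finite := fun t => fin_deg _ _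
  let F : Finset (ℕ × Ext s) := (A.filter fun t => Odd t).biUnion fun t =>
    (hfin t).toFinset.image fun y => (t, y)
  have hsub : S ⊆ (F : Set (ℕ × Ext s)) := by
    rintro ⟨t, y⟩ hp
    obtain ⟨h1, h2, h3⟩ := hS _ hp
    rw [mem_coe, mem_biUnion]
    refine ⟨t, mem_filter.mpr ⟨h1, h2⟩, mem_image.mpr ⟨y, ?_, rfl⟩⟩
    rw [Set.Finite.mem_toFinset]
    exact h3
  refine ⟨(Finset.finite_toSet F).subset hsub, ?_⟩
  refine (Set.ncard_le_ncard hsub (Finset.finite_toSet _)).trans ?_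
  rw [Set.ncard_coe_finset]
  refine card_biUnion_le.trans ?_
  refine (sum_le_sum (g := fun _ => D) fun t ht => ?_).trans ?_
  · rw [mem_filter] at ht
    refine card_image_le.trans ?_
    rw [← Set.ncard_eq_toFinset_card _ (hfin t)]
    exact ncard_deg (hD t ht.2)
  · rw [sum_const, smul_eq_mul, mul_comm]
    exact Nat.mul_le_mul_left _ (card_le_card (filter_subset _ _))

theorem nz_ext {s t : ℕ} (h : Nz s t) : ∃ y : Ext s, IsDeg s t y ∧ y ≠ 0 := by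
  obtain ⟨x, hx, hB⟩ := h
  exact ⟨hx.co.cls, isDeg_cy.mpr ⟨x, hx, rfl⟩, fun h => hB ((cls_zero hx).mp h)⟩

theorem ext_nz {s t : ℕ} {y : Ext s} (h : IsDeg s t y) (h0 : y ≠ 0) : Nz s t := by
  obtain ⟨x, hx, rfl⟩ := isDeg_cy.mp h
  exact ⟨x, hx, fun h => h0 ((cls_zero hx).mpr h)⟩

theorem fams_lower {s J n : ℕ} (hfin : (Fams s J n).Finite) :
    (OD (fun t => Nz s (2 ^ J * t)) n).card ≤ (Fams s J n).ncard := by
  classical
  choose f hf using fun t : ℕ => show ∃ y : Ext s, Nz s (2 ^ J * t) →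
      IsDeg s (2 ^ J * t) y ∧ y ≠ 0 from by
    by_cases h : Nz s (2 ^ J * t)
    · obtain ⟨y, hy⟩ := nz_ext h
      exact ⟨y, fun _ => hy⟩
    · exact ⟨0, fun h' => absurd h' h⟩
  rw [← Set.ncard_coe_finset]
  refine Set.ncard_le_ncard_of_injOn (fun t => (t, f t)) ?_ ?_ hfin
  · intro t ht
    rw [mem_coe, mem_OD] at ht
    exact ⟨ht.2.1, ht.1, (hf t ht.2.2).1, (hf t ht.2.2).2⟩
  · intro a _ b _ h
    exact congrArg Prod.fst h

/-- `Sq⁰` is bijective in highly divisible degrees -/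
theorem sq0_bij {s m0 N : ℕ} (hG : Good m0 s) (hN : 2 ^ m0 ∣ N) :
    Set.BijOn (sq0 s) {y | IsDeg s N y} {y | IsDeg s (2 * N) y} := by
  have h1 : ∀ {x : P} (hx : Cy s N x), sq0 s hx.co.cls = hx.sq.co.cls := fun hx => rfl
  refine ⟨?_, ?_, ?_⟩
  · intro y hy
    obtain ⟨x, hx, rfl⟩ := isDeg_cy.mp hy
    rw [h1]
    exact isDeg_cy.mpr ⟨_, hx.sq, rfl⟩
  · intro y hy y' hy' he
    obtain ⟨x, hx, rfl⟩ := isDeg_cy.mp hy
    obtain ⟨x', hx', rfl⟩ := isDeg_cy.mp hy'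
    rw [h1, h1, cls_eq] at he
    rw [cls_eq]
    refine (hG N hN).1 _ (hx.add hx') ?_
    rw [add_pow_char]
    exact he
  · intro y hy
    obtain ⟨w, hw, rfl⟩ := isDeg_cy.mp hy
    obtain ⟨u, hu, hB⟩ := (hG N hN).2 w hw
    refine ⟨hu.co.cls, isDeg_cy.mpr ⟨u, hu, rfl⟩, ?_⟩
    rw [h1]
    exact ((cls_eq hw hu.sq).mpr hB).symm

theorem bij_iter {s J : ℕ} (hb : ∀ i t : ℕ, J ≤ i → Set.BijOn (sq0 s) {y | IsDeg s (2 ^ i * t) y}
      {y | IsDeg s (2 ^ (i + 1) * t) y}) (a t : ℕ) :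
    Set.BijOn (fam s a) {y | IsDeg s (2 ^ J * t) y} {y | IsDeg s (2 ^ (J + a) * t) y} := by
  induction a with
  | zero => exact Set.bijOn_id _
  | succ a ih =>
    have h1 : fam s (a + 1) = sq0 s ∘ fam s a := funext fun y => Function.iterate_succ_apply' _ _ _
    rw [h1]
    exact (hb (J + a) t (by omega)).comp ih

/-- every family is eventually one of the families which start in the degree `2 ^ J * t` -/
theorem eventually_unique {s J : ℕ} (hb : ∀ i t : ℕ, J ≤ i → Set.BijOn (sq0 s)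
      {y | IsDeg s (2 ^ i * t) y} {y | IsDeg s (2 ^ (i + 1) * t) y}) {a t : ℕ} {x : Ext s}
      (hx : IsDeg s (2 ^ a * t) x) : ∃! y, IsDeg s (2 ^ J * t) y ∧ fam s a y = fam s J x := by
  have h1 := bij_iter hb a t
  have h2 : IsDeg s (2 ^ (J + a) * t) (fam s J x) := by
    have := fam_deg hx J
    rwa [← mul_assoc, ← pow_add] at this
  obtain ⟨y, hy, hye⟩ := h1.surjOn h2
  exact ⟨y, ⟨hy, hye⟩, fun y' ⟨hy', hye'⟩ => h1.injOn hy' hy (hye'.trans hye.symm)⟩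

/-- from binomial coefficients to powers -/
theorem pow_bound {a s n X : ℕ} (hs : 2 ≤ s) (h : a ≤ n → (n - a).choose (s - 1) ≤ X) :
    (n - (a + s)) ^ (s - 1) ≤ (s - 1).factorial * X := by
  rcases Nat.lt_or_ge n (a + s) with h1 | h1
  · rw [Nat.sub_eq_zero_of_le h1.le, zero_pow (by omega)]
    exact Nat.zero_le _
  · have h2 := h (by omega)
    have h3 : ((n - a + 1 - (s - 1) : ℕ) ^ (s - 1) : ℚ) / (s - 1).factorial
        ≤ (n - a).choose (s - 1) := Nat.pow_le_choose (s - 1) (n - a)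
    rw [div_le_iff₀ (by positivity)] at h3
    have h4 : (n - a + 1 - (s - 1)) ^ (s - 1) ≤ (n - a).choose (s - 1) * (s - 1).factorial := by
      exact_mod_cast h3
    calc (n - (a + s)) ^ (s - 1) ≤ (n - a + 1 - (s - 1)) ^ (s - 1) :=
          Nat.pow_le_pow_left (by omega) _
      _ ≤ (n - a).choose (s - 1) * (s - 1).factorial := h4
      _ ≤ X * (s - 1).factorial := Nat.mul_le_mul_right _ h2
      _ = (s - 1).factorial * X := mul_comm _ _

/-- the main theorem -/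
theorem main (s : ℕ) (hs : 2 ≤ s) : ∃ J C : ℕ,
    (∀ i t : ℕ, J ≤ i → Set.BijOn (sq0 s) {y | IsDeg s (2 ^ i * t) y}
      {y | IsDeg s (2 ^ (i + 1) * t) y}) ∧
    (∀ (a t : ℕ) (x : Ext s), IsDeg s (2 ^ a * t) x →
      ∃! y, IsDeg s (2 ^ J * t) y ∧ fam s a y = fam s J x) ∧
    (∀ n, (Fams s J n).Finite ∧ (n - C) ^ (s - 1) ≤ C * (Fams s J n).ncard ∧
      (Fams s J n).ncard ≤ C * (n + 1) ^ (s - 1)) ∧
    ∀ d₂ : (q : ℕ) → Ext q → Ext (q + 2), Bruner d₂ → ∀ n,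
      {p ∈ Fams s J n | {j | d₂ s (fam s j p.2) = 0}.Infinite}.ncard ≤ C * (n + 1) ^ (s - 2) := by
  obtain ⟨m1, h1⟩ : ∃ m0, ∀ m, m0 ≤ m → ∀ q, 1 ≤ q → q ≤ s + 1 → Good m q := exists_good' _
  obtain ⟨r, hr⟩ := h0_inj' s
  set J := m1 + r with hJ
  have hG : ∀ q, 1 ≤ q → q ≤ s + 1 → Good J q := h1 J (by omega)
  have hG' : ∀ q, 1 ≤ q → q ≤ s → Good J q := fun q hq hqs => hG q hq (by omega)
  obtain ⟨D, hD⟩ := bounded s J hG' s (by omega) le_rfl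
  obtain ⟨C1, hC1⟩ := upper s J hG' s (by omega) le_rfl
  obtain ⟨C2, hC2⟩ := upper_exc s J hs hG'
  obtain ⟨a, _, hlow⟩ := lower s J hG' s (by omega) le_rfl
  have hfin : ∀ n, (Fams s J n).Finite ∧ (Fams s J n).ncard ≤
      D * (OD (fun t => Nz s (2 ^ J * t)) n).card := fun n =>
    fams_bound hD _ _ fun p hp => ⟨mem_OD.mpr ⟨hp.2.1, hp.1, ext_nz hp.2.2.1 hp.2.2.2⟩, hp.1,
      hp.2.2.1⟩
  set C := (a + s) + (s - 1).factorial + D * C1 + D * C2 with hC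
  have hbij : ∀ i t : ℕ, J ≤ i → Set.BijOn (sq0 s) {y | IsDeg s (2 ^ i * t) y}
      {y | IsDeg s (2 ^ (i + 1) * t) y} := by
    intro i t hi
    have := sq0_bij (hG' s (by omega) le_rfl) (N := 2 ^ i * t)
      (Dvd.dvd.mul_right (pow_dvd_pow 2 hi) _)
    rwa [← mul_assoc, ← pow_succ'] at this
  refine ⟨J, C, hbij, fun a t x hx => eventually_unique hbij hx, ?_, ?_⟩
  · intro n
    refine ⟨(hfin n).1, ?_, ?_⟩
    · have h2 := pow_bound (n := n) hs (hlow n)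
      calc (n - C) ^ (s - 1) ≤ (n - (a + s)) ^ (s - 1) := Nat.pow_le_pow_left (by omega) _
        _ ≤ (s - 1).factorial * (OD (fun t => Nz s (2 ^ J * t)) n).card := h2
        _ ≤ C * (Fams s J n).ncard := Nat.mul_le_mul (by omega) (fams_lower (hfin n).1)
    · calc (Fams s J n).ncard ≤ D * (OD (fun t => Nz s (2 ^ J * t)) n).card := (hfin n).2
        _ ≤ D * (C1 * (n + 1) ^ (s - 1)) := Nat.mul_le_mul_left _ (hC1 n)
        _ = D * C1 * (n + 1) ^ (s - 1) := by ring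
        _ ≤ C * (n + 1) ^ (s - 1) := Nat.mul_le_mul_right _ (by omega)
  · intro d₂ hd n
    have h2 := (fams_bound hD {p ∈ Fams s J n | {j | d₂ s (fam s j p.2) = 0}.Infinite}
      (OD (fun t => Exc s (2 ^ J * t)) n) (by
        rintro p ⟨hp, hinf⟩
        refine ⟨mem_OD.mpr ⟨hp.2.1, hp.1, ?_⟩, hp.1, hp.2.2.1⟩
        exact exc_of_inf (hG (s + 1) (by omega) le_rfl) (fun N hN =>
          hr N (dvd_trans (pow_dvd_pow 2 (by omega)) hN)) hd hp.2.2.1 hp.2.2.2 hinf)).2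
    calc _ ≤ D * (OD (fun t => Exc s (2 ^ J * t)) n).card := h2
      _ ≤ D * (C2 * (n + 1) ^ (s - 2)) := Nat.mul_le_mul_left _ (hC2 n)
      _ = D * C2 * (n + 1) ^ (s - 2) := by ring
      _ ≤ C * (n + 1) ^ (s - 2) := Nat.mul_le_mul_right _ (by omega)

end Pool.Agent.H92ND
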