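import Pool.Graph.R_pool_sql_team_seeded_3997aac3.Q171.ND3.Ol

/-!
Steenrod's coboundary formula for the cup products, and its consequences for the squares.
-/

set_option autoImplicit false
set_option linter.unusedSectionVars false

namespace Pool.Agent.H92ND

open Finset MvPolynomial Pool.Agent.W624.Stz Pool.Agent.Q171.ND3 Pool.Agent.Q171.ND3.St

section ring

variable {R : Type*} [CommRing R]

/-- sums over sets with given numbers of elements of the two parities -/
def T2 (N k l : ℕ) (F : Finset ℕ → Finset ℕ → R) : R :=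
  ∑ W ∈ (range N).powerset with (ev0 W).card = k ∧ (ev1 W).card = l, F (ev0 W) (ev1 W)

/-- the pairs of disjoint sets of given sizes -/
def Prs2 (k l N : ℕ) : Finset (Finset ℕ × Finset ℕ) :=
  ((range N).powerset ×ˢ (range N).powerset).filter
    fun p => p.1.card = k + 1 ∧ p.2.card = l + 1 ∧ Disjoint p.1 p.2

theorem mem_Prs2 {k l N : ℕ} {A B : Finset ℕ} : (A, B) ∈ Prs2 k l N ↔
    (A ⊆ range N ∧ B ⊆ range N) ∧ A.card = k + 1 ∧ B.card = l + 1 ∧ Disjoint A B := by
  simp only [Prs2, mem_filter, mem_product, mem_powerset]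

theorem ev1_of_ev0 {A B : Finset ℕ} (hd : Disjoint A B) (h : ev0 (A ∪ B) = A) :
    ev1 (A ∪ B) = B := by
  have hun := ev0_union (A ∪ B)
  have hdj := ev0_disj (A ∪ B)
  rw [h] at hun hdj
  ext u
  have h4 := Finset.ext_iff.mp hun u
  rw [mem_union, mem_union] at h4
  have h5 : u ∈ A → u ∉ ev1 (A ∪ B) := fun h => disjoint_left.mp hdj h
  have h6 : u ∈ A → u ∉ B := fun h => disjoint_left.mp hd h
  tauto

theorem ev0_of_ev1 {A B : Finset ℕ} (hd : Disjoint A B) (h : ev1 (A ∪ B) = A) :
    ev0 (A ∪ B) = B := by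
  have hun := ev0_union (A ∪ B)
  have hdj := ev0_disj (A ∪ B)
  rw [h] at hun hdj
  ext u
  have h4 := Finset.ext_iff.mp hun u
  rw [mem_union, mem_union] at h4
  have h5 : u ∈ ev0 (A ∪ B) → u ∉ A := fun h => disjoint_left.mp hdj h
  have h6 : u ∈ A → u ∉ B := fun h => disjoint_left.mp hd h
  tauto

/-- the combinatorial identity -/
theorem cmb2 (h2 : ∀ a : R, a + a = 0) (xs ys : Finset ℕ → R) (k l N : ℕ) :
    ∑ W ∈ (range N).powerset, ∑ w ∈ W,
      (if ((ev0 W).erase w).card = k ∧ ((ev1 W).erase w).card = l then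
        xs (insert w (ev0 W)) * ys (insert w (ev1 W)) else 0)
    = T2 N (k + 1) l (fun A B => xs A * ∑ w ∈ range N \ B, ys (insert w B))
      + T2 N k (l + 1) (fun A B => (∑ w ∈ range N \ A, xs (insert w A)) * ys B)
      + T2 N (k + 1) (l + 1) (fun A B => xs A * ys B)
      + T2 N (l + 1) (k + 1) (fun A B => ys A * xs B) := by
  -- splitting
  have hsplit : ∀ W ∈ (range N).powerset, ∑ w ∈ W,
      (if ((ev0 W).erase w).card = k ∧ ((ev1 W).erase w).card = l then
        xs (insert w (ev0 W)) * ys (insert w (ev1 W)) else 0)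
      = (if (ev0 W).card = k + 1 ∧ (ev1 W).card = l then
          xs (ev0 W) * ∑ w ∈ range N \ ev1 W, ys (insert w (ev1 W)) else 0)
        + (if (ev0 W).card = k ∧ (ev1 W).card = l + 1 then
          (∑ w ∈ range N \ ev0 W, xs (insert w (ev0 W))) * ys (ev1 W) else 0)
        + (∑ w ∈ range N \ W, (if (ev0 W).card = k + 1 ∧ (ev1 W).card = l then
          xs (ev0 W) * ys (insert w (ev1 W)) else 0)
        + ∑ w ∈ range N \ W, (if (ev0 W).card = k ∧ (ev1 W).card = l + 1 then
          xs (insert w (ev0 W)) * ys (ev1 W) else 0)) := by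
    intro W hW
    rw [mem_powerset] at hW
    have hun := ev0_union W
    have hdj := ev0_disj W
    have e0 : ∀ w ∈ ev0 W, (if ((ev0 W).erase w).card = k ∧ ((ev1 W).erase w).card = l then
        xs (insert w (ev0 W)) * ys (insert w (ev1 W)) else 0)
        = if (ev0 W).card = k + 1 ∧ (ev1 W).card = l then
          xs (ev0 W) * ys (insert w (ev1 W)) else 0 := by
      intro w hw
      have hw1 : w ∉ ev1 W := disjoint_left.mp hdj hw
      have hpos : 0 < (ev0 W).card := card_pos.mpr ⟨w, hw⟩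
      rw [insert_eq_of_mem hw, card_erase_of_mem hw, erase_eq_of_notMem hw1]
      congr 1
      simp only [eq_iff_iff, and_congr_left_iff]
      intro _
      omega
    have e1 : ∀ w ∈ ev1 W, (if ((ev0 W).erase w).card = k ∧ ((ev1 W).erase w).card = l then
        xs (insert w (ev0 W)) * ys (insert w (ev1 W)) else 0)
        = if (ev0 W).card = k ∧ (ev1 W).card = l + 1 then
          xs (insert w (ev0 W)) * ys (ev1 W) else 0 := by
      intro w hw
      have hw1 : w ∉ ev0 W := disjoint_right.mp hdj hw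
      have hpos : 0 < (ev1 W).card := card_pos.mpr ⟨w, hw⟩
      rw [insert_eq_of_mem hw, card_erase_of_mem hw, erase_eq_of_notMem hw1]
      congr 1
      simp only [eq_iff_iff, and_congr_right_iff]
      intro _
      omega
    conv_lhs => rw [← hun]
    rw [sum_union hdj, hun, sum_congr rfl e0, sum_congr rfl e1]
    have f0 : ∑ w ∈ ev0 W, (if (ev0 W).card = k + 1 ∧ (ev1 W).card = l then
          xs (ev0 W) * ys (insert w (ev1 W)) else 0)
        = (if (ev0 W).card = k + 1 ∧ (ev1 W).card = l then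
          xs (ev0 W) * ∑ w ∈ range N \ ev1 W, ys (insert w (ev1 W)) else 0)
        + ∑ w ∈ range N \ W, (if (ev0 W).card = k + 1 ∧ (ev1 W).card = l then
          xs (ev0 W) * ys (insert w (ev1 W)) else 0) := by
      by_cases hc : (ev0 W).card = k + 1 ∧ (ev1 W).card = l
      · simp only [if_pos hc]
        rw [← mul_sum, ← mul_sum]
        have h4 : range N \ ev1 W = ev0 W ∪ (range N \ W) := by
          ext u
          have h5 := Finset.ext_iff.mp hun u
          rw [mem_union] at h5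
          have h6 : u ∈ W → u ∈ range N := fun h => hW h
          have h7 : u ∈ ev0 W → u ∉ ev1 W := fun h => disjoint_left.mp hdj h
          simp only [mem_sdiff, mem_union]
          tauto
        rw [h4, sum_union (disjoint_left.mpr fun u hu hu' => (mem_sdiff.mp hu').2
          (mem_ev0.mp hu).1)]
        have h5 := h2 (∑ w ∈ range N \ W, ys (insert w (ev1 W)))
        linear_combination (-xs (ev0 W)) * h5
      · simp only [if_neg hc, sum_const_zero, add_zero]
    have f1 : ∑ w ∈ ev1 W, (if (ev0 W).card = k ∧ (ev1 W).card = l + 1 then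
          xs (insert w (ev0 W)) * ys (ev1 W) else 0)
        = (if (ev0 W).card = k ∧ (ev1 W).card = l + 1 then
          (∑ w ∈ range N \ ev0 W, xs (insert w (ev0 W))) * ys (ev1 W) else 0)
        + ∑ w ∈ range N \ W, (if (ev0 W).card = k ∧ (ev1 W).card = l + 1 then
          xs (insert w (ev0 W)) * ys (ev1 W) else 0) := by
      by_cases hc : (ev0 W).card = k ∧ (ev1 W).card = l + 1
      · simp only [if_pos hc]
        rw [← sum_mul, ← sum_mul]
        have h4 : range N \ ev0 W = ev1 W ∪ (range N \ W) := by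
          ext u
          have h5 := Finset.ext_iff.mp hun u
          rw [mem_union] at h5
          have h6 : u ∈ W → u ∈ range N := fun h => hW h
          have h7 : u ∈ ev0 W → u ∉ ev1 W := fun h => disjoint_left.mp hdj h
          simp only [mem_sdiff, mem_union]
          tauto
        rw [h4, sum_union (disjoint_left.mpr fun u hu hu' => (mem_sdiff.mp hu').2
          (mem_ev1.mp hu).1)]
        have h5 := h2 (∑ w ∈ range N \ W, xs (insert w (ev0 W)))
        linear_combination (-ys (ev1 W)) * h5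
      · simp only [if_neg hc, sum_const_zero, add_zero]
    rw [f0, f1]
    ring
  rw [sum_congr rfl hsplit, sum_add_distrib, sum_add_distrib]
  have g0 : ∑ W ∈ (range N).powerset, (if (ev0 W).card = k + 1 ∧ (ev1 W).card = l then
      xs (ev0 W) * ∑ w ∈ range N \ ev1 W, ys (insert w (ev1 W)) else 0)
      = T2 N (k + 1) l (fun A B => xs A * ∑ w ∈ range N \ B, ys (insert w B)) := by
    rw [T2, sum_filter]
  have g1 : ∑ W ∈ (range N).powerset, (if (ev0 W).card = k ∧ (ev1 W).card = l + 1 then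
      (∑ w ∈ range N \ ev0 W, xs (insert w (ev0 W))) * ys (ev1 W) else 0)
      = T2 N k (l + 1) (fun A B => (∑ w ∈ range N \ A, xs (insert w A)) * ys B) := by
    rw [T2, sum_filter]
  rw [g0, g1, add_assoc (_ + _)]
  congr 1
  rw [sum_add_distrib]
  -- reindexing
  have r0 : ∑ W ∈ (range N).powerset, ∑ w ∈ range N \ W,
      (if (ev0 W).card = k + 1 ∧ (ev1 W).card = l then xs (ev0 W) * ys (insert w (ev1 W)) else 0)
      = ∑ p ∈ Prs2 k l N, ∑ w ∈ p.2, (if ev0 ((p.1 ∪ p.2).erase w) = p.1.erase w then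
          xs p.1 * ys p.2 else 0) := by
    simp only [← sum_filter]
    rw [sum_sigma', sum_sigma']
    refine sum_nbij' (fun x => ⟨(ev0 x.1, insert x.2 (ev1 x.1)), x.2⟩)
      (fun x => ⟨(x.1.1 ∪ x.1.2).erase x.2, x.2⟩) ?_ ?_ ?_ ?_ ?_
    · rintro ⟨W, w⟩ h
      simp only [mem_sigma, mem_powerset, mem_filter, mem_sdiff] at h ⊢
      obtain ⟨hW, ⟨hw, hwW⟩, h0, h1⟩ := h
      have hw0 : w ∉ ev0 W := fun h => hwW (mem_ev0.mp h).1
      have hw1 : w ∉ ev1 W := fun h => hwW (mem_ev1.mp h).1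
      refine ⟨mem_Prs2.mpr ⟨⟨fun u hu => hW (mem_ev0.mp hu).1, ?_⟩, h0, ?_, ?_⟩,
        mem_insert_self _ _, ?_⟩
      · intro u hu
        rcases mem_insert.mp hu with rfl | hu
        · exact hw
        · exact hW (mem_ev1.mp hu).1
      · rw [card_insert_of_notMem hw1, h1]
      · exact disjoint_insert_right.mpr ⟨hw0, ev0_disj W⟩
      · rw [union_insert, ev0_union, erase_insert hwW, erase_eq_of_notMem hw0]
    · rintro ⟨⟨A, B⟩, w⟩ h
      simp only [mem_sigma, mem_powerset, mem_filter, mem_sdiff] at h ⊢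
      obtain ⟨hp, hw, h0⟩ := h
      obtain ⟨⟨hA, hB⟩, hcA, hcB, hd⟩ := mem_Prs2.mp hp
      have hwA : w ∉ A := disjoint_right.mp hd hw
      rw [erase_eq_of_notMem hwA] at h0
      refine ⟨fun u hu => union_subset hA hB (mem_of_mem_erase hu),
        ⟨hB hw, notMem_erase _ _⟩, ?_, ?_⟩
      · rw [h0, hcA]
      · rw [union_erase_sdiff hd h0, card_erase_of_mem hw, hcB, Nat.add_sub_cancel]
    · rintro ⟨W, w⟩ h
      simp only [mem_sigma, mem_powerset, mem_filter, mem_sdiff] at h
      obtain ⟨hW, ⟨hw, hwW⟩, h0, h1⟩ := h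
      simp only
      rw [union_insert, ev0_union, erase_insert hwW]
    · rintro ⟨⟨A, B⟩, w⟩ h
      simp only [mem_sigma, mem_filter] at h
      obtain ⟨hp, hw, h0⟩ := h
      obtain ⟨⟨hA, hB⟩, hcA, hcB, hd⟩ := mem_Prs2.mp hp
      have hwA : w ∉ A := disjoint_right.mp hd hw
      rw [erase_eq_of_notMem hwA] at h0
      simp only
      rw [h0, union_erase_sdiff hd h0, insert_erase hw]
    · rintro ⟨W, w⟩ _
      rfl
  have r1 : ∑ W ∈ (range N).powerset, ∑ w ∈ range N \ W,
      (if (ev0 W).card = k ∧ (ev1 W).card = l + 1 then xs (insert w (ev0 W)) * ys (ev1 W) else 0)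
      = ∑ p ∈ Prs2 k l N, ∑ w ∈ p.1, (if ev0 ((p.1 ∪ p.2).erase w) = p.1.erase w then
          xs p.1 * ys p.2 else 0) := by
    simp only [← sum_filter]
    rw [sum_sigma', sum_sigma']
    refine sum_nbij' (fun x => ⟨(insert x.2 (ev0 x.1), ev1 x.1), x.2⟩)
      (fun x => ⟨(x.1.1 ∪ x.1.2).erase x.2, x.2⟩) ?_ ?_ ?_ ?_ ?_
    · rintro ⟨W, w⟩ h
      simp only [mem_sigma, mem_powerset, mem_filter, mem_sdiff] at h ⊢
      obtain ⟨hW, ⟨hw, hwW⟩, h0, h1⟩ := h
      have hw0 : w ∉ ev0 W := fun h => hwW (mem_ev0.mp h).1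
      have hw1 : w ∉ ev1 W := fun h => hwW (mem_ev1.mp h).1
      refine ⟨mem_Prs2.mpr ⟨⟨?_, fun u hu => hW (mem_ev1.mp hu).1⟩, ?_, h1, ?_⟩,
        mem_insert_self _ _, ?_⟩
      · intro u hu
        rcases mem_insert.mp hu with rfl | hu
        · exact hw
        · exact hW (mem_ev0.mp hu).1
      · rw [card_insert_of_notMem hw0, h0]
      · exact disjoint_insert_left.mpr ⟨hw1, ev0_disj W⟩
      · rw [insert_union, ev0_union, erase_insert hwW, erase_insert hw0]
    · rintro ⟨⟨A, B⟩, w⟩ h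
      simp only [mem_sigma, mem_powerset, mem_filter, mem_sdiff] at h ⊢
      obtain ⟨hp, hw, h0⟩ := h
      obtain ⟨⟨hA, hB⟩, hcA, hcB, hd⟩ := mem_Prs2.mp hp
      refine ⟨fun u hu => union_subset hA hB (mem_of_mem_erase hu),
        ⟨hA hw, notMem_erase _ _⟩, ?_, ?_⟩
      · rw [h0, card_erase_of_mem hw, hcA, Nat.add_sub_cancel]
      · rw [union_erase_sdiff' hd hw h0, hcB]
    · rintro ⟨W, w⟩ h
      simp only [mem_sigma, mem_powerset, mem_filter, mem_sdiff] at h
      obtain ⟨hW, ⟨hw, hwW⟩, h0, h1⟩ := h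
      simp only
      rw [insert_union, ev0_union, erase_insert hwW]
    · rintro ⟨⟨A, B⟩, w⟩ h
      simp only [mem_sigma, mem_filter] at h
      obtain ⟨hp, hw, h0⟩ := h
      obtain ⟨⟨hA, hB⟩, hcA, hcB, hd⟩ := mem_Prs2.mp hp
      simp only
      rw [union_erase_sdiff' hd hw h0, h0, insert_erase hw]
    · rintro ⟨W, w⟩ _
      rfl
  rw [r0, r1, ← sum_add_distrib]
  have r2 : ∀ p ∈ Prs2 k l N, (∑ w ∈ p.2, (if ev0 ((p.1 ∪ p.2).erase w) = p.1.erase w then
          xs p.1 * ys p.2 else 0)) + ∑ w ∈ p.1, (if ev0 ((p.1 ∪ p.2).erase w) = p.1.erase w then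
          xs p.1 * ys p.2 else 0)
      = (if p.1 = ev1 (p.1 ∪ p.2) then xs p.1 * ys p.2 else 0)
        + (if p.1 = ev0 (p.1 ∪ p.2) then xs p.1 * ys p.2 else 0) := by
    classical
    rintro ⟨A, B⟩ hp
    obtain ⟨⟨hA, hB⟩, hcA, hcB, hd⟩ := mem_Prs2.mp hp
    have hc := count (R := R) h2 (A := A) (X := A ∪ B) subset_union_left (union_subset hA hB)
    simp only
    rw [add_comm, ← sum_union hd]
    have h3 : ∀ w ∈ A ∪ B, (if ev0 ((A ∪ B).erase w) = A.erase w then xs A * ys B else 0)
        = xs A * ys B * (if ev0 ((A ∪ B).erase w) = A.erase w then (1 : R) else 0) := by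
      intro w _
      split_ifs <;> simp
    rw [sum_congr rfl h3, ← mul_sum]
    have hc' : ∑ w ∈ A ∪ B, (if ev0 ((A ∪ B).erase w) = A.erase w then (1 : R) else 0)
        = (if A = ev1 (A ∪ B) then 1 else 0) + (if A = ev0 (A ∪ B) then 1 else 0) := by
      convert hc
    rw [hc', mul_add]
    congr 1 <;> split_ifs <;> simp
  rw [sum_congr rfl r2, sum_add_distrib, add_comm]
  congr 1
  · rw [T2, ← sum_filter]
    refine sum_nbij' (fun p => p.1 ∪ p.2) (fun W => (ev0 W, ev1 W)) ?_ ?_ ?_ ?_ ?_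
    · rintro ⟨A, B⟩ hp
      rw [mem_filter] at hp
      obtain ⟨⟨hA, hB⟩, hcA, hcB, hd⟩ := mem_Prs2.mp hp.1
      have h3 : A = ev0 (A ∪ B) := hp.2
      have h4 : ev1 (A ∪ B) = B := ev1_of_ev0 hd h3.symm
      simp only [mem_filter, mem_powerset]
      exact ⟨union_subset hA hB, by rw [← h3, hcA], by rw [h4, hcB]⟩
    · intro W hW
      simp only [mem_filter, mem_powerset] at hW
      rw [mem_filter, mem_Prs2, ev0_union]
      exact ⟨⟨⟨fun u hu => hW.1 (mem_ev0.mp hu).1, fun u hu => hW.1 (mem_ev1.mp hu).1⟩,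
        hW.2.1, hW.2.2, ev0_disj W⟩, rfl⟩
    · rintro ⟨A, B⟩ hp
      rw [mem_filter] at hp
      obtain ⟨⟨hA, hB⟩, hcA, hcB, hd⟩ := mem_Prs2.mp hp.1
      have h3 : A = ev0 (A ∪ B) := hp.2
      have h4 : ev1 (A ∪ B) = B := ev1_of_ev0 hd h3.symm
      simp only
      rw [← h3, h4]
    · intro W _
      exact ev0_union W
    · rintro ⟨A, B⟩ hp
      rw [mem_filter] at hp
      obtain ⟨⟨hA, hB⟩, hcA, hcB, hd⟩ := mem_Prs2.mp hp.1
      have h3 : A = ev0 (A ∪ B) := hp.2
      have h4 : ev1 (A ∪ B) = B := ev1_of_ev0 hd h3.symm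
      simp only
      rw [← h3, h4]
  · rw [T2, ← sum_filter]
    refine sum_nbij' (fun p => p.1 ∪ p.2) (fun W => (ev1 W, ev0 W)) ?_ ?_ ?_ ?_ ?_
    · rintro ⟨A, B⟩ hp
      rw [mem_filter] at hp
      obtain ⟨⟨hA, hB⟩, hcA, hcB, hd⟩ := mem_Prs2.mp hp.1
      have h3 : A = ev1 (A ∪ B) := hp.2
      have h4 : ev0 (A ∪ B) = B := ev0_of_ev1 hd h3.symm
      simp only [mem_filter, mem_powerset]
      exact ⟨union_subset hA hB, by rw [h4, hcB], by rw [← h3, hcA]⟩
    · intro W hW
      simp only [mem_filter, mem_powerset] at hW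
      have hu : ev1 W ∪ ev0 W = W := by rw [union_comm, ev0_union]
      rw [mem_filter, mem_Prs2, hu]
      exact ⟨⟨⟨fun u hu => hW.1 (mem_ev1.mp hu).1, fun u hu => hW.1 (mem_ev0.mp hu).1⟩,
        hW.2.2, hW.2.1, (ev0_disj W).symm⟩, rfl⟩
    · rintro ⟨A, B⟩ hp
      rw [mem_filter] at hp
      obtain ⟨⟨hA, hB⟩, hcA, hcB, hd⟩ := mem_Prs2.mp hp.1
      have h3 : A = ev1 (A ∪ B) := hp.2
      have h4 : ev0 (A ∪ B) = B := ev0_of_ev1 hd h3.symm
      simp only
      rw [← h3, h4]
    · intro W _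
      simp only
      rw [union_comm, ev0_union]
    · rintro ⟨A, B⟩ hp
      rw [mem_filter] at hp
      obtain ⟨⟨hA, hB⟩, hcA, hcB, hd⟩ := mem_Prs2.mp hp.1
      have h3 : A = ev1 (A ∪ B) := hp.2
      have h4 : ev0 (A ∪ B) = B := ev0_of_ev1 hd h3.symm
      simp only
      rw [← h3, h4, mul_comm]

end ring

/-! ### Faces and the differential -/

/-- the second identity of the faces -/
theorem sum_faces' {s k : ℕ} (x : P) {B : Finset ℕ}
    (hB : B ⊆ range (s + k + 2)) (hk : B.card = k) :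
    ∑ w ∈ range (s + k + 2) \ B, faces (insert w B) x = faces B (d s x) := by
  have hc : Nat.count (· ∉ B) (s + k + 2) = s + 2 := by rw [count_notMem hB, hk]; omega
  apply jo_inj
  rw [map_sum]
  have h1 : ∑ w ∈ range (s + k + 2) \ B, jo (faces (insert w B) x)
      = ∑ i ∈ range (s + 2), FF (en B) (FF (om i) (jo x)) := by
    symm
    refine sum_bij (fun i _ => en B i) ?_ ?_ ?_ ?_
    · intro i hi
      rw [mem_range] at hi
      rw [mem_sdiff, mem_range]
      refine ⟨Nat.nth_lt_of_lt_count (by rw [hc]; exact hi), ?_⟩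
      exact Nat.nth_mem_of_infinite (inf_compl B) i
    · intro i _ j _ h
      exact (en_mono B).injective h
    · intro w hw
      rw [mem_sdiff, mem_range] at hw
      refine ⟨Nat.count (· ∉ B) w, ?_, ?_⟩
      · rw [mem_range, ← hc]
        exact Nat.count_strict_mono hw.2 hw.1
      · exact Nat.nth_count hw.2
    · intro i _
      rw [jo_faces, FF_FF (om_mono i).monotone (en_mono B).monotone]
      congr 2
      refine en_eq ((en_mono B).comp (om_mono i)) fun b => ?_
      rw [mem_insert, not_or]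
      constructor
      · rintro ⟨h1, h2⟩
        have : b ∈ Set.range (en B) := by rw [en_range]; exact h2
        obtain ⟨a, rfl⟩ := this
        obtain ⟨c, rfl⟩ := om_surj (w := i) (b := a) (fun e => h1 (by rw [e]))
        exact ⟨c, rfl⟩
      · rintro ⟨a, rfl⟩
        refine ⟨fun e => om_ne i a ((en_mono B).injective e), ?_⟩
        exact Nat.nth_mem_of_infinite (inf_compl B) _
  rw [h1, ← map_sum, jo_faces]
  congr 1
  rw [d, LinearMap.sum_apply, map_sum]
  exact sum_congr rfl fun i _ => (jo_face i x).symm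

theorem faces_single (b : ℕ) (x : P) : faces {b} x = face b x := by
  have h := faces_insert (m := b) (A := ∅) (by simp) x
  have h1 : faces ∅ x = x := by simp [faces]
  rw [h1] at h
  simpa using h

/-- the differential has square zero -/
theorem d_d (s : ℕ) (x : P) : d (s + 1) (d s x) = 0 := by
  have h1 : ∀ b ∈ range (s + 1 + 2), (face b).toLinearMap (d s x)
      = ∑ w ∈ range (s + 1 + 2) \ {b}, faces (insert w {b}) x := by
    intro b hb
    rw [AlgHom.toLinearMap_apply, ← faces_single]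
    exact (sum_faces' (k := 1) x (by simpa using hb) (by simp)).symm
  rw [d, LinearMap.sum_apply, sum_congr rfl h1, sum_sigma']
  refine sum_involution (fun p _ => ⟨p.2, p.1⟩) ?_ ?_ ?_ ?_
  · rintro ⟨b, w⟩ _
    simp only
    rw [show (insert w {b} : Finset ℕ) = insert b {w} from Finset.pair_comm _ _]
    exact p2_add_self _
  · rintro ⟨b, w⟩ h _ h2
    simp only [mem_sigma, mem_sdiff, mem_singleton] at h
    simp only [Sigma.mk.injEq] at h2
    exact h.2.2 h2.1
  · rintro ⟨b, w⟩ h
    simp only [mem_sigma, mem_sdiff, mem_singleton] at h ⊢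
    exact ⟨h.2.1, h.1, fun e => h.2.2 e.symm⟩
  · rintro ⟨b, w⟩ _
    rfl

/-- the reindexing of the differential of a cup product -/
theorem reidx2 {R : Type*} [CommRing R] (f : Finset ℕ → Finset ℕ → R) (k l M : ℕ) :
    ∑ w ∈ range (M + 1), ∑ U ∈ (range M).powerset with (ev0 U).card = k ∧ (ev1 U).card = l,
      f (insert w (sh w (ev0 U))) (insert w (sh w (ev1 U)))
    = ∑ W ∈ (range (M + 1)).powerset, ∑ w ∈ W,
      (if ((ev0 W).erase w).card = k ∧ ((ev1 W).erase w).card = l then
        f (insert w (ev0 W)) (insert w (ev1 W)) else 0) := by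
  simp only [← sum_filter]
  rw [sum_sigma', sum_sigma']
  refine sum_nbij' (fun x => ⟨insert x.1 (sh x.1 x.2), x.1⟩) (fun x => ⟨x.2, pull x.2 x.1⟩)
    ?_ ?_ ?_ ?_ ?_
  · rintro ⟨w, U⟩ h
    simp only [mem_sigma, mem_powerset, mem_filter, mem_range] at h ⊢
    obtain ⟨hw, hU, h0, h1⟩ := h
    refine ⟨?_, mem_insert_self _ _, ?_, ?_⟩
    · intro a ha
      rcases mem_insert.mp ha with rfl | ha
      · exact mem_range.mpr hw
      · obtain ⟨b, hb, rfl⟩ := mem_image.mp ha
        have := mem_range.mp (hU hb)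
        rw [mem_range, om]
        split_ifs <;> omega
    · rw [ev0_sh, card_sh, h0]
    · rw [ev1_sh, card_sh, h1]
  · rintro ⟨W, w⟩ h
    simp only [mem_sigma, mem_powerset, mem_filter, mem_range] at h ⊢
    obtain ⟨hW, hw, h0, h1⟩ := h
    have h2 : insert w (sh w (pull w W)) = W := by rw [sh_pull, insert_erase hw]
    refine ⟨mem_range.mp (hW hw), ?_, ?_, ?_⟩
    · intro a ha
      obtain ⟨b, hb, rfl⟩ := mem_image.mp ha
      have h3 := mem_range.mp (hW (mem_of_mem_erase hb))
      have h4 := mem_range.mp (hW hw)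
      have h5 := (mem_erase.mp hb).1
      rw [mem_range, dn]
      split_ifs <;> omega
    · rw [← h2, ev0_sh, card_sh] at h0
      exact h0
    · rw [← h2, ev1_sh, card_sh] at h1
      exact h1
  · rintro ⟨w, U⟩ _
    simp only
    rw [pull_sh]
  · rintro ⟨W, w⟩ h
    simp only [mem_sigma, mem_filter] at h
    simp only
    rw [sh_pull, insert_erase h.2.1]
  · rintro ⟨w, U⟩ _
    simp only
    rw [insert_ev0_sh, insert_ev1_sh]

/-! ### Cup products -/

/-- the cup product with `k` and `l` omitted vertices on a simplex with `N` vertices -/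
noncomputable def cp (N k l : ℕ) (x y : P) : P := T2 N k l fun A B => faces A x * faces B y

theorem sqC_cp (k s : ℕ) (x : P) : sqC k s x = cp (s + k + 1) k k x x := rfl

theorem faces_add (A : Finset ℕ) (x y : P) : faces A (x + y) = faces A x + faces A y := by
  apply jo_inj
  rw [jo_faces, map_add, map_add, map_add, jo_faces, jo_faces]

theorem faces_zero (A : Finset ℕ) : faces A (0 : P) = 0 := by
  apply jo_inj
  rw [jo_faces, map_zero, map_zero]

theorem cp_zero_left (N k l : ℕ) (y : P) : cp N k l 0 y = 0 := by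
  rw [cp, T2]
  exact sum_eq_zero fun W _ => by rw [faces_zero, zero_mul]

theorem cp_zero_right (N k l : ℕ) (x : P) : cp N k l x 0 = 0 := by
  rw [cp, T2]
  exact sum_eq_zero fun W _ => by rw [faces_zero, mul_zero]

/-- Steenrod's coboundary formula -/
theorem d_cp {N k l s s' : ℕ} (h1 : N = s + k + 1) (h2 : N = s' + l + 1) (x y : P) :
    d (s + k) (cp N k l x y) = cp (N + 1) (k + 1) l x (d s' y) + cp (N + 1) k (l + 1) (d s x) y
      + cp (N + 1) (k + 1) (l + 1) x y + cp (N + 1) (l + 1) (k + 1) y x := by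
  have hN : s + k + 2 = N + 1 := by omega
  rw [d, LinearMap.sum_apply, hN]
  have h3 : ∀ w ∈ range (N + 1), (face w).toLinearMap (cp N k l x y)
      = ∑ U ∈ (range N).powerset with (ev0 U).card = k ∧ (ev1 U).card = l,
        faces (insert w (sh w (ev0 U))) x * faces (insert w (sh w (ev1 U))) y := by
    intro w _
    rw [cp, T2, AlgHom.toLinearMap_apply, map_sum]
    exact sum_congr rfl fun U _ => by rw [map_mul, face_faces, face_faces]
  rw [sum_congr rfl h3, reidx2 (fun A B => faces A x * faces B y),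
    cmb2 (fun a : P => p2_add_self a) (fun A => faces A x) (fun A => faces A y)]
  congr 3
  · rw [cp, T2, T2]
    refine sum_congr rfl fun W hW => ?_
    rw [mem_filter, mem_powerset] at hW
    have e : N + 1 = s' + l + 2 := by omega
    rw [e, sum_faces' y (fun u hu => by rw [← e]; exact hW.1 (mem_ev1.mp hu).1) hW.2.2]
  · rw [cp, T2, T2]
    refine sum_congr rfl fun W hW => ?_
    rw [mem_filter, mem_powerset] at hW
    have e : N + 1 = s + k + 2 := by omega
    rw [e, sum_faces' x (fun u hu => by rw [← e]; exact hW.1 (mem_ev0.mp hu).1) hW.2.1]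

/-! ### The squares of sums and of coboundaries -/

theorem sqC_add (k s : ℕ) (x y : P) :
    sqC k s (x + y) = sqC k s x + sqC k s y
      + (cp (s + k + 1) k k x y + cp (s + k + 1) k k y x) := by
  simp only [sqC_cp, cp, T2]
  rw [← sum_add_distrib, ← sum_add_distrib, ← sum_add_distrib]
  refine sum_congr rfl fun W _ => ?_
  rw [faces_add, faces_add]
  ring

theorem sqC_add' (k s : ℕ) {x y : P} (hx : d s x = 0) (hy : d s y = 0) :
    sqC (k + 1) s (x + y) = sqC (k + 1) s x + sqC (k + 1) s y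
      + d (s + k) (cp (s + k + 1) k k x y) := by
  rw [d_cp rfl rfl, hx, hy, cp_zero_left, cp_zero_right, sqC_add]
  simp only [zero_add, add_zero]
  rw [show s + (k + 1) + 1 = s + k + 1 + 1 by ring]

theorem sqC_d (k s : ℕ) (g : P) :
    sqC (k + 1) (s + 1) (d s g)
      = d (s + (k + 1)) (cp (s + k + 2) (k + 1) k g (d s g) + cp (s + k + 2) (k + 1) (k + 1) g g) := by
  have h2 : ∀ a : P, a + a = 0 := fun a => p2_add_self a
  have hdd : d (s + 1) (d s g) = 0 := d_d s g
  have e1 := d_cp (N := s + k + 2) (k := k + 1) (l := k) (s := s) (s' := s + 1) (by ring) (by ring)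
    g (d s g)
  have e2 := d_cp (N := s + k + 2) (k := k + 1) (l := k + 1) (s := s) (s' := s) (by ring) (by ring)
    g g
  rw [map_add, e1, e2, hdd, cp_zero_right, sqC_cp, show s + 1 + (k + 1) + 1 = s + k + 2 + 1 by ring]
  linear_combination (-1 : P) * h2 (cp (s + k + 2 + 1) (k + 1 + 1) (k + 1) g (d s g))
    - h2 (cp (s + k + 2 + 1) (k + 1) (k + 1 + 1) (d s g) g)
    - h2 (cp (s + k + 2 + 1) (k + 1 + 1) (k + 1 + 1) g g)

theorem C_cp {N k l s s' : ℕ} (h1 : N = s + k + 1) (h2 : N = s' + l + 1) {x y : P}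
    (hx : x ∈ St.C s) (hy : y ∈ St.C s') : cp N k l x y ∈ St.C (s + k) := by
  rw [cp, T2]
  refine Submodule.sum_mem _ fun W hW => ?_
  rw [mem_filter] at hW
  have h3 := C_faces (ev0 W) hx
  have h4 := C_faces (ev1 W) hy
  rw [hW.2.1] at h3
  rw [hW.2.2, show s' + l = s + k by omega] at h4
  exact C_mul h3 h4

/-- the squares of coboundaries are coboundaries -/
theorem sqC_B {k s : ℕ} {x : P} (hx : x ∈ B s) : sqC (k + 1) s x ∈ B (s + (k + 1)) := by
  cases s with
  | zero =>
    rw [B, Submodule.mem_bot] at hx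
    rw [hx, sqC]
    refine Submodule.sum_mem _ fun W _ => ?_
    rw [faces_zero, zero_mul]
    exact Submodule.zero_mem _
  | succ s =>
    obtain ⟨g, hg, rfl⟩ := hx
    rw [sqC_d, show s + 1 + (k + 1) = (s + (k + 1)) + 1 by ring]
    refine ⟨_, Submodule.add_mem _ (C_cp (s' := s + 1) (by ring) (by ring) hg (C_d hg))
      (C_cp (s' := s) (by ring) (by ring) hg hg), rfl⟩

/-- the squares are additive on classes -/
theorem sqC_add_B {k s : ℕ} {x y : P} (hx : x ∈ St.C s) (hdx : d s x = 0) (hy : y ∈ St.C s)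
    (hdy : d s y = 0) : sqC (k + 1) s (x + y) + (sqC (k + 1) s x + sqC (k + 1) s y) ∈
      B (s + (k + 1)) := by
  rw [sqC_add' k s hdx hdy]
  have e : sqC (k + 1) s x + sqC (k + 1) s y + d (s + k) (cp (s + k + 1) k k x y)
      + (sqC (k + 1) s x + sqC (k + 1) s y) = d (s + k) (cp (s + k + 1) k k x y) := by
    have h2 : ∀ a : P, a + a = 0 := fun a => p2_add_self a
    linear_combination h2 (sqC (k + 1) s x) + h2 (sqC (k + 1) s y)
  rw [e]
  exact ⟨_, C_cp (s' := s) rfl rfl hx hy, rfl⟩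

/-- the squares are well defined on classes -/
theorem sqC_congr {k s : ℕ} {x y : P} (hx : x ∈ St.C s) (hdx : d s x = 0) (hy : y ∈ St.C s)
    (hdy : d s y = 0) (h : x + y ∈ B s) : sqC (k + 1) s x + sqC (k + 1) s y ∈ B (s + (k + 1)) := by
  have h1 := Submodule.add_mem _ (sqC_add_B (k := k) hx hdx hy hdy) (sqC_B (k := k) h)
  have e : sqC (k + 1) s (x + y) + (sqC (k + 1) s x + sqC (k + 1) s y) + sqC (k + 1) s (x + y)
      = sqC (k + 1) s x + sqC (k + 1) s y := by
    have h2 : ∀ a : P, a + a = 0 := fun a => p2_add_self a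
    linear_combination h2 (sqC (k + 1) s (x + y))
  rwa [e] at h1

end Pool.Agent.H92ND
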