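import Pool.Agent.H92ND.V
import Pool.Agent.H92ND.W

/-!
The second form of the main theorem: outside a sparse set of degrees `x ↦ h₀ Sq¹ x` has no kernel.
-/

set_option autoImplicit false
set_option linter.unusedSectionVars false

namespace Pool.Agent.H92ND

open Finset MvPolynomial Pool.Agent.Q171.ND3 Pool.Agent.Q171.ND3.St

/-- a nonzero class with zero `Sq¹` is exceptional -/
theorem exc_of_zero {s t : ℕ} {u : P} (hu : Cy s t u) (hB : u ∉ B s)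
    (h : sqC 1 s u ∈ B (s + 1)) : Exc s t := by
  refine ⟨u, hu, hB, fun u' hu' h' => ?_⟩
  have h1 := sqC_congr (k := 0) hu.mem hu.cyc hu'.mem hu'.cyc h'
  have h2 := Submodule.add_mem _ h h1
  rw [← add_assoc] at h2
  have e : sqC 1 s u + sqC 1 s u + sqC 1 s u' = sqC 1 s u' := by
    linear_combination P2 (sqC 1 s u)
  change sqC 1 s u + sqC 1 s u + sqC 1 s u' ∈ _ at h2
  rwa [e] at h2

theorem B_pow2 {q : ℕ} {x : P} (h : x ∈ B q) (k : ℕ) : x ^ 2 ^ k ∈ B q := by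
  induction k with
  | zero => simpa using h
  | succ k ih =>
    have := frob_B _ ih
    rwa [frob_apply, ← pow_mul, ← pow_succ] at this

theorem B_cancel {q : ℕ} {x y : P} (h : x + y ∈ B q) (hy : y ∈ B q) : x ∈ B q := by
  have h1 := Submodule.add_mem _ h hy
  have e : x + y + y = x := by linear_combination P2 y
  rwa [e] at h1

theorem B_comm {q : ℕ} {x y : P} (h : x + y ∈ B q) : y + x ∈ B q := by rwa [add_comm]

/-- exceptional classes descend along `Sq⁰` -/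
theorem exc_down {s m0 N : ℕ} (hG : Good m0 s) (hG' : Good m0 (s + 1)) (hN : 2 ^ m0 ∣ N) (k : ℕ)
    {x : P} (hx : Cy s (2 ^ k * N) x) (hB : x ∉ B s) (h : sqC 1 s x ∈ B (s + 1)) : Exc s N := by
  obtain ⟨u, hu, hxu⟩ := hG.surj hN k hx
  have hB' : u ∉ B s := fun hu0 => hB (B_cancel hxu (B_pow2 hu0 k))
  refine exc_of_zero hu hB' ?_
  have h1 : sqC 1 s x + sqC 1 s (u ^ 2 ^ k) ∈ B (s + 1) :=
    sqC_congr (k := 0) hx.mem hx.cyc (hu.pow2 k).mem (hu.pow2 k).cyc hxu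
  have h2 := B_cancel (B_comm h1) h
  rw [sq1_pow2] at h2
  exact hG'.inj (Dvd.dvd.mul_left hN 2) hu.sq1 k h2

/-- `h₀ Sq¹ x = 0` only if `Sq¹ x = 0` -/
theorem h0sq1 {s m0 N : ℕ} (hG : Good m0 s)
    (hh : ∀ N, 2 ^ m0 ∣ N → ∀ z, Cy (s + 1) N z →
      z ^ 2 * X (s + 1, 0) ∈ B (s + 2) → z ∈ B (s + 1)) (hN : 2 ^ m0 ∣ N)
    {x : P} (hx : Cy s (2 * N) x) (h : sqC 1 s x * X (s + 1, 0) ∈ B (s + 2)) :
    sqC 1 s x ∈ B (s + 1) := by
  obtain ⟨u, hu, hxu⟩ := (hG N hN).2 x hx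
  have h1 : sqC 1 s x + sqC 1 s (u ^ 2) ∈ B (s + 1) :=
    sqC_congr (k := 0) hx.mem hx.cyc hu.sq.mem hu.sq.cyc hxu
  rw [sqC_sq] at h1
  have h2 : (sqC 1 s x + sqC 1 s u ^ 2) * X (s + 1, 0) ∈ B (s + 2) := by
    have := mulh_B (i := 0) _ h1
    rwa [mulh_apply, pow_zero, pow_one] at this
  rw [add_mul] at h2
  have h3 := B_cancel (B_comm h2) h
  have h4 := hh (2 * N) (Dvd.dvd.mul_left hN 2) _ hu.sq1 h3
  exact B_cancel h1 (frob_B _ h4)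

/-- the second form of the main theorem -/
theorem main2 (s : ℕ) (hs : 2 ≤ s) : ∃ (J C : ℕ) (X : Set ℕ),
    (∀ i t : ℕ, J ≤ i → Set.BijOn (sq0 s) {y | IsDeg s (2 ^ i * t) y}
      {y | IsDeg s (2 ^ (i + 1) * t) y}) ∧
    (∀ i t : ℕ, J ≤ i → Odd t → {y | IsDeg s (2 ^ i * t) y}.Finite ∧
      {y | IsDeg s (2 ^ i * t) y}.ncard ≤ C) ∧
    (∀ n, (n - C) ^ (s - 1) ≤
        C * {t | Odd t ∧ t < 2 ^ n ∧ ∃ y, IsDeg s (2 ^ J * t) y ∧ y ≠ 0}.ncard ∧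
      {t | Odd t ∧ t < 2 ^ n ∧ ∃ y, IsDeg s (2 ^ J * t) y ∧ y ≠ 0}.ncard ≤ C * (n + 1) ^ (s - 1)) ∧
    (∀ n, {t | t ∈ X ∧ t < 2 ^ n}.ncard ≤ C * (n + 1) ^ (s - 2)) ∧
    (∀ i t : ℕ, J ≤ i → Odd t → t ∉ X → ∀ x : Cocycle s, IsHom (2 ^ i * t) x.val → x.cls ≠ 0 →
      hmul 0 (s + 1) (x.Sq 1).cls ≠ 0) ∧
    ∀ d₂ : (q : ℕ) → Ext q → Ext (q + 2), Bruner d₂ → ∀ a t : ℕ, Odd t → t ∉ X →
      ∀ x : Ext s, IsDeg s (2 ^ a * t) x → ∀ j, J < j → d₂ s (fam s j x) = 0 → fam s j x = 0 := by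
  obtain ⟨m1, h1⟩ : ∃ m0, ∀ m, m0 ≤ m → ∀ q, 1 ≤ q → q ≤ s + 1 → Good m q := exists_good' _
  obtain ⟨r, hr⟩ := h0_inj' s
  set J := m1 + r + 1 with hJ
  have hG : ∀ q, 1 ≤ q → q ≤ s + 1 → Good J q := h1 J (by omega)
  have hG' : ∀ q, 1 ≤ q → q ≤ s → Good J q := fun q hq hqs => hG q hq (by omega)
  have hG0 : Good (m1 + r) s := h1 _ (by omega) s (by omega) (by omega)
  obtain ⟨D, hD⟩ := bounded s J hG' s (by omega) le_rfl
  obtain ⟨C1, hC1⟩ := upper s J hG' s (by omega) le_rfl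
  obtain ⟨C2, hC2⟩ := upper_exc s J hs hG'
  obtain ⟨a, _, hlow⟩ := lower s J hG' s (by omega) le_rfl
  set C := (a + s) + (s - 1).factorial + D + C1 + C2 with hC
  have hbij : ∀ i t : ℕ, J ≤ i → Set.BijOn (sq0 s) {y | IsDeg s (2 ^ i * t) y}
      {y | IsDeg s (2 ^ (i + 1) * t) y} := by
    intro i t hi
    have := sq0_bij (hG' s (by omega) le_rfl) (N := 2 ^ i * t)
      (Dvd.dvd.mul_right (pow_dvd_pow 2 hi) _)
    rwa [← mul_assoc, ← pow_succ'] at this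
  have hset : ∀ n, {t | Odd t ∧ t < 2 ^ n ∧ ∃ y, IsDeg s (2 ^ J * t) y ∧ y ≠ 0}
      = ((OD (fun t => Nz s (2 ^ J * t)) n : Finset ℕ) : Set ℕ) := by
    intro n
    ext t
    rw [mem_coe, mem_OD, Set.mem_setOf_eq]
    constructor
    · rintro ⟨h1, h2, y, hy, hy0⟩
      exact ⟨h2, h1, ext_nz hy hy0⟩
    · rintro ⟨h1, h2, h3⟩
      obtain ⟨y, hy, hy0⟩ := nz_ext h3
      exact ⟨h2, h1, y, hy, hy0⟩
  have hunc : ∀ i t : ℕ, J ≤ i → Odd t → t ∉ {t | Odd t ∧ Exc s (2 ^ J * t)} → ∀ x : Cocycle s,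
      IsHom (2 ^ i * t) x.val → x.cls ≠ 0 → hmul 0 (s + 1) (x.Sq 1).cls ≠ 0 := by
    intro i t hi ht hX x hx hx0 h0
    apply hX
    refine ⟨ht, ?_⟩
    obtain ⟨k, rfl⟩ := Nat.exists_eq_add_of_le hi
    have hxc : Cy s (2 ^ k * (2 ^ J * t)) x.val := by
      refine ⟨x.mem, ?_, x.closed⟩
      rwa [← mul_assoc, ← pow_add, add_comm k J]
    have hxB : x.val ∉ B s := fun h => hx0 (cl_eq_zero.mpr h)
    have h3 : hmul 0 (s + 1) (x.Sq 1).cls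
      = cl ⟨mulh 0 (s + 1) (sqC 1 s x.val), mulh_Z _ (x.Sq 1).toZ.2⟩ := rfl
    rw [h3, cl_eq_zero] at h0
    have h4 : sqC 1 s x.val * X (s + 1, 0) ∈ B (s + 2) := by
      have h5 : mulh 0 (s + 1) (sqC 1 s x.val) ∈ B (s + 2) := h0
      rwa [mulh_apply, pow_zero, pow_one] at h5
    have hd : 2 ^ (m1 + r) ∣ 2 ^ (m1 + r + k) * t :=
      Dvd.dvd.mul_right (pow_dvd_pow 2 (by omega)) _
    have h6 : sqC 1 s x.val ∈ B (s + 1) := by
      refine h0sq1 hG0 (fun N hN => hr N (dvd_trans (pow_dvd_pow 2 (by omega)) hN)) hd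
        (x := x.val) ?_ h4
      have e : 2 ^ k * (2 ^ J * t) = 2 * (2 ^ (m1 + r + k) * t) := by
        rw [hJ]; ring
      rwa [← e]
    exact exc_down (hG s (by omega) (by omega)) (hG (s + 1) (by omega) le_rfl) (dvd_mul_right _ _) k
      hxc hxB h6
  refine ⟨J, C, {t | Odd t ∧ Exc s (2 ^ J * t)}, hbij, ?_, ?_, ?_, hunc, ?_⟩
  · intro i t hi ht
    refine ⟨fin_deg _ _, ?_⟩
    obtain ⟨k, rfl⟩ := Nat.exists_eq_add_of_le hi
    have h2 := ncard_deg ((hD t ht).pow2 (hG' s (by omega) le_rfl) (dvd_mul_right _ _) k)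
    rw [← mul_assoc, ← pow_add, add_comm k J] at h2
    exact h2.trans (by omega)
  · intro n
    rw [hset, Set.ncard_coe_finset]
    refine ⟨?_, (hC1 n).trans (Nat.mul_le_mul_right _ (by omega))⟩
    have h2 := pow_bound (n := n) hs (hlow n)
    calc (n - C) ^ (s - 1) ≤ (n - (a + s)) ^ (s - 1) := Nat.pow_le_pow_left (by omega) _
      _ ≤ (s - 1).factorial * (OD (fun t => Nz s (2 ^ J * t)) n).card := h2
      _ ≤ C * (OD (fun t => Nz s (2 ^ J * t)) n).card := Nat.mul_le_mul_right _ (by omega)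
  · intro n
    have e : {t | t ∈ {t | Odd t ∧ Exc s (2 ^ J * t)} ∧ t < 2 ^ n}
        = ((OD (fun t => Exc s (2 ^ J * t)) n : Finset ℕ) : Set ℕ) := by
      ext t
      rw [mem_coe, mem_OD, Set.mem_setOf_eq, Set.mem_setOf_eq]
      tauto
    rw [e, Set.ncard_coe_finset]
    exact (hC2 n).trans (Nat.mul_le_mul_right _ (by omega))
  · intro d₂ hd a' t ht hX x hx j hj h0
    obtain ⟨k, rfl⟩ : ∃ k, j = k + 1 := ⟨j - 1, by omega⟩
    have h2 : fam s (k + 1) x = sq0 s (fam s k x) := Function.iterate_succ_apply' _ _ _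
    obtain ⟨z, hz, hzx⟩ := fam_deg hx k
    rw [h2, ← hzx] at h0 ⊢
    by_contra hne
    have hz0 : z.cls ≠ 0 := by
      intro h3
      apply hne
      rw [h3]
      exact map_zero (Sq0 s)
    have e : 2 ^ k * (2 ^ a' * t) = 2 ^ (k + a') * t := by rw [pow_add]; ring
    rw [e] at hz
    refine hunc (k + a') t (by omega) ht hX z hz hz0 ?_
    rw [← hd s (2 ^ (k + a') * t) z ?_ hz, h0]
    obtain ⟨l, hl⟩ : ∃ l, k + a' = l + 1 := ⟨k + a' - 1, by omega⟩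
    rw [hl, pow_succ', mul_assoc]
    exact even_two_mul _

end Pool.Agent.H92ND
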